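import Pool.Agent.H792.MCDefs

set_option autoImplicit false

namespace Pool.MP_9f00ad_co.NotFinGen

open Set

/-! ### sums of submodular juntas -/

variable {U U' : Type}

def Submod (h : Set U → ℤ) : Prop := ∀ X Y, h (X ∪ Y) + h (X ∩ Y) ≤ h X + h Y

def Junta (c : ℕ) (h : Set U → ℤ) : Prop :=
  ∃ S : Finset U, S.card ≤ c ∧ ∀ X, h (X ∩ S) = h X

def Dec (c : ℕ) (U : Type) : AddSubmonoid (Set U → ℤ) :=
  AddSubmonoid.closure {h | Submod h ∧ Junta c h}

lemma Dec.submod {c : ℕ} {f : Set U → ℤ} (hf : f ∈ Dec c U) : Submod f := by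
  induction hf using AddSubmonoid.closure_induction with
  | mem x h => exact h.1
  | zero => intro X Y; simp
  | add x y hx hy ihx ihy =>
    intro X Y
    have h1 := ihx X Y
    have h2 := ihy X Y
    simp only [Pi.add_apply]
    linarith

lemma Dec.supp {c : ℕ} {f : Set U → ℤ} (hf : f ∈ Dec c U) :
    ∃ S : Finset U, ∀ X, f (X ∩ S) = f X := by
  classical
  induction hf using AddSubmonoid.closure_induction with
  | mem x h => obtain ⟨S, -, hS⟩ := h.2; exact ⟨S, hS⟩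
  | zero => exact ⟨∅, fun X => rfl⟩
  | add x y hx hy ihx ihy =>
    obtain ⟨S, hS⟩ := ihx
    obtain ⟨T, hT⟩ := ihy
    refine ⟨S ∪ T, fun X => ?_⟩
    have e1 : x (X ∩ ((S ∪ T : Finset U) : Set U)) = x X := by
      rw [← hS (X ∩ _), ← hS X]
      congr 1
      ext u; simp; tauto
    have e2 : y (X ∩ ((S ∪ T : Finset U) : Set U)) = y X := by
      rw [← hT (X ∩ _), ← hT X]
      congr 1
      ext u; simp; tauto
    simp only [Pi.add_apply, e1, e2]

/-- A coordinatewise monotone or antitone change of variables. -/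
def LocalHom (F : Set U' → Set U) : Prop :=
  ((∀ X Y, F (X ∪ Y) = F X ∪ F Y ∧ F (X ∩ Y) = F X ∩ F Y) ∨
    (∀ X Y, F (X ∪ Y) = F X ∩ F Y ∧ F (X ∩ Y) = F X ∪ F Y)) ∧
  ∀ u, ∃ S : Finset U', S.card ≤ 1 ∧ ∀ X, (u ∈ F (X ∩ S) ↔ u ∈ F X)

lemma Dec.comp {c : ℕ} {f : Set U → ℤ} (hf : f ∈ Dec c U) {F : Set U' → Set U}
    (hF : LocalHom F) : (fun X => f (F X)) ∈ Dec c U' := by
  classical
  induction hf using AddSubmonoid.closure_induction with
  | mem x h =>
    apply AddSubmonoid.subset_closure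
    refine ⟨?_, ?_⟩
    · intro X Y
      have hs := h.1 (F X) (F Y)
      rcases hF.1 with h1 | h1
      · simp only [(h1 X Y).1, (h1 X Y).2]; exact hs
      · simp only [(h1 X Y).1, (h1 X Y).2]; linarith
    · obtain ⟨S, hSc, hS⟩ := h.2
      choose G hG using hF.2
      refine ⟨S.biUnion G, ?_, fun X => ?_⟩
      · calc (S.biUnion G).card ≤ ∑ u ∈ S, (G u).card := Finset.card_biUnion_le
          _ ≤ ∑ u ∈ S, 1 := Finset.sum_le_sum fun u _ => (hG u).1
          _ = S.card := by simp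
          _ ≤ c := hSc
      · show x (F _) = x (F X)
        rw [← hS (F _), ← hS (F X)]
        congr 1
        ext u
        simp only [mem_inter_iff, Finset.mem_coe]
        refine and_congr_left fun hu => ?_
        rw [← (hG u).2 X, ← (hG u).2 (X ∩ _)]
        have : X ∩ ((S.biUnion G : Finset U') : Set U') ∩ (G u : Set U') = X ∩ (G u : Set U') := by
          ext w
          simp only [mem_inter_iff, Finset.mem_coe, Finset.mem_biUnion]
          constructor
          · rintro ⟨⟨h1, -⟩, h2⟩; exact ⟨h1, h2⟩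
          · rintro ⟨h1, h2⟩; exact ⟨⟨h1, u, hu, h2⟩, h2⟩
        rw [this]
  | zero => exact zero_mem _
  | add x y hx hy ihx ihy => exact add_mem ihx ihy

lemma Dec.const (c : ℕ) (z : ℤ) : (fun _ : Set U => z) ∈ Dec c U :=
  AddSubmonoid.subset_closure ⟨fun X Y => le_refl _, ∅, by simp, fun X => rfl⟩

open Classical in
lemma Dec.single {c : ℕ} (hc : 1 ≤ c) (u : U) (z : ℤ) :
    (fun X : Set U => if u ∈ X then z else 0) ∈ Dec c U := by
  refine AddSubmonoid.subset_closure ⟨fun X Y => ?_, {u}, by simpa using hc, fun X => ?_⟩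
  · by_cases h1 : u ∈ X <;> by_cases h2 : u ∈ Y <;> simp [h1, h2]
  · simp

open Classical in
lemma Dec.pair {c : ℕ} (hc : 2 ≤ c) (u v : U) {K : ℤ} (hK : 0 ≤ K) :
    (fun X : Set U => if u ∈ X ∧ v ∉ X then K else 0) ∈ Dec c U := by
  refine AddSubmonoid.subset_closure ⟨fun X Y => ?_, {u, v}, ?_, fun X => ?_⟩
  · by_cases h1 : u ∈ X <;> by_cases h2 : u ∈ Y <;> by_cases h3 : v ∈ X <;> by_cases h4 : v ∈ Y <;>
      simp [h1, h2, h3, h4, hK]
  · exact le_trans Finset.card_le_two hc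
  · simp

lemma Dec.mono {c d : ℕ} (h : c ≤ d) {f : Set U → ℤ} (hf : f ∈ Dec c U) : f ∈ Dec d U := by
  refine AddSubmonoid.closure_mono ?_ hf
  rintro g ⟨h1, S, h2, h3⟩
  exact ⟨h1, S, h2.trans h, h3⟩

lemma Dec.sum {c : ℕ} {ι : Type} (s : Finset ι) (f : ι → Set U → ℤ)
    (hf : ∀ i ∈ s, f i ∈ Dec c U) : (fun X => ∑ i ∈ s, f i X) ∈ Dec c U := by
  have : (fun X => ∑ i ∈ s, f i X) = ∑ i ∈ s, f i := by
    ext X; simp
  rw [this]
  exact sum_mem hf

/-! ### the rank function with integer values -/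

section Rank
variable {α : Type}

/-- The rank of `A` in `M`, as an integer. -/
noncomputable def rk (M : Matroid α) (A : Set α) : ℤ := ((M.eRk A).toNat : ℤ)

lemma rk_nonneg (M : Matroid α) (A : Set α) : 0 ≤ rk M A := by simp [rk]

lemma eRk_ne_top {M : Matroid α} (h : M.E.Finite) (A : Set α) : M.eRk A ≠ ⊤ := by
  rw [← M.eRk_inter_ground]
  have h1 := M.eRk_le_encard (A ∩ M.E)
  have h2 : (A ∩ M.E).Finite := h.subset inter_subset_right
  exact ne_top_of_le_ne_top h2.encard_lt_top.ne h1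

lemma coe_rk {M : Matroid α} (h : M.E.Finite) (A : Set α) :
    (((rk M A).toNat : ℕ) : ℕ∞) = M.eRk A := by
  simp [rk, ENat.natCast_toNat (eRk_ne_top h A)]

lemma rk_inter_ground (M : Matroid α) (A : Set α) : rk M (A ∩ M.E) = rk M A := by
  simp [rk]

lemma indep_le {M : Matroid α} (h : M.E.Finite) {I A : Set α} (hI : M.Indep I) (hIA : I ⊆ A) :
    (I.ncard : ℤ) ≤ rk M A := by
  have h1 := hI.encard_le_eRk_of_subset hIA
  have hIf : I.Finite := h.subset hI.subset_ground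
  rw [rk]
  have : I.ncard ≤ (M.eRk A).toNat := by
    rw [← ENat.natCast_le_natCast, ENat.natCast_toNat (eRk_ne_top h A), hIf.cast_ncard_eq]
    exact h1
  exact_mod_cast this

lemma exists_indep {M : Matroid α} (h : M.E.Finite) (A : Set α) :
    ∃ I ⊆ A, M.Indep I ∧ (I.ncard : ℤ) = rk M A := by
  obtain ⟨I, hI⟩ := M.exists_isBasis' A
  refine ⟨I, hI.subset, hI.indep, ?_⟩
  have hIf : I.Finite := h.subset hI.indep.subset_ground
  rw [rk, ← hI.encard_eq_eRk, ← hIf.cast_ncard_eq]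
  simp

lemma rk_eq_of {M : Matroid α} (h : M.E.Finite) {A : Set α} {r : ℤ}
    (h1 : ∀ I ⊆ A, M.Indep I → (I.ncard : ℤ) ≤ r) (h2 : ∃ I ⊆ A, M.Indep I ∧ r ≤ (I.ncard : ℤ)) :
    rk M A = r := by
  obtain ⟨I, hIA, hI, hc⟩ := exists_indep h A
  obtain ⟨J, hJA, hJ, hr⟩ := h2
  have e1 := h1 I hIA hI
  have e2 := indep_le h hJ hJA
  linarith

lemma rk_mono {M : Matroid α} (h : M.E.Finite) {A B : Set α} (hAB : A ⊆ B) : rk M A ≤ rk M B := by
  obtain ⟨I, hIA, hI, hc⟩ := exists_indep h A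
  rw [← hc]
  exact indep_le h hI (hIA.trans hAB)

lemma rk_submod {M : Matroid α} (h : M.E.Finite) : Submod (rk M) := by
  intro X Y
  have h1 := M.eRk_inter_add_eRk_union_le X Y
  have e : ∀ A, M.eRk A = (((M.eRk A).toNat : ℕ) : ℕ∞) := fun A =>
    (ENat.natCast_toNat (eRk_ne_top h A)).symm
  rw [e (X ∩ Y), e (X ∪ Y), e X, e Y] at h1
  have h2 : (M.eRk (X ∩ Y)).toNat + (M.eRk (X ∪ Y)).toNat ≤ (M.eRk X).toNat + (M.eRk Y).toNat := by
    exact_mod_cast h1
  simp only [rk]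
  have h3 : (((M.eRk (X ∩ Y)).toNat + (M.eRk (X ∪ Y)).toNat : ℕ) : ℤ) ≤
    (((M.eRk X).toNat + (M.eRk Y).toNat : ℕ) : ℤ) := by exact_mod_cast h2
  push_cast at h3
  linarith

lemma rk_le_ncard {M : Matroid α} (h : M.E.Finite) {A : Set α} (hA : A.Finite) :
    rk M A ≤ A.ncard := by
  obtain ⟨I, hIA, hI, hc⟩ := exists_indep h A
  rw [← hc]
  exact_mod_cast ncard_le_ncard hIA hA

lemma rk_union_le {M : Matroid α} (h : M.E.Finite) (A B : Set α) :
    rk M (A ∪ B) ≤ rk M A + rk M B := by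
  have := rk_submod h A B
  have h2 := rk_nonneg M (A ∩ B)
  linarith

lemma rk_empty {M : Matroid α} : rk M ∅ = 0 := by simp [rk]

lemma indep_of_rk {M : Matroid α} (h : M.E.Finite) {A : Set α} (hA : A.Finite)
    (hr : (A.ncard : ℤ) ≤ rk M A) : M.Indep A := by
  obtain ⟨I, hIA, hI, hc⟩ := exists_indep h A
  have : A.ncard ≤ I.ncard := by
    have : (A.ncard : ℤ) ≤ I.ncard := by rw [hc]; exact hr
    exact_mod_cast this
  rwa [← Set.eq_of_subset_of_ncard_le hIA this hA]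

end Rank

end Pool.MP_9f00ad_co.NotFinGen
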