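import Pool.Agent.H792.MC9

set_option autoImplicit false

namespace Pool.MP_9f00ad_co.NotFinGen

open Set
open scoped Matroid

section Ex
variable {H : Type} [AddCommGroup H] [DecidableEq H]

/-- at most three elements, and not three elements with sum zero -/
def ZInd (I : Finset H) : Prop := I.card ≤ 3 ∧ (I.card = 3 → ∑ x ∈ I, x ≠ 0)

lemma zind_aug : ∀ ⦃I J : Finset H⦄, ZInd I → ZInd J → I.card < J.card →
    ∃ e ∈ J, e ∉ I ∧ ZInd (insert e I) := by
  intro I J hI hJ hlt
  by_contra hno
  push Not at hno
  have hz : ∀ e ∈ J, e ∉ I → I.card = 2 ∧ e = -∑ x ∈ I, x := by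
    intro e heJ heI
    have h1 := hno e heJ heI
    have h2 : (insert e I).card = I.card + 1 := Finset.card_insert_of_notMem heI
    have h3 := hJ.1
    unfold ZInd at h1
    rw [h2, Finset.sum_insert heI] at h1
    push Not at h1
    obtain ⟨h4, h5⟩ := h1 (by omega)
    exact ⟨by omega, eq_neg_of_add_eq_zero_left h5⟩
  have hex : ∃ e ∈ J, e ∉ I := by
    by_contra hno2
    push Not at hno2
    have := Finset.card_le_card (show J ⊆ I from hno2)
    omega
  obtain ⟨e, heJ, heI⟩ := hex
  obtain ⟨hI2, he⟩ := hz e heJ heI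
  have hJ3 : J.card = 3 := by have := hJ.1; omega
  have hsub : J ⊆ insert e I := by
    intro x hx
    by_cases hxI : x ∈ I
    · exact Finset.mem_insert_of_mem hxI
    · rw [(hz x hx hxI).2, ← he]; exact Finset.mem_insert_self _ _
  have heq : J = insert e I := by
    apply Finset.eq_of_subset_of_card_le hsub
    rw [Finset.card_insert_of_notMem heI]; omega
  apply hJ.2 hJ3
  rw [heq, Finset.sum_insert heI, he]
  simp

/-- The matroid on `H` whose independent sets are the sets with at most three elements that are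
not three-element sets with sum zero. -/
def zs (H : Type) [AddCommGroup H] [DecidableEq H] : Matroid H :=
  (IndepMatroid.ofFinset (univ : Set H) ZInd (by simp [ZInd])
    (by
      intro I J hJ hIJ
      have h1 := Finset.card_le_card hIJ
      refine ⟨h1.trans hJ.1, fun h3 => ?_⟩
      have h4 : I = J := Finset.eq_of_subset_of_card_le hIJ (by have := hJ.1; omega)
      rw [h4] at h3 ⊢
      exact hJ.2 h3)
    zind_aug (fun _ _ => subset_univ _)).matroid

lemma zs_indep (I : Finset H) : (zs H).Indep I ↔ ZInd I := by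
  rw [zs, IndepMatroid.matroid_indep_iff]
  exact IndepMatroid.ofFinset_indep _ _ _ _ _ _

@[simp] lemma zs_ground : (zs H).E = univ := rfl

variable [Fintype H]

lemma zs_fin : (zs H).E.Finite := Set.toFinite _

lemma zs_rk_of_indep {I : Finset H} (hI : ZInd I) : rk (zs H) I = I.card := by
  apply le_antisymm
  · have := rk_le_ncard (M := zs H) zs_fin (A := (I : Set H)) (Finset.finite_toSet _)
    rwa [ncard_coe_finset] at this
  · have := indep_le (M := zs H) zs_fin ((zs_indep I).2 hI) (Subset.refl _)
    rwa [ncard_coe_finset] at this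

lemma zs_rk_le (A : Set H) : rk (zs H) A ≤ 3 := by
  obtain ⟨I, hIA, hI, hc⟩ := exists_indep (M := zs H) zs_fin A
  have hf : I.Finite := Set.toFinite _
  have h1 : ZInd hf.toFinset := by
    rw [← zs_indep]; simpa using hI
  rw [← hc, ncard_eq_toFinset_card _ hf]
  exact_mod_cast h1.1

/-- a zero-sum three-element set is `{a, b, -(a+b)}` -/
lemma zline_mem {l : Finset H} (hc : l.card = 3) (hs : ∑ x ∈ l, x = 0) {a b : H} (ha : a ∈ l)
    (hb : b ∈ l) (hab : a ≠ b) : l = {a, b, -(a + b)} := by
  have h1 : b ∈ l.erase a := Finset.mem_erase.2 ⟨hab.symm, hb⟩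
  have h2 : ((l.erase a).erase b).card = 1 := by
    rw [Finset.card_erase_of_mem h1, Finset.card_erase_of_mem ha, hc]
  obtain ⟨d, hd⟩ := Finset.card_eq_one.1 h2
  have e : l = insert a (insert b {d}) := by
    rw [← hd, Finset.insert_erase h1, Finset.insert_erase ha]
  have hdn : d ∈ (l.erase a).erase b := by rw [hd]; simp
  have hdb : d ≠ b := (Finset.mem_erase.1 hdn).1
  have hda : d ≠ a := (Finset.mem_erase.1 (Finset.mem_erase.1 hdn).2).1
  have h5 : a + (b + d) = 0 := by
    rw [e, Finset.sum_insert, Finset.sum_insert, Finset.sum_singleton] at hs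
    · exact hs
    · simpa using hdb.symm
    · simp [hab, hda.symm]
  have h6 : d = -(a + b) := by
    rw [← add_assoc] at h5
    exact eq_neg_of_add_eq_zero_right h5
  rw [e, h6]

lemma zs_rk_line {l : Finset H} (hc : l.card = 3) (hs : ∑ x ∈ l, x = 0) : rk (zs H) l = 2 := by
  apply le_antisymm
  · obtain ⟨I, hIA, hI, hcI⟩ := exists_indep (M := zs H) zs_fin (l : Set H)
    have hf : I.Finite := Set.toFinite _
    have h1 : ZInd hf.toFinset := by
      rw [← zs_indep]; simpa using hI
    have h2 : hf.toFinset ⊆ l := by simpa using hIA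
    rw [← hcI, ncard_eq_toFinset_card _ hf]
    have h3 : hf.toFinset.card ≤ 2 := by
      by_contra h4
      have h5 := h1.1
      have h6 : hf.toFinset.card = 3 := by omega
      have h7 : hf.toFinset = l := Finset.eq_of_subset_of_card_le h2 (by omega)
      rw [h7] at h1
      exact h1.2 hc hs
    exact_mod_cast h3
  · obtain ⟨I, hIl, hI⟩ := Finset.exists_subset_card_eq (show 2 ≤ l.card by omega)
    have h1 : ZInd I := ⟨by omega, fun h => by omega⟩
    have h2 := zs_rk_of_indep h1
    have h3 : rk (zs H) (I : Set H) ≤ rk (zs H) (l : Set H) := rk_mono zs_fin (by exact_mod_cast hIl)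
    rw [h2, hI] at h3
    exact_mod_cast h3

lemma zs_rk_line_insert {l : Finset H} (hc : l.card = 3) (hs : ∑ x ∈ l, x = 0) {v : H}
    (hv : v ∉ l) : rk (zs H) ((l : Set H) ∪ {v}) = 3 := by
  apply le_antisymm (zs_rk_le _)
  obtain ⟨a, ha, b, hb, hab⟩ := Finset.one_lt_card.1 (show 1 < l.card by omega)
  have hav : a ≠ v := by rintro rfl; exact hv ha
  have hbv : b ≠ v := by rintro rfl; exact hv hb
  have h1 : ({a, b, v} : Finset H).card = 3 := by
    rw [Finset.card_eq_three]; exact ⟨a, b, v, hab, hav, hbv, rfl⟩
  have h2 : ZInd ({a, b, v} : Finset H) := by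
    refine ⟨by omega, fun _ h3 => ?_⟩
    have h4 := zline_mem h1 h3 (a := a) (b := b) (by simp) (by simp) hab
    have h5 : v = -(a + b) := by
      have : v ∈ ({a, b, -(a + b)} : Finset H) := by rw [← h4]; simp
      simp only [Finset.mem_insert, Finset.mem_singleton] at this
      rcases this with h | h | h
      · exact absurd h.symm hav
      · exact absurd h.symm hbv
      · exact h
    have h6 := zline_mem hc hs ha hb hab
    apply hv
    rw [h6, h5]
    simp
  have h3 := zs_rk_of_indep h2
  rw [h1] at h3
  have h4 : rk (zs H) (({a, b, v} : Finset H) : Set H) ≤ rk (zs H) ((l : Set H) ∪ {v}) := by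
    apply rk_mono zs_fin
    intro x hx
    simp only [Finset.coe_insert, Finset.coe_singleton, mem_insert_iff, mem_singleton_iff] at hx
    rcases hx with rfl | rfl | rfl
    · exact Or.inl ha
    · exact Or.inl hb
    · exact Or.inr rfl
  rw [h3] at h4
  exact_mod_cast h4

open Classical in
/-- the zero-sum three-element sets -/
noncomputable def zlines (H : Type) [AddCommGroup H] [Fintype H] : Finset (Finset H) :=
  (Finset.univ.powersetCard 3).filter (fun l => ∑ x ∈ l, x = 0)

lemma mem_zlines {l : Finset H} : l ∈ zlines H ↔ l.card = 3 ∧ ∑ x ∈ l, x = 0 := by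
  simp [zlines, Finset.mem_powersetCard]

lemma zlines_le {c : ℕ} (h : Expr c (zs H)) : (zlines H).card ≤ c * Fintype.card H := by
  apply lines_le h
  · intro v
    have : ZInd ({v} : Finset H) := ⟨by simp, fun h => by simp at h⟩
    have := zs_rk_of_indep this
    simpa using this
  · intro v w hvw
    have hc : ({v, w} : Finset H).card = 2 := Finset.card_pair hvw
    have : ZInd ({v, w} : Finset H) := ⟨by omega, fun h => by omega⟩
    have := zs_rk_of_indep this
    rw [hc] at this
    simpa using this
  · intro l hl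
    rw [mem_zlines] at hl
    exact zs_rk_line hl.1 hl.2
  · intro l hl
    exact (mem_zlines.1 hl).1
  · intro l hl v hv
    rw [mem_zlines] at hl
    exact zs_rk_line_insert hl.1 hl.2 hv
  · intro l hl l' hl' hne
    rw [mem_zlines] at hl hl'
    apply le_antisymm (zs_rk_le _)
    have hex : ∃ v ∈ l', v ∉ l := by
      by_contra hno
      push Not at hno
      exact hne (Finset.eq_of_subset_of_card_le hno (by omega)).symm
    obtain ⟨v, hv, hvl⟩ := hex
    rw [← zs_rk_line_insert hl.1 hl.2 hvl]
    apply rk_mono zs_fin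
    exact union_subset_union_right _ (by simpa using hv)
  · intro l hl l' hl' hne v hv hv'
    rw [mem_zlines] at hl hl'
    ext w
    simp only [mem_inter_iff, Finset.mem_coe, mem_singleton_iff]
    constructor
    · rintro ⟨h1, h2⟩
      by_contra hwv
      apply hne
      rw [zline_mem hl.1 hl.2 hv h1 (Ne.symm hwv), zline_mem hl'.1 hl'.2 hv' h2 (Ne.symm hwv)]
    · rintro rfl; exact ⟨hv, hv'⟩

end Ex

end Pool.MP_9f00ad_co.NotFinGen
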