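import Pool.Agent.H792.MC10

set_option autoImplicit false

namespace Pool.MP_9f00ad_co.NotFinGen

open Set
open scoped Matroid

/-- The exchange property for a pair of bases, for all subsets `X` of `B₁`. -/
def StrongExchange {α : Type} (M : Matroid α) (B₁ B₂ : Set α) : Prop :=
  ∃ φ : α → α, BijOn φ B₁ B₂ ∧ ∀ X ⊆ B₁, M.IsBase ((B₁ \ X) ∪ φ '' X)

section Ex
variable {H : Type} [AddCommGroup H] [DecidableEq H] [Fintype H]

lemma zs_isBase_iff (hr : 3 ≤ rk (zs H) univ) (B : Finset H) :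
    (zs H).IsBase B ↔ B.card = 3 ∧ ∑ x ∈ B, x ≠ 0 := by
  have hr3 : rk (zs H) univ = 3 := le_antisymm (zs_rk_le _) hr
  have heR : (zs H).eRank = 3 := by
    rw [← Matroid.eRk_univ_eq, ← ENat.natCast_toNat (eRk_ne_top (M := zs H) zs_fin univ)]
    rw [rk] at hr3
    have : ((zs H).eRk univ).toNat = 3 := by exact_mod_cast hr3
    rw [this]; rfl
  constructor
  · intro hB
    have h1 := hB.encard_eq_eRank
    rw [heR, Set.encard_coe_eq_coe_finsetCard] at h1
    have h2 : B.card = 3 := by exact_mod_cast h1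
    exact ⟨h2, ((zs_indep B).1 hB.indep).2 h2⟩
  · rintro ⟨h1, h2⟩
    have hI : (zs H).Indep B := (zs_indep B).2 ⟨by omega, fun _ => h2⟩
    apply hI.isBase_of_eRk_ge (Finset.finite_toSet _)
    rw [heR, hI.eRk_eq_encard, Set.encard_coe_eq_coe_finsetCard, h1]
    norm_num

lemma eq_of_add_eq_zero' {G : Type} [AddCommGroup G] {a b c : G} (h : c = 0) (e : a - b = c) :
    a = b := by rw [h] at e; exact sub_eq_zero.1 e

lemma sbo_of_enum (hr : 3 ≤ rk (zs H) univ) (p q : Fin 3 → H) (hp : Function.Injective p)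
    (hq : Function.Injective q) (hal : ∀ i j, p i = q j → i = j)
    (hs : p 0 + p 1 + p 2 ≠ 0) (ht : q 0 + q 1 + q 2 ≠ 0)
    (hF : ∀ i, q i - p i ≠ -(p 0 + p 1 + p 2) ∧ q i - p i ≠ q 0 + q 1 + q 2) :
    StrongExchange (zs H) (range p) (range q) := by
  classical
  refine ⟨Function.extend p q id, ⟨?_, ?_, ?_⟩, ?_⟩
  · rintro _ ⟨i, rfl⟩
    rw [hp.extend_apply]; exact ⟨i, rfl⟩
  · rintro _ ⟨i, rfl⟩ _ ⟨j, rfl⟩ h
    rw [hp.extend_apply, hp.extend_apply] at h
    rw [hq h]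
  · rintro _ ⟨i, rfl⟩
    exact ⟨p i, ⟨i, rfl⟩, hp.extend_apply _ _ _⟩
  · intro X hX
    set z : Fin 3 → H := fun i => if p i ∈ X then q i else p i with hz
    have e1 : (range p \ X) ∪ Function.extend p q id '' X = ((Finset.univ.image z : Finset H) : Set H) := by
      ext x
      simp only [mem_union, mem_sdiff, mem_range, mem_image, Finset.coe_image, Finset.coe_univ,
        image_univ]
      constructor
      · rintro (⟨⟨i, rfl⟩, h⟩ | ⟨y, hy, rfl⟩)
        · exact ⟨i, by simp [hz, h]⟩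
        · obtain ⟨i, rfl⟩ := hX hy
          exact ⟨i, by simp [hz, hy, hp.extend_apply]⟩
      · rintro ⟨i, rfl⟩
        by_cases h : p i ∈ X
        · right; exact ⟨p i, h, by simp [hz, h, hp.extend_apply]⟩
        · left; exact ⟨⟨i, by simp [hz, h]⟩, by simp [hz, h]⟩
    have hzinj : Function.Injective z := by
      intro i j hij
      simp only [hz] at hij
      by_cases h1 : p i ∈ X <;> by_cases h2 : p j ∈ X <;> simp only [h1, h2, if_true, if_false] at hij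
      · exact hq hij
      · exact (hal _ _ hij.symm).symm
      · exact hal _ _ hij
      · exact hp hij
    rw [e1, zs_isBase_iff hr]
    constructor
    · rw [Finset.card_image_of_injective _ hzinj]; rfl
    · rw [Finset.sum_image (fun i _ j _ h => hzinj h), Fin.sum_univ_three]
      by_cases h0 : p 0 ∈ X <;> by_cases h1 : p 1 ∈ X <;> by_cases h2 : p 2 ∈ X <;>
        simp only [hz, h0, h1, h2, if_true, if_false] <;> intro h
      · exact ht h
      · exact (hF 2).2 (eq_of_add_eq_zero' (neg_eq_zero.2 h) (by abel))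
      · exact (hF 1).2 (eq_of_add_eq_zero' (neg_eq_zero.2 h) (by abel))
      · exact (hF 0).1 (eq_of_add_eq_zero' h (by abel))
      · exact (hF 0).2 (eq_of_add_eq_zero' (neg_eq_zero.2 h) (by abel))
      · exact (hF 1).1 (eq_of_add_eq_zero' h (by abel))
      · exact (hF 2).1 (eq_of_add_eq_zero' h (by abel))
      · exact hs h

lemma matrix_lemma : ∀ a b c d e f g h i : Bool,
    ((a && b && c) || (d && e && f) || (g && h && i) ||
    (a && d && g) || (b && e && h) || (c && f && i) ||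
    (a && b && d && e) || (a && c && d && f) || (b && c && e && f) ||
    (a && b && g && h) || (a && c && g && i) || (b && c && h && i) ||
    (d && e && g && h) || (d && f && g && i) || (e && f && h && i) ||
    (!a && !e && !i) || (!a && !f && !h) || (!b && !d && !i) || (!b && !f && !g) ||
      (!c && !d && !h) || (!c && !e && !g)) = true := by
  decide

omit [DecidableEq H] [Fintype H] in
lemma row_lemma {u v p a b c : H} (hab : a ≠ b) (hac : a ≠ c) (hbc : b ≠ c) :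
    ¬ ((a - p = u ∨ a - p = v) ∧ (b - p = u ∨ b - p = v) ∧ (c - p = u ∨ c - p = v)) := by
  rintro ⟨h1, h2, h3⟩
  rcases h1 with h1 | h1 <;> rcases h2 with h2 | h2 <;> rcases h3 with h3 | h3
  all_goals first
    | exact hab (sub_left_injective (h1.trans h2.symm))
    | exact hac (sub_left_injective (h1.trans h3.symm))
    | exact hbc (sub_left_injective (h2.trans h3.symm))

omit [DecidableEq H] [Fintype H] in
lemma col_lemma {u v p a b c : H} (hab : a ≠ b) (hac : a ≠ c) (hbc : b ≠ c) :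
    ¬ ((p - a = u ∨ p - a = v) ∧ (p - b = u ∨ p - b = v) ∧ (p - c = u ∨ p - c = v)) := by
  rintro ⟨h1, h2, h3⟩
  rcases h1 with h1 | h1 <;> rcases h2 with h2 | h2 <;> rcases h3 with h3 | h3
  all_goals first
    | exact hab (sub_right_injective (h1.trans h2.symm))
    | exact hac (sub_right_injective (h1.trans h3.symm))
    | exact hbc (sub_right_injective (h2.trans h3.symm))

omit [DecidableEq H] [Fintype H] in
lemma sq_lemma (h2t : ∀ x : H, x + x = 0 → x = 0) {u v p p' a b : H} (hp : p ≠ p') (hab : a ≠ b) :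
    ¬ ((a - p = u ∨ a - p = v) ∧ (b - p = u ∨ b - p = v) ∧ (a - p' = u ∨ a - p' = v) ∧
      (b - p' = u ∨ b - p' = v)) := by
  rintro ⟨h1, h2, h3, h4⟩
  rcases h1 with h1 | h1 <;> rcases h2 with h2 | h2 <;> rcases h3 with h3 | h3 <;>
    rcases h4 with h4 | h4
  all_goals first
    | exact hab (sub_left_injective (h1.trans h2.symm))
    | exact hab (sub_left_injective (h3.trans h4.symm))
    | exact hp (sub_right_injective (h1.trans h3.symm))
    | exact hp (sub_right_injective (h2.trans h4.symm))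
    | (apply hab
       have e1 : a - b = u - v := by rw [← h1, ← h2]; abel
       have e2 : a - b = v - u := by rw [← h3, ← h4]; abel
       have e3 : (a - b) + (a - b) = 0 := by
         nth_rewrite 1 [e1]
         rw [e2]; abel
       exact sub_eq_zero.1 (h2t _ e3))
    | (apply hab
       have e1 : a - b = v - u := by rw [← h1, ← h2]; abel
       have e2 : a - b = u - v := by rw [← h3, ← h4]; abel
       have e3 : (a - b) + (a - b) = 0 := by
         nth_rewrite 1 [e1]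
         rw [e2]; abel
       exact sub_eq_zero.1 (h2t _ e3))

lemma exchange_concl (hr : 3 ≤ rk (zs H) univ)
    (p₀ p₁ p₂ : H) (hp01 : p₀ ≠ p₁) (hp02 : p₀ ≠ p₂) (hp12 : p₁ ≠ p₂)
    (hs : p₀ + p₁ + p₂ ≠ 0) (r₀ r₁ r₂ : H)
    (h01 : r₀ ≠ r₁) (h02 : r₀ ≠ r₂) (h12 : r₁ ≠ r₂) (ht : r₀ + r₁ + r₂ ≠ 0)
    (a01 : p₀ ≠ r₁) (a02 : p₀ ≠ r₂) (a10 : p₁ ≠ r₀) (a12 : p₁ ≠ r₂) (a20 : p₂ ≠ r₀)
    (a21 : p₂ ≠ r₁)
    (k0 : ¬ (r₀ - p₀ = -(p₀ + p₁ + p₂) ∨ r₀ - p₀ = r₀ + r₁ + r₂))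
    (k1 : ¬ (r₁ - p₁ = -(p₀ + p₁ + p₂) ∨ r₁ - p₁ = r₀ + r₁ + r₂))
    (k2 : ¬ (r₂ - p₂ = -(p₀ + p₁ + p₂) ∨ r₂ - p₂ = r₀ + r₁ + r₂)) :
    StrongExchange (zs H) {p₀, p₁, p₂} {r₀, r₁, r₂} := by
  push Not at k0 k1 k2
  have e1 : ({p₀, p₁, p₂} : Set H) = range ![p₀, p₁, p₂] := by
    ext x
    simp only [mem_insert_iff, mem_singleton_iff, mem_range]
    constructor
    · rintro (rfl | rfl | rfl)
      · exact ⟨0, rfl⟩
      · exact ⟨1, rfl⟩
      · exact ⟨2, rfl⟩
    · rintro ⟨i, rfl⟩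
      fin_cases i <;> simp
  have e2 : ({r₀, r₁, r₂} : Set H) = range ![r₀, r₁, r₂] := by
    ext x
    simp only [mem_insert_iff, mem_singleton_iff, mem_range]
    constructor
    · rintro (rfl | rfl | rfl)
      · exact ⟨0, rfl⟩
      · exact ⟨1, rfl⟩
      · exact ⟨2, rfl⟩
    · rintro ⟨i, rfl⟩
      fin_cases i <;> simp
  rw [e1, e2]
  apply sbo_of_enum hr
  · intro i j hij
    fin_cases i <;> fin_cases j <;> simp at hij ⊢ <;>
      first | exact hp01 hij | exact hp02 hij | exact hp12 hij | exact hp01 hij.symm |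
        exact hp02 hij.symm | exact hp12 hij.symm
  · intro i j hij
    fin_cases i <;> fin_cases j <;> simp at hij ⊢ <;>
      first | exact h01 hij | exact h02 hij | exact h12 hij | exact h01 hij.symm |
        exact h02 hij.symm | exact h12 hij.symm
  · intro i j hij
    fin_cases i <;> fin_cases j <;> simp at hij ⊢ <;>
      first | exact a01 hij | exact a02 hij | exact a10 hij | exact a12 hij |
        exact a20 hij | exact a21 hij
  · exact hs
  · exact ht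
  · intro i
    fin_cases i
    · exact k0
    · exact k1
    · exact k2

lemma exchange_disjoint (hr : 3 ≤ rk (zs H) univ) (h2t : ∀ x : H, x + x = 0 → x = 0)
    (p₀ p₁ p₂ q₀ q₁ q₂ : H) (hp01 : p₀ ≠ p₁) (hp02 : p₀ ≠ p₂) (hp12 : p₁ ≠ p₂)
    (hq01 : q₀ ≠ q₁) (hq02 : q₀ ≠ q₂) (hq12 : q₁ ≠ q₂)
    (hs : p₀ + p₁ + p₂ ≠ 0) (ht : q₀ + q₁ + q₂ ≠ 0)
    (a00 : p₀ ≠ q₀) (a01 : p₀ ≠ q₁) (a02 : p₀ ≠ q₂) (a10 : p₁ ≠ q₀) (a11 : p₁ ≠ q₁)
    (a12 : p₁ ≠ q₂) (a20 : p₂ ≠ q₀) (a21 : p₂ ≠ q₁) (a22 : p₂ ≠ q₂) :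
    StrongExchange (zs H) {p₀, p₁, p₂} {q₀, q₁, q₂} := by
  obtain ⟨u, hu⟩ : ∃ u, u = -(p₀ + p₁ + p₂) := ⟨_, rfl⟩
  obtain ⟨v, hv⟩ : ∃ v, v = q₀ + q₁ + q₂ := ⟨_, rfl⟩
  have hm := matrix_lemma (decide (q₀ - p₀ = u ∨ q₀ - p₀ = v)) (decide (q₁ - p₀ = u ∨ q₁ - p₀ = v))
    (decide (q₂ - p₀ = u ∨ q₂ - p₀ = v)) (decide (q₀ - p₁ = u ∨ q₀ - p₁ = v))
    (decide (q₁ - p₁ = u ∨ q₁ - p₁ = v)) (decide (q₂ - p₁ = u ∨ q₂ - p₁ = v))
    (decide (q₀ - p₂ = u ∨ q₀ - p₂ = v)) (decide (q₁ - p₂ = u ∨ q₁ - p₂ = v))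
    (decide (q₂ - p₂ = u ∨ q₂ - p₂ = v))
  simp only [Bool.or_eq_true, Bool.and_eq_true, Bool.not_eq_true', decide_eq_true_eq,
    decide_eq_false_iff_not, and_assoc, or_assoc] at hm
  have v02 : q₀ + q₂ + q₁ = v := by rw [hv]; abel
  have v10 : q₁ + q₀ + q₂ = v := by rw [hv]; abel
  have v12 : q₁ + q₂ + q₀ = v := by rw [hv]; abel
  have v20 : q₂ + q₀ + q₁ = v := by rw [hv]; abel
  have v21 : q₂ + q₁ + q₀ = v := by rw [hv]; abel
  have htv : v ≠ 0 := by rw [hv]; exact ht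
  have s02 : ({q₀, q₂, q₁} : Set H) = {q₀, q₁, q₂} := by rw [pair_comm q₂ q₁]
  have s10 : ({q₁, q₀, q₂} : Set H) = {q₀, q₁, q₂} := by rw [insert_comm]
  have s12 : ({q₁, q₂, q₀} : Set H) = {q₀, q₁, q₂} := by
    rw [pair_comm q₂ q₀, insert_comm]
  have s20 : ({q₂, q₀, q₁} : Set H) = {q₀, q₁, q₂} := by
    rw [insert_comm, pair_comm q₂ q₁]
  have s21 : ({q₂, q₁, q₀} : Set H) = {q₀, q₁, q₂} := by
    rw [insert_comm, pair_comm q₂ q₀, insert_comm]
  rcases hm with h | h | h | h | h | h | h | h | h | h | h | h | h | h | h | h | h | h | h | h | h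
  · exact absurd h (row_lemma hq01 hq02 hq12)
  · exact absurd h (row_lemma hq01 hq02 hq12)
  · exact absurd h (row_lemma hq01 hq02 hq12)
  · exact absurd h (col_lemma hp01 hp02 hp12)
  · exact absurd h (col_lemma hp01 hp02 hp12)
  · exact absurd h (col_lemma hp01 hp02 hp12)
  · exact absurd h (sq_lemma h2t hp01 hq01)
  · exact absurd h (sq_lemma h2t hp01 hq02)
  · exact absurd h (sq_lemma h2t hp01 hq12)
  · exact absurd h (sq_lemma h2t hp02 hq01)
  · exact absurd h (sq_lemma h2t hp02 hq02)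
  · exact absurd h (sq_lemma h2t hp02 hq12)
  · exact absurd h (sq_lemma h2t hp12 hq01)
  · exact absurd h (sq_lemma h2t hp12 hq02)
  · exact absurd h (sq_lemma h2t hp12 hq12)
  · exact exchange_concl hr p₀ p₁ p₂ hp01 hp02 hp12 hs q₀ q₁ q₂ hq01 hq02 hq12 ht
      a01 a02 a10 a12 a20 a21 (by rw [← hu, ← hv]; exact h.1) (by rw [← hu, ← hv]; exact h.2.1)
      (by rw [← hu, ← hv]; exact h.2.2)
  · rw [← s02]
    exact exchange_concl hr p₀ p₁ p₂ hp01 hp02 hp12 hs q₀ q₂ q₁ hq02 hq01 hq12.symm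
      (by rw [v02]; exact htv) a02 a01 a10 a11 a20 a22 (by rw [← hu, v02]; exact h.1)
      (by rw [← hu, v02]; exact h.2.1) (by rw [← hu, v02]; exact h.2.2)
  · rw [← s10]
    exact exchange_concl hr p₀ p₁ p₂ hp01 hp02 hp12 hs q₁ q₀ q₂ hq01.symm hq12 hq02
      (by rw [v10]; exact htv) a00 a02 a11 a12 a21 a20 (by rw [← hu, v10]; exact h.1)
      (by rw [← hu, v10]; exact h.2.1) (by rw [← hu, v10]; exact h.2.2)
  · rw [← s12]
    exact exchange_concl hr p₀ p₁ p₂ hp01 hp02 hp12 hs q₁ q₂ q₀ hq12 hq01.symm hq02.symm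
      (by rw [v12]; exact htv) a02 a00 a11 a10 a21 a22 (by rw [← hu, v12]; exact h.1)
      (by rw [← hu, v12]; exact h.2.1) (by rw [← hu, v12]; exact h.2.2)
  · rw [← s20]
    exact exchange_concl hr p₀ p₁ p₂ hp01 hp02 hp12 hs q₂ q₀ q₁ hq02.symm hq12.symm hq01
      (by rw [v20]; exact htv) a00 a01 a12 a11 a22 a20 (by rw [← hu, v20]; exact h.1)
      (by rw [← hu, v20]; exact h.2.1) (by rw [← hu, v20]; exact h.2.2)
  · rw [← s21]
    exact exchange_concl hr p₀ p₁ p₂ hp01 hp02 hp12 hs q₂ q₁ q₀ hq12.symm hq02.symm hq01.symm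
      (by rw [v21]; exact htv) a01 a00 a12 a10 a22 a21 (by rw [← hu, v21]; exact h.1)
      (by rw [← hu, v21]; exact h.2.1) (by rw [← hu, v21]; exact h.2.2)

end Ex

end Pool.MP_9f00ad_co.NotFinGen
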