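import Pool.Agent.H792.MC11

set_option autoImplicit false

namespace Pool.MP_9f00ad_co.NotFinGen

open Set
open scoped Matroid

section Ex
variable {H : Type} [AddCommGroup H] [DecidableEq H] [Fintype H]

lemma exchange_two (hr : 3 ≤ rk (zs H) univ) (z p₁ p₂ q₁ q₂ : H) (hz1 : z ≠ p₁) (hz2 : z ≠ p₂)
    (hp12 : p₁ ≠ p₂) (hzq1 : z ≠ q₁) (hzq2 : z ≠ q₂) (hq12 : q₁ ≠ q₂)
    (hs : z + p₁ + p₂ ≠ 0) (ht : z + q₁ + q₂ ≠ 0)
    (a11 : p₁ ≠ q₁) (a12 : p₁ ≠ q₂) (a21 : p₂ ≠ q₁) (a22 : p₂ ≠ q₂) :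
    StrongExchange (zs H) {z, p₁, p₂} {z, q₁, q₂} := by
  have s21 : ({z, q₂, q₁} : Set H) = {z, q₁, q₂} := by rw [pair_comm q₂ q₁]
  have ht' : z + q₂ + q₁ ≠ 0 := by
    intro h; apply ht; rw [← h]; abel
  by_cases hA : z + q₁ + p₂ = 0 ∨ z + q₂ + p₁ = 0
  · have hB : ¬ (z + q₂ + p₂ = 0 ∨ z + q₁ + p₁ = 0) := by
      rintro hB
      rcases hA with h1 | h1 <;> rcases hB with h2 | h2
      · apply hq12
        have : z + q₁ + p₂ - (z + q₂ + p₂) = 0 := by rw [h1, h2]; simp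
        have e : q₁ - q₂ = z + q₁ + p₂ - (z + q₂ + p₂) := by abel
        rw [this] at e; exact sub_eq_zero.1 e
      · apply hp12
        have : z + q₁ + p₁ - (z + q₁ + p₂) = 0 := by rw [h1, h2]; simp
        have e : p₁ - p₂ = z + q₁ + p₁ - (z + q₁ + p₂) := by abel
        rw [this] at e; exact sub_eq_zero.1 e
      · apply hp12
        have : z + q₂ + p₁ - (z + q₂ + p₂) = 0 := by rw [h1, h2]; simp
        have e : p₁ - p₂ = z + q₂ + p₁ - (z + q₂ + p₂) := by abel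
        rw [this] at e; exact sub_eq_zero.1 e
      · apply hq12
        have : z + q₁ + p₁ - (z + q₂ + p₁) = 0 := by rw [h1, h2]; simp
        have e : q₁ - q₂ = z + q₁ + p₁ - (z + q₂ + p₁) := by abel
        rw [this] at e; exact sub_eq_zero.1 e
    push Not at hB
    rw [← s21]
    apply exchange_concl hr z p₁ p₂ hz1 hz2 hp12 hs z q₂ q₁ hzq2 hzq1 hq12.symm ht' hzq2 hzq1
      hz1.symm a11 hz2.symm a22
    · rintro (h | h)
      · apply hs
        have e : z + p₁ + p₂ = -(-(z + p₁ + p₂)) := by abel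
        rw [e, ← h]; simp
      · apply ht'
        rw [← h]; simp
    · rintro (h | h)
      · apply hB.1
        have e : z + q₂ + p₂ = (q₂ - p₁) - (-(z + p₁ + p₂)) := by abel
        rw [e, h]; simp
      · apply hB.2
        have e : z + q₁ + p₁ = (z + q₂ + q₁) - (q₂ - p₁) := by abel
        rw [e, h]; simp
    · rintro (h | h)
      · apply hB.2
        have e : z + q₁ + p₁ = (q₁ - p₂) - (-(z + p₁ + p₂)) := by abel
        rw [e, h]; simp
      · apply hB.1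
        have e : z + q₂ + p₂ = (z + q₂ + q₁) - (q₁ - p₂) := by abel
        rw [e, h]; simp
  · push Not at hA
    apply exchange_concl hr z p₁ p₂ hz1 hz2 hp12 hs z q₁ q₂ hzq1 hzq2 hq12 ht hzq1 hzq2
      hz1.symm a12 hz2.symm a21
    · rintro (h | h)
      · apply hs
        have e : z + p₁ + p₂ = -(-(z + p₁ + p₂)) := by abel
        rw [e, ← h]; simp
      · apply ht
        rw [← h]; simp
    · rintro (h | h)
      · apply hA.1
        have e : z + q₁ + p₂ = (q₁ - p₁) - (-(z + p₁ + p₂)) := by abel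
        rw [e, h]; simp
      · apply hA.2
        have e : z + q₂ + p₁ = (z + q₁ + q₂) - (q₁ - p₁) := by abel
        rw [e, h]; simp
    · rintro (h | h)
      · apply hA.2
        have e : z + q₂ + p₁ = (q₂ - p₂) - (-(z + p₁ + p₂)) := by abel
        rw [e, h]; simp
      · apply hA.1
        have e : z + q₁ + p₂ = (z + q₁ + q₂) - (q₂ - p₂) := by abel
        rw [e, h]; simp

lemma exchange_one (hr : 3 ≤ rk (zs H) univ) (z w p q : H) (hzw : z ≠ w) (hzp : z ≠ p)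
    (hwp : w ≠ p) (hzq : z ≠ q) (hwq : w ≠ q)
    (hs : z + w + p ≠ 0) (ht : z + w + q ≠ 0) :
    StrongExchange (zs H) {z, w, p} {z, w, q} := by
  have h0 : ∀ r : H, ¬ (r - r = -(z + w + p) ∨ r - r = z + w + q) := by
    intro r
    rintro (h | h)
    · apply hs
      have e : z + w + p = -(-(z + w + p)) := by abel
      rw [e, ← h]; simp
    · apply ht; rw [← h]; simp
  apply exchange_concl hr z w p hzw hzp hwp hs z w q hzw hzq hwq ht hzw hzq hzw.symm hwq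
    hzp.symm hwp.symm (h0 z) (h0 w)
  rintro (h | h)
  · apply ht
    have e : z + w + q = (q - p) - (-(z + w + p)) := by abel
    rw [e, h]; simp
  · apply hs
    have e : z + w + p = (z + w + q) - (q - p) := by abel
    rw [e, h]; simp

lemma sum_three {a b c : H} (hab : a ≠ b) (hac : a ≠ c) (hbc : b ≠ c) :
    ∑ x ∈ ({a, b, c} : Finset H), x = a + b + c := by
  rw [Finset.sum_insert (by simp [hab, hac]), Finset.sum_pair hbc, add_assoc]

/-- The zero-sum matroid of a finite abelian group without elements of order two is strongly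
base-orderable. -/
theorem zs_sbo (hr : 3 ≤ rk (zs H) univ) (h2t : ∀ x : H, x + x = 0 → x = 0) (B₁ B₂ : Set H)
    (h₁ : (zs H).IsBase B₁) (h₂ : (zs H).IsBase B₂) : StrongExchange (zs H) B₁ B₂ := by
  classical
  obtain ⟨b₁, rfl⟩ : ∃ b : Finset H, (b : Set H) = B₁ := ⟨B₁.toFinset, by simp⟩
  obtain ⟨b₂, rfl⟩ : ∃ b : Finset H, (b : Set H) = B₂ := ⟨B₂.toFinset, by simp⟩
  have k₁ := (zs_isBase_iff hr b₁).1 h₁
  have k₂ := (zs_isBase_iff hr b₂).1 h₂
  have c1 : (b₁ \ b₂).card + (b₁ ∩ b₂).card = 3 := by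
    rw [Finset.card_sdiff_add_card_inter, k₁.1]
  have c2 : (b₂ \ b₁).card + (b₁ ∩ b₂).card = 3 := by
    rw [Finset.inter_comm, Finset.card_sdiff_add_card_inter, k₂.1]
  have d1 : b₁ = (b₁ ∩ b₂) ∪ (b₁ \ b₂) := by ext; simp; tauto
  have d2 : b₂ = (b₁ ∩ b₂) ∪ (b₂ \ b₁) := by ext; simp; tauto
  have hdis : ∀ a ∈ b₁ \ b₂, ∀ b ∈ b₂ \ b₁, a ≠ b := by
    rintro a ha b hb rfl
    simp only [Finset.mem_sdiff] at ha hb
    exact ha.2 hb.1
  have hdi1 : ∀ a ∈ b₁ ∩ b₂, ∀ b ∈ b₁ \ b₂, a ≠ b := by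
    rintro a ha b hb rfl
    simp only [Finset.mem_sdiff, Finset.mem_inter] at ha hb
    exact hb.2 ha.2
  have hdi2 : ∀ a ∈ b₁ ∩ b₂, ∀ b ∈ b₂ \ b₁, a ≠ b := by
    rintro a ha b hb rfl
    simp only [Finset.mem_sdiff, Finset.mem_inter] at ha hb
    exact hb.2 ha.1
  have hcases : (b₁ \ b₂).card = 0 ∨ (b₁ \ b₂).card = 1 ∨ (b₁ \ b₂).card = 2 ∨
    (b₁ \ b₂).card = 3 := by omega
  rcases hcases with hc | hc | hc | hc
  · -- equal bases
    have e1 : b₁ ⊆ b₂ := by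
      rw [← Finset.sdiff_eq_empty_iff_subset]; exact Finset.card_eq_zero.1 hc
    have e2 : b₁ = b₂ := Finset.eq_of_subset_of_card_le e1 (by omega)
    subst e2
    refine ⟨id, bijOn_id _, fun X hX => ?_⟩
    rw [image_id, sdiff_union_of_subset hX]
    exact h₁
  · obtain ⟨p, hp⟩ := Finset.card_eq_one.1 hc
    obtain ⟨q, hq⟩ := Finset.card_eq_one.1 (show (b₂ \ b₁).card = 1 by omega)
    obtain ⟨z, w, hzw, hI⟩ := Finset.card_eq_two.1 (show (b₁ ∩ b₂).card = 2 by omega)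
    rw [hp] at hdis hdi1
    rw [hq] at hdis hdi2
    rw [hI] at hdi1 hdi2
    simp only [Finset.mem_insert, Finset.mem_singleton, forall_eq_or_imp, forall_eq] at hdis hdi1 hdi2
    have f1 : b₁ = {z, w, p} := by rw [d1, hI, hp]; ext; simp <;> tauto
    have f2 : b₂ = {z, w, q} := by rw [d2, hI, hq]; ext; simp <;> tauto
    have s1 := k₁.2
    have s2 := k₂.2
    rw [f1, sum_three hzw hdi1.1 hdi1.2] at s1
    rw [f2, sum_three hzw hdi2.1 hdi2.2] at s2
    rw [f1, f2]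
    push_cast
    exact exchange_one hr z w p q hzw hdi1.1 hdi1.2 hdi2.1 hdi2.2 s1 s2
  · obtain ⟨p₁, p₂, hp12, hp⟩ := Finset.card_eq_two.1 hc
    obtain ⟨q₁, q₂, hq12, hq⟩ := Finset.card_eq_two.1 (show (b₂ \ b₁).card = 2 by omega)
    obtain ⟨z, hI⟩ := Finset.card_eq_one.1 (show (b₁ ∩ b₂).card = 1 by omega)
    rw [hp] at hdis hdi1
    rw [hq] at hdis hdi2
    rw [hI] at hdi1 hdi2
    simp only [Finset.mem_insert, Finset.mem_singleton, forall_eq_or_imp, forall_eq] at hdis hdi1 hdi2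
    have f1 : b₁ = {z, p₁, p₂} := by rw [d1, hI, hp]; ext; simp <;> tauto
    have f2 : b₂ = {z, q₁, q₂} := by rw [d2, hI, hq]; ext; simp <;> tauto
    have s1 := k₁.2
    have s2 := k₂.2
    rw [f1, sum_three hdi1.1 hdi1.2 hp12] at s1
    rw [f2, sum_three hdi2.1 hdi2.2 hq12] at s2
    rw [f1, f2]
    push_cast
    exact exchange_two hr z p₁ p₂ q₁ q₂ hdi1.1 hdi1.2 hp12 hdi2.1 hdi2.2 hq12 s1 s2
      hdis.1.1 hdis.1.2 hdis.2.1 hdis.2.2
  · obtain ⟨p₀, p₁, p₂, hp01, hp02, hp12, hp⟩ := Finset.card_eq_three.1 hc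
    obtain ⟨q₀, q₁, q₂, hq01, hq02, hq12, hq⟩ :=
      Finset.card_eq_three.1 (show (b₂ \ b₁).card = 3 by omega)
    have hI : b₁ ∩ b₂ = ∅ := Finset.card_eq_zero.1 (by omega)
    rw [hp, hq] at hdis
    simp only [Finset.mem_insert, Finset.mem_singleton, forall_eq_or_imp, forall_eq] at hdis
    have f1 : b₁ = {p₀, p₁, p₂} := by rw [d1, hI, hp]; simp
    have f2 : b₂ = {q₀, q₁, q₂} := by rw [d2, hI, hq]; simp
    have s1 := k₁.2
    have s2 := k₂.2
    rw [f1, sum_three hp01 hp02 hp12] at s1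
    rw [f2, sum_three hq01 hq02 hq12] at s2
    rw [f1, f2]
    push_cast
    exact exchange_disjoint hr h2t p₀ p₁ p₂ q₀ q₁ q₂ hp01 hp02 hp12 hq01 hq02 hq12 s1 s2
      hdis.1.1 hdis.1.2.1 hdis.1.2.2 hdis.2.1.1 hdis.2.1.2.1 hdis.2.1.2.2 hdis.2.2.1
      hdis.2.2.2.1 hdis.2.2.2.2

end Ex

end Pool.MP_9f00ad_co.NotFinGen
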