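import Pool.Agent.H792.MC12

set_option autoImplicit false

namespace Pool.MP_9f00ad_co.NotFinGen

open Set
open scoped Matroid

section Count

lemma no_two_torsion {H : Type} [AddCommGroup H] [Fintype H] (hodd : Odd (Fintype.card H)) (x : H)
    (hx : x + x = 0) : x = 0 := by
  obtain ⟨j, hj⟩ := hodd
  have h1 : Fintype.card H • x = 0 := card_nsmul_eq_zero
  rw [hj, add_smul, mul_comm, mul_smul, two_smul, hx] at h1
  simpa using h1

lemma three_le_rk (m : ℕ) [NeZero m] (hm : 2 ≤ m) : 3 ≤ rk (zs (ZMod 3 × ZMod m)) univ := by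
  have hne : (1 : ZMod m) ≠ 0 := by
    have : Fact (1 < m) := ⟨by omega⟩
    exact one_ne_zero
  have h1 : ((0 : ZMod 3), (0 : ZMod m)) ≠ (1, 0) := by
    intro h; exact (show (0 : ZMod 3) ≠ 1 by decide) (congrArg Prod.fst h)
  have h2 : ((0 : ZMod 3), (0 : ZMod m)) ≠ (0, 1) := by
    intro h; exact hne (congrArg Prod.snd h).symm
  have h3 : ((1 : ZMod 3), (0 : ZMod m)) ≠ (0, 1) := by
    intro h; exact (show (1 : ZMod 3) ≠ 0 by decide) (congrArg Prod.fst h)
  have hc : ({((0 : ZMod 3), (0 : ZMod m)), (1, 0), (0, 1)} : Finset (ZMod 3 × ZMod m)).card = 3 :=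
    Finset.card_eq_three.2 ⟨_, _, _, h1, h2, h3, rfl⟩
  have hI : ZInd ({((0 : ZMod 3), (0 : ZMod m)), (1, 0), (0, 1)} : Finset (ZMod 3 × ZMod m)) := by
    refine ⟨by omega, fun _ => ?_⟩
    rw [sum_three h1 h2 h3]
    intro h
    exact hne (by simpa using congrArg Prod.snd h)
  have h4 := zs_rk_of_indep hI
  rw [hc] at h4
  have h5 := rk_mono (M := zs (ZMod 3 × ZMod m)) zs_fin (subset_univ
    ((({((0 : ZMod 3), (0 : ZMod m)), (1, 0), (0, 1)} : Finset (ZMod 3 × ZMod m)) :
      Set (ZMod 3 × ZMod m))))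
  rw [h4] at h5
  exact_mod_cast h5

lemma sq_le_zlines (m : ℕ) [NeZero m] : m * m ≤ (zlines (ZMod 3 × ZMod m)).card := by
  classical
  let F : ZMod m × ZMod m → Finset (ZMod 3 × ZMod m) := fun p =>
    {(0, p.1), (1, p.2), (2, -p.1 - p.2)}
  have d1 : ∀ p : ZMod m × ZMod m, ((0 : ZMod 3), p.1) ≠ (1, p.2) := by
    intro p h; exact (show (0 : ZMod 3) ≠ 1 by decide) (congrArg Prod.fst h)
  have d2 : ∀ p : ZMod m × ZMod m, ((0 : ZMod 3), p.1) ≠ (2, -p.1 - p.2) := by
    intro p h; exact (show (0 : ZMod 3) ≠ 2 by decide) (congrArg Prod.fst h)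
  have d3 : ∀ p : ZMod m × ZMod m, ((1 : ZMod 3), p.2) ≠ (2, -p.1 - p.2) := by
    intro p h; exact (show (1 : ZMod 3) ≠ 2 by decide) (congrArg Prod.fst h)
  have hF : ∀ p, F p ∈ zlines (ZMod 3 × ZMod m) := by
    intro p
    rw [mem_zlines]
    refine ⟨Finset.card_eq_three.2 ⟨_, _, _, d1 p, d2 p, d3 p, rfl⟩, ?_⟩
    show ∑ x ∈ ({(0, p.1), (1, p.2), (2, -p.1 - p.2)} : Finset (ZMod 3 × ZMod m)), x = 0
    rw [sum_three (d1 p) (d2 p) (d3 p)]
    refine Prod.ext ?_ ?_
    · show (0 : ZMod 3) + 1 + 2 = 0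
      decide
    · show p.1 + p.2 + (-p.1 - p.2) = 0
      ring
  have hinj : Function.Injective F := by
    intro p q hpq
    have a1 : ((0 : ZMod 3), p.1) ∈ F q := by
      rw [← hpq]; simp [F]
    have a2 : ((1 : ZMod 3), p.2) ∈ F q := by
      rw [← hpq]; simp [F]
    have z01 : (0 : ZMod 3) ≠ 1 := by decide
    have z02 : (0 : ZMod 3) ≠ 2 := by decide
    have z12 : (1 : ZMod 3) ≠ 2 := by decide
    simp only [F, Finset.mem_insert, Finset.mem_singleton, Prod.mk.injEq] at a1 a2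
    refine Prod.ext ?_ ?_
    · rcases a1 with h | h | h
      · exact h.2
      · exact absurd h.1 z01
      · exact absurd h.1 z02
    · rcases a2 with h | h | h
      · exact absurd h.1.symm z01
      · exact h.2
      · exact absurd h.1 z12
  calc m * m = (Finset.univ : Finset (ZMod m × ZMod m)).card := by
        rw [Finset.card_univ, Fintype.card_prod, ZMod.card]
    _ = (Finset.univ.image F).card := (Finset.card_image_of_injective _ hinj).symm
    _ ≤ (zlines (ZMod 3 × ZMod m)).card := by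
        apply Finset.card_le_card
        intro l hl
        rw [Finset.mem_image] at hl
        obtain ⟨p, -, rfl⟩ := hl
        exact hF p

/-- For every `c ≥ 2` there is a strongly base-orderable matroid of rank 3 which is not
expressible by submodular functions of at most `c` coordinates. -/
theorem exists_not_expr (c : ℕ) (hc : 2 ≤ c) :
    ∃ (m : ℕ) (_ : NeZero m), ¬ Expr c (zs (ZMod 3 × ZMod m)) ∧
      3 ≤ rk (zs (ZMod 3 × ZMod m)) univ ∧
      ∀ B₁ B₂ : Set (ZMod 3 × ZMod m), (zs (ZMod 3 × ZMod m)).IsBase B₁ →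
        (zs (ZMod 3 × ZMod m)).IsBase B₂ → StrongExchange (zs (ZMod 3 × ZMod m)) B₁ B₂ := by
  have hm0 : NeZero (6 * c + 1) := ⟨by omega⟩
  refine ⟨6 * c + 1, hm0, ?_, three_le_rk _ (by omega), ?_⟩
  · intro h
    have h1 := zlines_le h
    have h2 := sq_le_zlines (6 * c + 1)
    rw [Fintype.card_prod, ZMod.card, ZMod.card] at h1
    have h3 : (6 * c + 1) * (6 * c + 1) ≤ c * (3 * (6 * c + 1)) := h2.trans h1
    nlinarith
  · intro B₁ B₂ h₁ h₂
    refine zs_sbo (three_le_rk _ (by omega)) (fun x hx => no_two_torsion ?_ x hx) B₁ B₂ h₁ h₂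
    rw [Fintype.card_prod, ZMod.card, ZMod.card]
    exact ⟨9 * c + 1, by ring⟩

end Count

/-! ### the generated classes -/

/-- All finite matroids form a complete class. -/
theorem isComplete_finite : IsComplete (fun _ M => M.E.Finite) where
  finite := fun M h => h
  iso := fun M N h hMN => by
    obtain ⟨e, -⟩ := hMN
    have := h.to_subtype
    have : Finite N.E := Finite.of_equiv _ e
    exact Set.toFinite _
  restrict := fun M R hR h => h.subset hR
  contract := fun M C hC h => h.subset (by simp)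
  dual := fun M h => h
  sum := fun M N h h' => sum_ground_finite h h'
  truncate := fun M N k hk h hN => by rw [hN.1]; exact h
  induce := fun adj M₀ N A h hN => Set.toFinite _

/-- `Generated α M` is a complete class containing all members of the family (and, by definition,
it is contained in every such class): it is the smallest complete class that contains the
family. -/
theorem isComplete_generated {k : ℕ} (α : Fin k → Type) (M : ∀ i, Matroid (α i))
    (hM : ∀ i, (M i).E.Finite) :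
    IsComplete (Generated α M) ∧ ∀ i, Generated α M (α i) (M i) := by
  refine ⟨?_, fun i 𝒟 h𝒟 h => h i⟩
  exact
  { finite := fun M' h => h _ isComplete_finite hM
    iso := fun M' N' h hN 𝒟 h𝒟 hm => h𝒟.iso M' N' (h 𝒟 h𝒟 hm) hN
    restrict := fun M' R hR h 𝒟 h𝒟 hm => h𝒟.restrict M' R hR (h 𝒟 h𝒟 hm)
    contract := fun M' C hC h 𝒟 h𝒟 hm => h𝒟.contract M' C hC (h 𝒟 h𝒟 hm)
    dual := fun M' h 𝒟 h𝒟 hm => h𝒟.dual M' (h 𝒟 h𝒟 hm)
    sum := fun M' N' h h' 𝒟 h𝒟 hm => h𝒟.sum M' N' (h 𝒟 h𝒟 hm) (h' 𝒟 h𝒟 hm)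
    truncate := fun M' N' k hk h hN 𝒟 h𝒟 hm => h𝒟.truncate M' N' k hk (h 𝒟 h𝒟 hm) hN
    induce := fun adj M₀ N' A h hN 𝒟 h𝒟 hm => h𝒟.induce adj M₀ N' A (h 𝒟 h𝒟 hm) hN }

lemma sbo_bo {α : Type} {M : Matroid α} (h : SBO α M) : BO α M :=
  ⟨h.1, fun B₁ B₂ h₁ h₂ => by
    obtain ⟨φ, hφ, h3⟩ := h.2 B₁ B₂ h₁ h₂
    exact ⟨φ, hφ, fun X hX _ => h3 X hX⟩⟩

/-- For every finite family of finite matroids there is a strongly base-orderable matroid outside
the complete class they generate. -/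
theorem exists_sbo_not_generated {k : ℕ} (α : Fin k → Type) (M : ∀ i, Matroid (α i))
    (hM : ∀ i, (M i).E.Finite) :
    ∃ (β : Type) (N : Matroid β), SBO β N ∧ ¬ Generated α M β N := by
  obtain ⟨m, hm, h1, h2, h3⟩ := exists_not_expr (2 + ∑ i, (M i).E.ncard) (by omega)
  refine ⟨ZMod 3 × ZMod m, zs (ZMod 3 × ZMod m), ⟨zs_fin, fun B₁ B₂ hB₁ hB₂ => ?_⟩, fun h => ?_⟩
  · exact h3 B₁ B₂ hB₁ hB₂
  · refine h1 (h _ (isComplete_expr (c := 2 + ∑ i, (M i).E.ncard) (by omega)) fun i => ?_).2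
    refine ⟨hM i, expr_of_small (hM i) ?_⟩
    have := Finset.single_le_sum (f := fun i => (M i).E.ncard) (fun i _ => Nat.zero_le _)
      (Finset.mem_univ i)
    have h5 : (M i).E.ncard ≤ ∑ i, (M i).E.ncard := this
    omega

end Pool.MP_9f00ad_co.NotFinGen
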