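import Pool.Agent.H792.MC1

set_option autoImplicit false

namespace Pool.MP_9f00ad_co.NotFinGen

open Set
open scoped Matroid

/-! ### expressible matroids -/

/-- The rank function of `M` is a partial minimum of a sum of submodular functions, each of which
depends on at most `c` coordinates. -/
def Expr (c : ℕ) {α : Type} (M : Matroid α) : Prop :=
  ∃ (W : Type) (f : Set (α ⊕ W) → ℤ), f ∈ Dec c (α ⊕ W) ∧
    (∀ X, rk M (Sum.inl ⁻¹' X) ≤ f X) ∧
    ∀ A : Set α, ∃ X, Sum.inl ⁻¹' X = A ∧ f X = rk M A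

lemma expr_of_small {c : ℕ} {α : Type} {M : Matroid α} (h : M.E.Finite) (hc : M.E.ncard ≤ c) :
    Expr c M := by
  classical
  refine ⟨Empty, fun X => rk M (Sum.inl ⁻¹' X), ?_, fun X => le_refl _, fun A => ⟨Sum.inl '' A, ?_, ?_⟩⟩
  · apply AddSubmonoid.subset_closure
    refine ⟨fun X Y => ?_, h.toFinset.image Sum.inl, ?_, fun X => ?_⟩
    · exact rk_submod h _ _
    · refine Finset.card_image_le.trans ?_
      rw [← Set.ncard_eq_toFinset_card M.E h]
      exact hc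
    · show rk M (Sum.inl ⁻¹' (X ∩ _)) = rk M (Sum.inl ⁻¹' X)
      rw [← rk_inter_ground M (Sum.inl ⁻¹' X), ← rk_inter_ground]
      congr 1
      ext a
      simp
  · exact preimage_image_eq _ Sum.inl_injective
  · show rk M (Sum.inl ⁻¹' (Sum.inl '' A)) = rk M A
    rw [preimage_image_eq _ Sum.inl_injective]

lemma rk_restrict {α : Type} (M : Matroid α) (R A : Set α) :
    rk (M ↾ R) A = rk M (A ∩ R) := by
  simp [rk, M.restrict_eRk_eq' R A]

lemma Expr.restrict {c : ℕ} {α : Type} {M : Matroid α} (hM : Expr c M) (R : Set α) :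
    Expr c (M ↾ R) := by
  obtain ⟨W, f, hf, h1, h2⟩ := hM
  set S : Set (α ⊕ W) := {u | ∀ a, u = Sum.inl a → a ∈ R} with hS
  refine ⟨W, fun X => f (X ∩ S), ?_, fun X => ?_, fun A => ?_⟩
  · refine Dec.comp hf ?_
    refine ⟨Or.inl fun X Y => ⟨union_inter_distrib_right _ _ _, by ext; simp; tauto⟩, fun u => ⟨{u}, by simp, fun X => ?_⟩⟩
    simp
  · have := h1 (X ∩ S)
    rw [rk_restrict]
    convert this using 2
    ext a
    simp [hS]
  · obtain ⟨X, hX, hfX⟩ := h2 (A ∩ R)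
    refine ⟨Sum.inl '' A ∪ (X ∩ range Sum.inr), ?_, ?_⟩
    · ext a; simp
    · rw [rk_restrict, ← hfX]
      refine congrArg f ?_
      ext u
      rcases u with a | w
      · have : a ∈ A ∩ R ↔ Sum.inl a ∈ X := by rw [← hX]; rfl
        simp only [mem_inter_iff] at this
        simp [hS]
        tauto
      · simp [hS]

lemma rk_dual {α : Type} {M : Matroid α} (h : M.E.Finite) (A : Set α) :
    rk M✶ A = ((A ∩ M.E).ncard : ℤ) + rk M Aᶜ - rk M univ := by
  have h1 := M.eRk_dual_add_eRank' A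
  have hd : M✶.E.Finite := h
  have hf : (A ∩ M.E).Finite := h.subset inter_subset_right
  have e2 : M.eRk (M.E \ A) = M.eRk Aᶜ := by
    rw [← M.eRk_inter_ground Aᶜ]
    congr 1
    ext; simp; tauto
  rw [← M.eRk_univ_eq, e2, ← hf.cast_ncard_eq, ← ENat.natCast_toNat (eRk_ne_top h univ),
    ← ENat.natCast_toNat (eRk_ne_top h Aᶜ), ← ENat.natCast_toNat (eRk_ne_top hd A)] at h1
  have h3 : (M✶.eRk A).toNat + (M.eRk univ).toNat = (M.eRk Aᶜ).toNat + (A ∩ M.E).ncard := by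
    exact_mod_cast h1
  simp only [rk]
  omega

open Classical in
lemma ncard_eq_sum {α : Type} {E : Set α} (hE : E.Finite) (A : Set α) :
    ((A ∩ E).ncard : ℤ) = ∑ v ∈ hE.toFinset, (if v ∈ A then 1 else 0) := by
  have : A ∩ E = ((hE.toFinset.filter (· ∈ A) : Finset α) : Set α) := by
    ext a; simp; tauto
  rw [this, ncard_coe_finset, Finset.card_filter]
  push_cast
  rfl

lemma Expr.dual {c : ℕ} (hc : 1 ≤ c) {α : Type} {M : Matroid α} (h : M.E.Finite)
    (hM : Expr c M) : Expr c M✶ := by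
  classical
  obtain ⟨W, f, hf, h1, h2⟩ := hM
  refine ⟨W, (fun X => ∑ v ∈ h.toFinset, (if Sum.inl v ∈ X then (1 : ℤ) else 0)) +
    (fun X => f Xᶜ) + (fun _ => - rk M univ), ?_, fun X => ?_, fun A => ?_⟩
  · refine add_mem (add_mem ?_ ?_) ?_
    · exact Dec.sum _ _ fun v _ => Dec.single hc _ _
    · refine Dec.comp hf ?_
      refine ⟨Or.inr fun X Y => ⟨compl_union _ _, compl_inter _ _⟩, fun u => ⟨{u}, by simp, fun X => ?_⟩⟩
      simp
    · exact Dec.const _ _
  · have := h1 Xᶜ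
    rw [rk_dual h, ncard_eq_sum h]
    simp only [Pi.add_apply]
    have e : (∑ v ∈ h.toFinset, (if v ∈ Sum.inl ⁻¹' X then (1 : ℤ) else 0)) =
      ∑ v ∈ h.toFinset, (if Sum.inl v ∈ X then (1 : ℤ) else 0) := rfl
    rw [e]
    have e2 : (Sum.inl ⁻¹' Xᶜ : Set α) = (Sum.inl ⁻¹' X)ᶜ := rfl
    rw [e2] at this
    linarith
  · obtain ⟨X, hX, hfX⟩ := h2 Aᶜ
    refine ⟨Xᶜ, ?_, ?_⟩
    · rw [preimage_compl, hX, compl_compl]
    · rw [rk_dual h, ncard_eq_sum h]
      simp only [Pi.add_apply, compl_compl, hfX]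
      have e : ∀ v : α, (Sum.inl v ∈ Xᶜ) = (v ∈ A) := by
        intro v
        have : v ∈ Aᶜ ↔ Sum.inl v ∈ X := by rw [← hX]; rfl
        simp only [mem_compl_iff] at this ⊢
        rw [eq_iff_iff]
        tauto
      simp only [e]
      ring

lemma Expr.contract {c : ℕ} (hc : 1 ≤ c) {α : Type} {M : Matroid α} (h : M.E.Finite)
    (hM : Expr c M) (C : Set α) : Expr c (M ／ C) := by
  have h1 : Expr c M✶ := hM.dual hc h
  have h2 : Expr c (M✶ ＼ C) := by
    rw [Matroid.delete_eq_restrict]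
    exact h1.restrict _
  have h3 : (M✶ ＼ C).E.Finite := by
    refine Set.Finite.subset h ?_
    intro x hx
    simp at hx
    exact hx.1
  have h4 := h2.dual hc h3
  have e : (M✶ ＼ C)✶ = M ／ C := by simp
  rwa [e] at h4

lemma sum_ground_finite {α β : Type} {M : Matroid α} {N : Matroid β} (hM : M.E.Finite)
    (hN : N.E.Finite) : (M.sum N).E.Finite := by
  rw [Matroid.sum_ground]
  exact (hM.image _).union (hN.image _)

lemma ncard_sum {α β : Type} (I : Set (α ⊕ β)) (hI : I.Finite) :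
    I.ncard = (Sum.inl ⁻¹' I).ncard + (Sum.inr ⁻¹' I).ncard := by
  have e : I = Sum.inl '' (Sum.inl ⁻¹' I) ∪ Sum.inr '' (Sum.inr ⁻¹' I) := by
    ext u; rcases u with a | b <;> simp
  have f1 : (Sum.inl ⁻¹' I : Set α).Finite := hI.preimage Sum.inl_injective.injOn
  have f2 : (Sum.inr ⁻¹' I : Set β).Finite := hI.preimage Sum.inr_injective.injOn
  conv_lhs => rw [e]
  rw [ncard_union_eq ?_ (f1.image _) (f2.image _), ncard_image_of_injective _ Sum.inl_injective,
    ncard_image_of_injective _ Sum.inr_injective]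
  rw [Set.disjoint_left]
  rintro _ ⟨a, -, rfl⟩ ⟨b, -, h⟩
  simp at h

lemma rk_sum {α β : Type} {M : Matroid α} {N : Matroid β} (hM : M.E.Finite)
    (hN : N.E.Finite) (A : Set (α ⊕ β)) :
    rk (M.sum N) A = rk M (Sum.inl ⁻¹' A) + rk N (Sum.inr ⁻¹' A) := by
  have hS := sum_ground_finite hM hN
  apply rk_eq_of hS
  · intro I hIA hI
    have hIf : I.Finite := hS.subset hI.subset_ground
    rw [Matroid.sum_indep_iff] at hI
    rw [ncard_sum I hIf]
    have e1 := indep_le hM hI.1 (preimage_mono hIA)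
    have e2 := indep_le hN hI.2 (preimage_mono hIA)
    push_cast
    linarith
  · obtain ⟨I, hI1, hI2, hI3⟩ := exists_indep hM (Sum.inl ⁻¹' A)
    obtain ⟨J, hJ1, hJ2, hJ3⟩ := exists_indep hN (Sum.inr ⁻¹' A)
    have e1 : Sum.inl ⁻¹' (Sum.inl '' I ∪ Sum.inr '' J : Set (α ⊕ β)) = I := by ext; simp
    have e2 : Sum.inr ⁻¹' (Sum.inl '' I ∪ Sum.inr '' J : Set (α ⊕ β)) = J := by ext; simp
    refine ⟨Sum.inl '' I ∪ Sum.inr '' J, ?_, ?_, ?_⟩
    · rintro _ (⟨a, ha, rfl⟩ | ⟨b, hb, rfl⟩)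
      · exact hI1 ha
      · exact hJ1 hb
    · rw [Matroid.sum_indep_iff, e1, e2]; exact ⟨hI2, hJ2⟩
    · have hf : (Sum.inl '' I ∪ Sum.inr '' J : Set (α ⊕ β)).Finite :=
        ((hM.subset hI2.subset_ground).image _).union ((hN.subset hJ2.subset_ground).image _)
      rw [ncard_sum _ hf, e1, e2, ← hI3, ← hJ3]
      push_cast
      exact le_refl _

lemma Expr.sum {c : ℕ} {α β : Type} {M : Matroid α} {N : Matroid β} (hM : M.E.Finite)
    (hN : N.E.Finite) (eM : Expr c M) (eN : Expr c N) : Expr c (M.sum N) := by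
  obtain ⟨W, f, hf, h1, h2⟩ := eM
  obtain ⟨V, g, hg, k1, k2⟩ := eN
  let p : α ⊕ W → (α ⊕ β) ⊕ (W ⊕ V) := Sum.elim (fun a => Sum.inl (Sum.inl a)) (fun w => Sum.inr (Sum.inl w))
  let q : β ⊕ V → (α ⊕ β) ⊕ (W ⊕ V) := Sum.elim (fun a => Sum.inl (Sum.inr a)) (fun w => Sum.inr (Sum.inr w))
  refine ⟨W ⊕ V, (fun X => f (p ⁻¹' X)) + (fun X => g (q ⁻¹' X)), ?_, fun X => ?_, fun A => ?_⟩
  · refine add_mem ?_ ?_
    · refine Dec.comp hf ?_
      refine ⟨Or.inl fun X Y => ⟨rfl, rfl⟩, fun u => ⟨{p u}, by simp, fun X => ?_⟩⟩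
      simp
    · refine Dec.comp hg ?_
      refine ⟨Or.inl fun X Y => ⟨rfl, rfl⟩, fun u => ⟨{q u}, by simp, fun X => ?_⟩⟩
      simp
  · rw [rk_sum hM hN]
    exact add_le_add (h1 (p ⁻¹' X)) (k1 (q ⁻¹' X))
  · obtain ⟨X, hX, hfX⟩ := h2 (Sum.inl ⁻¹' A)
    obtain ⟨Y, hY, hgY⟩ := k2 (Sum.inr ⁻¹' A)
    refine ⟨{u | Sum.elim (· ∈ A) (Sum.elim (fun w => Sum.inr w ∈ X) (fun v => Sum.inr v ∈ Y)) u},
      ?_, ?_⟩
    · ext; simp
    · rw [rk_sum hM hN, ← hfX, ← hgY]
      simp only [Pi.add_apply]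
      congr 2
      · ext u
        rcases u with a | w
        · have : a ∈ Sum.inl ⁻¹' A ↔ Sum.inl a ∈ X := by rw [← hX]; rfl
          simpa [p] using this
        · simp [p]
      · ext u
        rcases u with a | w
        · have : a ∈ Sum.inr ⁻¹' A ↔ Sum.inl a ∈ Y := by rw [← hY]; rfl
          simpa [q] using this
        · simp [q]

lemma rk_truncation {α : Type} {M N : Matroid α} {k : ℕ} (hM : M.E.Finite)
    (hN : IsTruncation M k N) (A : Set α) : rk N A = min (rk M A) k := by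
  have hNE : N.E.Finite := by rw [hN.1]; exact hM
  apply rk_eq_of hNE
  · intro I hIA hI
    have h1 := (hN.2 I).1 hI
    have hIf : I.Finite := hM.subset h1.1.subset_ground
    refine le_min (indep_le hM h1.1 hIA) ?_
    have := h1.2
    rw [← hIf.cast_ncard_eq] at this
    exact_mod_cast this
  · obtain ⟨I, hI1, hI2, hI3⟩ := exists_indep hM A
    have hIf : I.Finite := hM.subset hI2.subset_ground
    rcases le_total I.ncard k with h | h
    · refine ⟨I, hI1, (hN.2 I).2 ⟨hI2, ?_⟩, ?_⟩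
      · rw [← hIf.cast_ncard_eq]; exact_mod_cast h
      · rw [hI3]; exact min_le_left _ _
    · obtain ⟨J, hJI, hJ⟩ := Set.exists_subset_card_eq h
      have hJf : J.Finite := hIf.subset hJI
      refine ⟨J, hJI.trans hI1, (hN.2 J).2 ⟨hI2.subset hJI, ?_⟩, ?_⟩
      · rw [← hJf.cast_ncard_eq, hJ]
      · rw [hJ]; exact min_le_right _ _

lemma Expr.truncate {c : ℕ} (hc : 2 ≤ c) {α : Type} {M N : Matroid α} {k : ℕ} (hM : M.E.Finite)
    (hk : (k : ℕ∞) ≤ M.eRank) (hN : IsTruncation M k N) (eM : Expr c M) : Expr c N := by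
  classical
  obtain ⟨W, f, hf, h1, h2⟩ := eM
  have hk' : (k : ℤ) ≤ rk M univ := by
    rw [rk, M.eRk_univ_eq]
    rw [← M.eRk_univ_eq, ← ENat.natCast_toNat (eRk_ne_top hM univ)] at hk
    have : k ≤ (M.eRk univ).toNat := by exact_mod_cast hk
    rw [M.eRk_univ_eq] at this
    exact_mod_cast this
  let b : α → α ⊕ ((α ⊕ Unit) ⊕ W) := fun v => Sum.inr (Sum.inl (Sum.inl v))
  let z : α ⊕ ((α ⊕ Unit) ⊕ W) := Sum.inr (Sum.inl (Sum.inr ()))
  let p : α ⊕ W → α ⊕ ((α ⊕ Unit) ⊕ W) := Sum.elim b (fun w => Sum.inr (Sum.inr w))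
  let f1 : Set (α ⊕ ((α ⊕ Unit) ⊕ W)) → ℤ := fun X => f (p ⁻¹' X)
  let f2 : Set (α ⊕ ((α ⊕ Unit) ⊕ W)) → ℤ := fun X => ∑ v ∈ hM.toFinset,
    (if Sum.inl v ∈ X ∧ b v ∉ X then (1 : ℤ) else 0)
  let f3 : Set (α ⊕ ((α ⊕ Unit) ⊕ W)) → ℤ := fun X => if z ∈ X then ((k : ℤ) - rk M univ) else 0
  let f4 : Set (α ⊕ ((α ⊕ Unit) ⊕ W)) → ℤ := fun X => ∑ v ∈ hM.toFinset,
    (if z ∈ X ∧ b v ∉ X then (1 : ℤ) else 0)
  have f2n : ∀ X, 0 ≤ f2 X := fun X => Finset.sum_nonneg fun v _ => by split_ifs <;> norm_num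
  have f4n : ∀ X, 0 ≤ f4 X := fun X => Finset.sum_nonneg fun v _ => by split_ifs <;> norm_num
  refine ⟨(α ⊕ Unit) ⊕ W, f1 + f2 + f3 + f4, ?_, fun X => ?_, fun A => ?_⟩
  · refine add_mem (add_mem (add_mem ?_ ?_) ?_) ?_
    · refine Dec.comp hf ?_
      refine ⟨Or.inl fun X Y => ⟨rfl, rfl⟩, fun u => ⟨{p u}, by simp, fun X => ?_⟩⟩
      simp
    · exact Dec.sum _ _ fun v _ => Dec.pair hc _ _ (by norm_num)
    · exact Dec.single (by omega) _ _
    · exact Dec.sum _ _ fun v _ => Dec.pair hc _ _ (by norm_num)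
  · rw [rk_truncation hM hN]
    simp only [Pi.add_apply]
    set B : Set α := b ⁻¹' X with hB
    have e1 : rk M B ≤ f1 X := h1 (p ⁻¹' X)
    by_cases hz : z ∈ X
    · -- value at least `k`
      have e4 : f4 X = ((Bᶜ ∩ M.E).ncard : ℤ) := by
        rw [ncard_eq_sum hM]
        refine Finset.sum_congr rfl fun v _ => ?_
        by_cases hv : b v ∈ X
        · have : v ∉ Bᶜ := by simpa [hB] using hv
          simp [hv, this]
        · have : v ∈ Bᶜ := by simpa [hB] using hv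
          simp [hv, this, hz]
      have e3 : f3 X = (k : ℤ) - rk M univ := if_pos hz
      have e5 : rk M univ ≤ rk M B + ((Bᶜ ∩ M.E).ncard : ℤ) := by
        have := rk_union_le hM B (Bᶜ ∩ M.E)
        have h6 : rk M (B ∪ (Bᶜ ∩ M.E)) = rk M univ := by
          rw [← rk_inter_ground M (B ∪ _), ← rk_inter_ground M univ]
          congr 1
          ext; simp; tauto
        have h7 := rk_le_ncard hM (A := Bᶜ ∩ M.E) (hM.subset inter_subset_right)
        linarith
      have := f2n X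
      refine (min_le_right _ _).trans ?_
      linarith
    · have e2 : f2 X = (((Sum.inl ⁻¹' X \ B) ∩ M.E).ncard : ℤ) := by
        rw [ncard_eq_sum hM]
        refine Finset.sum_congr rfl fun v _ => ?_
        simp [hB]
      have e3 : f3 X = 0 := if_neg hz
      have e5 : rk M (Sum.inl ⁻¹' X) ≤ rk M B + (((Sum.inl ⁻¹' X \ B) ∩ M.E).ncard : ℤ) := by
        have := rk_union_le hM B ((Sum.inl ⁻¹' X \ B) ∩ M.E)
        have h6 : rk M (Sum.inl ⁻¹' X) ≤ rk M (B ∪ ((Sum.inl ⁻¹' X \ B) ∩ M.E)) := by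
          rw [← rk_inter_ground M (Sum.inl ⁻¹' X)]
          apply rk_mono hM
          intro a
          simp; tauto
        have h7 := rk_le_ncard hM (A := (Sum.inl ⁻¹' X \ B) ∩ M.E) (hM.subset inter_subset_right)
        linarith
      have := f4n X
      refine (min_le_left _ _).trans ?_
      linarith
  · rw [rk_truncation hM hN]
    rcases le_total (rk M A) k with h | h
    · obtain ⟨X, hX, hfX⟩ := h2 A
      refine ⟨{u | Sum.elim (· ∈ A) (Sum.elim (Sum.elim (· ∈ A) (fun _ => False))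
        (fun w => Sum.inr w ∈ X)) u}, by ext; simp, ?_⟩
      rw [min_eq_left h, ← hfX]
      simp only [Pi.add_apply]
      have e1 : p ⁻¹' {u | Sum.elim (· ∈ A) (Sum.elim (Sum.elim (· ∈ A) (fun _ => False))
        (fun w => Sum.inr w ∈ X)) u} = X := by
        ext u
        rcases u with a | w
        · have : a ∈ A ↔ Sum.inl a ∈ X := by rw [← hX]; rfl
          simpa [p, b] using this
        · simp [p]
      simp only [f1, e1]
      have e2 : ∀ v : α, ¬ (v ∈ A ∧ v ∉ A) := fun v hv => hv.2 hv.1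
      simp [f2, f3, f4, b, z, e2]
    · obtain ⟨X, hX, hfX⟩ := h2 univ
      refine ⟨{u | Sum.elim (· ∈ A) (Sum.elim (Sum.elim (fun _ => True) (fun _ => True))
        (fun w => Sum.inr w ∈ X)) u}, by ext; simp, ?_⟩
      rw [min_eq_right h]
      simp only [Pi.add_apply]
      have e1 : p ⁻¹' {u | Sum.elim (· ∈ A) (Sum.elim (Sum.elim (fun _ => True) (fun _ => True))
        (fun w => Sum.inr w ∈ X)) u} = X := by
        ext u
        rcases u with a | w
        · have : a ∈ (univ : Set α) ↔ Sum.inl a ∈ X := by rw [← hX]; rfl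
          simpa [p, b] using this
        · simp [p]
      simp only [f1, e1, hfX]
      simp [f2, f3, f4, b, z]

end Pool.MP_9f00ad_co.NotFinGen
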