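import Pool.Agent.H792.MC2

set_option autoImplicit false

namespace Pool.MP_9f00ad_co.NotFinGen

open Set
open scoped Matroid

/-! ### isomorphism -/

lemma rk_iso {α β : Type} {M : Matroid α} {N : Matroid β} (hM : M.E.Finite) (hN : N.E.Finite)
    (e : M.E ≃ N.E) (he : ∀ I : Set M.E,
      (M.Indep (Subtype.val '' I) ↔ N.Indep (Subtype.val '' (e '' I)))) (B : Set β) :
    rk N B = rk M {a | ∃ h : a ∈ M.E, ((e ⟨a, h⟩ : N.E) : β) ∈ B} := by
  set A : Set α := {a | ∃ h : a ∈ M.E, ((e ⟨a, h⟩ : N.E) : β) ∈ B} with hA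
  have hcard : ∀ I : Set M.E, (Subtype.val '' (e '' I) : Set β).ncard = (Subtype.val '' I : Set α).ncard := by
    intro I
    rw [ncard_image_of_injective _ Subtype.val_injective, ncard_image_of_injective _ e.injective,
      ncard_image_of_injective _ Subtype.val_injective]
  apply rk_eq_of hN
  · intro J hJB hJ
    set I : Set M.E := {a | ((e a : N.E) : β) ∈ J} with hI
    have e1 : (Subtype.val '' (e '' I) : Set β) = J := by
      ext b
      constructor
      · rintro ⟨_, ⟨a, ha, rfl⟩, rfl⟩; exact ha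
      · intro hb
        refine ⟨⟨b, hJ.subset_ground hb⟩, ⟨e.symm ⟨b, hJ.subset_ground hb⟩, ?_, ?_⟩, rfl⟩
        · simpa [hI] using hb
        · simp
    have hMI : M.Indep (Subtype.val '' I) := by rw [he, e1]; exact hJ
    have := indep_le hM hMI (A := A) (by
      rintro _ ⟨a, ha, rfl⟩
      exact ⟨a.2, hJB ha⟩)
    rw [← hcard, e1] at this
    exact this
  · obtain ⟨K, hK1, hK2, hK3⟩ := exists_indep hM A
    set I : Set M.E := {a | (a : α) ∈ K} with hI
    have e1 : (Subtype.val '' I : Set α) = K := by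
      ext a
      constructor
      · rintro ⟨a, ha, rfl⟩; exact ha
      · intro ha; exact ⟨⟨a, hK2.subset_ground ha⟩, ha, rfl⟩
    refine ⟨Subtype.val '' (e '' I), ?_, ?_, ?_⟩
    · rintro _ ⟨_, ⟨a, ha, rfl⟩, rfl⟩
      obtain ⟨h, h2⟩ := hK1 ha
      exact h2
    · rw [← he, e1]; exact hK2
    · rw [hcard, e1, hK3]

lemma Expr.iso {c : ℕ} {α β : Type} {M : Matroid α} {N : Matroid β} (hM : M.E.Finite)
    (hN : N.E.Finite) (h : IsIsoTo M N) (eM : Expr c M) : Expr c N := by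
  classical
  obtain ⟨e, he⟩ := h
  obtain ⟨W, f, hf, h1, h2⟩ := eM
  let F : Set (β ⊕ W) → Set (α ⊕ W) := fun X => {u | Sum.elim
    (fun a => ∃ h : a ∈ M.E, Sum.inl ((e ⟨a, h⟩ : N.E) : β) ∈ X) (fun w => Sum.inr w ∈ X) u}
  have hF : ∀ X, Sum.inl ⁻¹' (F X) =
      {a | ∃ h : a ∈ M.E, ((e ⟨a, h⟩ : N.E) : β) ∈ (Sum.inl ⁻¹' X : Set β)} := by
    intro X; ext a; simp [F]
  refine ⟨W, fun X => f (F X), ?_, fun X => ?_, fun B => ?_⟩
  · refine Dec.comp hf ⟨Or.inl fun X Y => ⟨?_, ?_⟩, fun u => ?_⟩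
    · ext u
      rcases u with a | w
      · simp only [F, mem_ofPred_eq, Sum.elim_inl, mem_union]
        constructor
        · rintro ⟨h, h1 | h1⟩
          · exact Or.inl ⟨h, h1⟩
          · exact Or.inr ⟨h, h1⟩
        · rintro (⟨h, h1⟩ | ⟨h, h1⟩)
          · exact ⟨h, Or.inl h1⟩
          · exact ⟨h, Or.inr h1⟩
      · simp [F]
    · ext u
      rcases u with a | w
      · simp only [F, mem_ofPred_eq, Sum.elim_inl, mem_inter_iff]
        constructor
        · rintro ⟨h, h1, h2⟩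
          exact ⟨⟨h, h1⟩, ⟨h, h2⟩⟩
        · rintro ⟨⟨h, h1⟩, ⟨_, h2⟩⟩
          exact ⟨h, h1, h2⟩
      · simp [F]
    · rcases u with a | w
      · by_cases ha : a ∈ M.E
        · refine ⟨{Sum.inl ((e ⟨a, ha⟩ : N.E) : β)}, by simp, fun X => ?_⟩
          simp [F, ha]
        · refine ⟨∅, by simp, fun X => ?_⟩
          simp [F, ha]
      · refine ⟨{Sum.inr w}, by simp, fun X => ?_⟩
        simp [F]
  · rw [rk_iso hM hN e he, ← hF]
    exact h1 (F X)
  · obtain ⟨X, hX, hfX⟩ := h2 {a | ∃ h : a ∈ M.E, ((e ⟨a, h⟩ : N.E) : β) ∈ B}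
    refine ⟨{u | Sum.elim (· ∈ B) (fun w => Sum.inr w ∈ X) u}, by ext; simp, ?_⟩
    rw [rk_iso hM hN e he, ← hfX]
    refine congrArg f ?_
    ext u
    rcases u with a | w
    · have : (a ∈ {a | ∃ h : a ∈ M.E, ((e ⟨a, h⟩ : N.E) : β) ∈ B}) ↔ Sum.inl a ∈ X := by
        rw [← hX]; rfl
      simpa [F] using this
    · simp [F]

/-! ### Rado's theorem for a submodular function -/

section Rado
variable {ι T : Type} [DecidableEq ι] [DecidableEq T]

lemma rado (rho : Finset T → ℤ) (hmono : ∀ A B, A ⊆ B → rho A ≤ rho B)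
    (hsub : ∀ A B, rho (A ∪ B) + rho (A ∩ B) ≤ rho A + rho B) (Q₀ : Finset ι) (n : ℕ) :
    ∀ G : ι → Finset T, (∑ i ∈ Q₀, (G i).card ≤ n) →
      (∀ Q ⊆ Q₀, (Q.card : ℤ) ≤ rho (Q.biUnion G)) →
      ∃ G' : ι → Finset T, (∀ i ∈ Q₀, G' i ⊆ G i ∧ (G' i).card ≤ 1) ∧
        ∀ Q ⊆ Q₀, (Q.card : ℤ) ≤ rho (Q.biUnion G') := by
  induction n with
  | zero =>
    intro G hn hG
    refine ⟨G, fun i hi => ⟨Finset.Subset.refl _, ?_⟩, hG⟩
    have h3 : (G i).card ≤ 0 := (Finset.single_le_sum (f := fun i => (G i).card)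
      (fun _ _ => Nat.zero_le _) hi).trans hn
    omega
  | succ n ih =>
    intro G hn hG
    by_cases hall : ∀ i ∈ Q₀, (G i).card ≤ 1
    · exact ⟨G, fun i hi => ⟨Finset.Subset.refl _, hall i hi⟩, hG⟩
    push Not at hall
    obtain ⟨v, hv, hv1⟩ := hall
    obtain ⟨y₁, hy₁, y₂, hy₂, hne⟩ := Finset.one_lt_card.1 hv1
    -- either erasing one of the two elements keeps the condition
    have key : ∀ y ∈ G v, (∀ Q ⊆ Q₀, (Q.card : ℤ) ≤ rho (Q.biUnion (Function.update G v ((G v).erase y)))) →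
      ∃ G' : ι → Finset T, (∀ i ∈ Q₀, G' i ⊆ G i ∧ (G' i).card ≤ 1) ∧
        ∀ Q ⊆ Q₀, (Q.card : ℤ) ≤ rho (Q.biUnion G') := by
      intro y hy hcond
      have hs : ∑ i ∈ Q₀, (Function.update G v ((G v).erase y) i).card ≤ n := by
        have e1 : ∑ i ∈ Q₀, (Function.update G v ((G v).erase y) i).card
            = ∑ i ∈ Q₀.erase v, (G i).card + ((G v).erase y).card := by
          rw [← Finset.sum_erase_add _ _ hv]
          congr 1
          · refine Finset.sum_congr rfl fun i hi => ?_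
            rw [Function.update_of_ne (Finset.ne_of_mem_erase hi)]
          · simp
        have e2 : ∑ i ∈ Q₀, (G i).card = ∑ i ∈ Q₀.erase v, (G i).card + (G v).card :=
          (Finset.sum_erase_add _ _ hv).symm
        have e3 := Finset.card_erase_of_mem hy
        omega
      obtain ⟨G', h1, h2⟩ := ih (Function.update G v ((G v).erase y)) hs hcond
      refine ⟨G', fun i hi => ⟨(h1 i hi).1.trans ?_, (h1 i hi).2⟩, h2⟩
      by_cases hiv : i = v
      · subst hiv; simp [Finset.erase_subset]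
      · simp [Function.update_of_ne hiv]
    by_cases c1 : ∀ Q ⊆ Q₀, (Q.card : ℤ) ≤ rho (Q.biUnion (Function.update G v ((G v).erase y₁)))
    · exact key y₁ hy₁ c1
    by_cases c2 : ∀ Q ⊆ Q₀, (Q.card : ℤ) ≤ rho (Q.biUnion (Function.update G v ((G v).erase y₂)))
    · exact key y₂ hy₂ c2
    exfalso
    push Not at c1 c2
    have struct : ∀ y, ∀ Q ⊆ Q₀, rho (Q.biUnion (Function.update G v ((G v).erase y))) < Q.card →
      v ∈ Q ∧ rho ((Q.erase v).biUnion G ∪ (G v).erase y) ≤ ((Q.erase v).card : ℤ) := by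
      intro y Q hQ hlt
      have hvQ : v ∈ Q := by
        by_contra hvQ
        have e : Q.biUnion (Function.update G v ((G v).erase y)) = Q.biUnion G := by
          refine Finset.biUnion_congr rfl fun i hi => ?_
          rw [Function.update_of_ne]
          rintro rfl; exact hvQ hi
        rw [e] at hlt
        have := hG Q hQ
        linarith
      refine ⟨hvQ, ?_⟩
      have e : Q.biUnion (Function.update G v ((G v).erase y)) =
          (Q.erase v).biUnion G ∪ (G v).erase y := by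
        conv_lhs => rw [← Finset.insert_erase hvQ]
        rw [Finset.biUnion_insert, Finset.union_comm]
        congr 1
        · refine Finset.biUnion_congr rfl fun i hi => ?_
          rw [Function.update_of_ne (Finset.ne_of_mem_erase hi)]
        · simp
      rw [e] at hlt
      have h4 : (Q.card : ℤ) = (Q.erase v).card + 1 := by
        rw [Finset.card_erase_of_mem hvQ]
        have : 1 ≤ Q.card := Finset.card_pos.2 ⟨v, hvQ⟩
        push_cast [Nat.cast_sub this]
        ring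
      linarith
    obtain ⟨Q₁, hQ₁, hl₁⟩ := c1
    obtain ⟨Q₂, hQ₂, hl₂⟩ := c2
    obtain ⟨hv₁, hr₁⟩ := struct y₁ Q₁ hQ₁ hl₁
    obtain ⟨hv₂, hr₂⟩ := struct y₂ Q₂ hQ₂ hl₂
    set R₁ := Q₁.erase v with hR₁
    set R₂ := Q₂.erase v with hR₂
    have hR₁Q : R₁ ⊆ Q₀ := (Finset.erase_subset _ _).trans hQ₁
    have hR₂Q : R₂ ⊆ Q₀ := (Finset.erase_subset _ _).trans hQ₂
    have hv₁' : v ∉ R₁ := Finset.notMem_erase _ _
    have hv₂' : v ∉ R₂ := Finset.notMem_erase _ _
    have s1 := hsub (R₁.biUnion G ∪ (G v).erase y₁) (R₂.biUnion G ∪ (G v).erase y₂)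
    have s2 : rho ((insert v (R₁ ∪ R₂)).biUnion G) ≤
        rho ((R₁.biUnion G ∪ (G v).erase y₁) ∪ (R₂.biUnion G ∪ (G v).erase y₂)) := by
      apply hmono
      intro t ht
      simp only [Finset.mem_biUnion, Finset.mem_insert, Finset.mem_union, Finset.mem_erase] at ht ⊢
      obtain ⟨i, (rfl | hi | hi), hti⟩ := ht
      · by_cases hty : t = y₁
        · right; right
          exact ⟨by rw [hty]; exact hne, hti⟩
        · left; right; exact ⟨hty, hti⟩
      · left; left; exact ⟨i, hi, hti⟩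
      · right; left; exact ⟨i, hi, hti⟩
    have s3 : rho ((R₁ ∩ R₂).biUnion G) ≤
        rho ((R₁.biUnion G ∪ (G v).erase y₁) ∩ (R₂.biUnion G ∪ (G v).erase y₂)) := by
      apply hmono
      intro t ht
      simp only [Finset.mem_biUnion, Finset.mem_inter, Finset.mem_union, Finset.mem_erase] at ht ⊢
      obtain ⟨i, ⟨hi1, hi2⟩, hti⟩ := ht
      exact ⟨Or.inl ⟨i, hi1, hti⟩, Or.inl ⟨i, hi2, hti⟩⟩
    have s4 := hG (insert v (R₁ ∪ R₂)) (Finset.insert_subset hv (Finset.union_subset hR₁Q hR₂Q))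
    have s5 := hG (R₁ ∩ R₂) (Finset.inter_subset_left.trans hR₁Q)
    have s6 : (insert v (R₁ ∪ R₂)).card = (R₁ ∪ R₂).card + 1 :=
      Finset.card_insert_of_notMem (by simp [hv₁', hv₂'])
    have s7 := Finset.card_union_add_card_inter R₁ R₂
    have s8 : ((R₁ ∪ R₂).card : ℤ) + (R₁ ∩ R₂).card = R₁.card + R₂.card := by exact_mod_cast s7
    rw [s6] at s4
    push_cast at s4
    linarith

end Rado

end Pool.MP_9f00ad_co.NotFinGen
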