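import Pool.Agent.H792.MC3

set_option autoImplicit false

namespace Pool.MP_9f00ad_co.NotFinGen

open Set
open scoped Matroid

/-! ### linking -/

section Link
variable {T : Type} {adj : T → T → Prop}

/-- valid pairs of vertex sets -/
def Valid (adj : T → T → Prop) (P R : Set T) : Prop :=
  R ⊆ P ∧ ∀ u ∈ R, ∀ v, adj u v → v ∈ P

lemma path_crosses {P R : Set T} (hv : Valid adj P R) :
    ∀ (l : List T) (s e : T), l.IsChain adj → l.head? = some s → l.getLast? = some e → s ∈ P →
      e ∉ R → ∃ w ∈ l, w ∈ P ∧ w ∉ R := by
  intro l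
  induction l with
  | nil => intro s e _ h; simp at h
  | cons a t ih =>
    intro s e hc hs he hsP heR
    simp only [List.head?_cons, Option.some.injEq] at hs
    subst hs
    by_cases haR : a ∈ R
    · cases t with
      | nil =>
        simp at he
        subst he
        exact absurd haR heR
      | cons b t' =>
        have h1 : adj a b := by
          rw [List.isChain_cons_cons] at hc
          exact hc.1
        have h2 : (b :: t').IsChain adj := by
          rw [List.isChain_cons_cons] at hc
          exact hc.2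
        have h3 : (b :: t').getLast? = some e := by
          rw [List.getLast?_cons_cons] at he
          exact he
        obtain ⟨w, hw, h4⟩ := ih b e h2 rfl h3 (hv.2 a haR b h1) heR
        exact ⟨w, List.mem_cons_of_mem _ hw, h4⟩
    · exact ⟨a, by simp, hsP, haR⟩

lemma linked_le [Finite T] {M₀ : Matroid T} {X Y P R : Set T} (hL : Linked adj X Y)
    (hY : M₀.Indep Y) (hv : Valid adj P R) :
    (X.ncard : ℤ) ≤ ((X \ P).ncard : ℤ) + ((P \ R).ncard : ℤ) + rk M₀ R := by
  classical
  obtain ⟨p, hp, hdis, hYe⟩ := hL
  have hE : M₀.E.Finite := Set.toFinite _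
  -- last vertices
  have hlast : ∀ x ∈ X, ∃ e, (p x).getLast? = some e := by
    intro x hx
    have h := (hp x hx).2.2
    cases hl : p x with
    | nil => rw [hl] at h; simp at h
    | cons a t => exact ⟨(a :: t).getLast (by simp), List.getLast?_eq_some_getLast (by simp)⟩
  choose! e he using hlast
  have heinj : InjOn e X := by
    intro x hx y hy hxy
    by_contra hne
    have h1 : e x ∈ p x := List.mem_of_getLast? (he x hx)
    have h2 : e y ∈ p y := List.mem_of_getLast? (he y hy)
    rw [← hxy] at h2
    exact hdis x hx y hy hne h1 h2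
  set X₂ := {s ∈ X | e s ∈ R} with hX₂
  set X₃ := {s ∈ X | ∃ w ∈ p s, w ∈ P ∧ w ∉ R} with hX₃
  have hcov : X ⊆ (X \ P) ∪ X₂ ∪ X₃ := by
    intro s hs
    by_cases h1 : s ∈ P
    · by_cases h2 : e s ∈ R
      · left; right; exact ⟨hs, h2⟩
      · right
        exact ⟨hs, path_crosses hv (p s) s (e s) (hp s hs).1 (hp s hs).2.2 (he s hs) h1 h2⟩
    · left; left; exact ⟨hs, h1⟩
  have c2 : (X₂.ncard : ℤ) ≤ rk M₀ R := by
    have h1 : (e '' X₂).ncard = X₂.ncard :=
      (heinj.mono (sep_subset _ _)).ncard_image
    have h2 : M₀.Indep (e '' X₂) := by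
      apply hY.subset
      rintro _ ⟨s, hs, rfl⟩
      rw [hYe]
      exact ⟨s, hs.1, he s hs.1⟩
    have h3 := indep_le hE h2 (A := R) (by rintro _ ⟨s, hs, rfl⟩; exact hs.2)
    rw [h1] at h3
    exact h3
  have c3 : X₃.ncard ≤ (P \ R).ncard := by
    have hw : ∀ s ∈ X₃, ∃ w ∈ p s, w ∈ P ∧ w ∉ R := fun s hs => hs.2
    choose! w hw1 hw2 using hw
    apply ncard_le_ncard_of_injOn w
    · intro s hs
      exact hw2 s hs
    · intro x hx y hy hxy
      by_contra hne
      have h1 := hw1 x hx
      have h2 := hw1 y hy
      rw [← hxy] at h2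
      exact hdis x hx.1 y hy.1 hne h1 h2
  have c4 : X.ncard ≤ (X \ P).ncard + X₂.ncard + X₃.ncard := by
    calc X.ncard ≤ ((X \ P) ∪ X₂ ∪ X₃).ncard := ncard_le_ncard hcov
      _ ≤ ((X \ P) ∪ X₂).ncard + X₃.ncard := ncard_union_le _ _
      _ ≤ (X \ P).ncard + X₂.ncard + X₃.ncard := by
        have := ncard_union_le (X \ P) X₂
        omega
  have c4' : (X.ncard : ℤ) ≤ (X \ P).ncard + X₂.ncard + X₃.ncard := by exact_mod_cast c4
  have c3' : (X₃.ncard : ℤ) ≤ (P \ R).ncard := by exact_mod_cast c3
  linarith

lemma paths_of_disjoint [Fintype T] [DecidableEq T] (X : Finset T) (m : T → T)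
    (hinj : ∀ t ∉ X, ∀ t' ∉ X, m t = m t' → t = t') (hex : ∀ x₀ ∈ X, ∀ t₁ ∉ X, m t₁ ≠ x₀) :
      ∃ p : T → List T,
        (∀ x ∈ X, (p x).IsChain adj ∧ (p x).Nodup ∧ (p x).head? = some x) ∧
        (∀ x ∈ X, ∀ y ∈ X, x ≠ y → (p x).Disjoint (p y)) ∧
        ({y | ∀ t ∉ X, m t ≠ y} = {y | ∃ x ∈ X, (p x).getLast? = some y}) ∧
        (∀ x ∈ X, ∀ w ∈ p x, w ∈ X ∨ m w ≠ w) := by
  have himg : (Xᶜ).image m = Xᶜ := by
    apply Finset.eq_of_subset_of_card_le
    · intro y hy
      obtain ⟨t, ht, rfl⟩ := Finset.mem_image.1 hy
      rw [Finset.mem_compl] at ht ⊢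
      intro hX
      exact hex _ hX t ht rfl
    · rw [Finset.card_image_of_injOn]
      intro t ht t' ht' h
      exact hinj t (by simpa using ht) t' (by simpa using ht') h
  refine ⟨fun x => [x], fun x hx => by simp, ?_, ?_, ?_⟩
  · intro x hx y hy hne
    simpa using Ne.symm hne
  · ext y
    simp only [mem_ofPred_eq, List.getLast?_singleton, Option.some.injEq, exists_eq_right]
    constructor
    · intro h
      by_contra hy
      have : y ∈ (Xᶜ).image m := by rw [himg]; simpa using hy
      obtain ⟨t, ht, rfl⟩ := Finset.mem_image.1 this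
      exact h t (by simpa using ht) rfl
    · intro hy t ht
      exact hex y hy t ht
  · intro x hx w hw
    simp only [List.mem_singleton] at hw
    subst hw
    exact Or.inl hx

lemma exists_paths [Fintype T] [DecidableEq T] (n : ℕ) :
    ∀ (X : Finset T) (m : T → T), (∀ t ∉ X, ∀ t' ∉ X, m t = m t' → t = t') →
      (∀ t ∉ X, m t = t ∨ adj (m t) t) →
      ((Finset.univ.filter fun t => t ∉ X ∧ m t ≠ t).card = n) →
      ∃ p : T → List T,
        (∀ x ∈ X, (p x).IsChain adj ∧ (p x).Nodup ∧ (p x).head? = some x) ∧
        (∀ x ∈ X, ∀ y ∈ X, x ≠ y → (p x).Disjoint (p y)) ∧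
        ({y | ∀ t ∉ X, m t ≠ y} = {y | ∃ x ∈ X, (p x).getLast? = some y}) ∧
        (∀ x ∈ X, ∀ w ∈ p x, w ∈ X ∨ m w ≠ w) := by
  induction n with
  | zero =>
    intro X m hinj hadj hn
    apply paths_of_disjoint X m hinj
    intro x₀ hx₀ t₁ ht₁ hm
    have hne : x₀ ≠ t₁ := by rintro rfl; exact ht₁ hx₀
    have : t₁ ∈ (Finset.univ.filter fun t => t ∉ X ∧ m t ≠ t) := by
      simp [ht₁, hm, hne]
    rw [Finset.card_eq_zero.1 hn] at this
    simp at this
  | succ n ih =>
    intro X m hinj hadj hn
    by_cases hex : ∃ x₀ ∈ X, ∃ t₁ ∉ X, m t₁ = x₀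
    · obtain ⟨x₀, hx₀, t₁, ht₁, hm⟩ := hex
      have hne : x₀ ≠ t₁ := by rintro rfl; exact ht₁ hx₀
      have hadj₁ : adj x₀ t₁ := by
        rcases hadj t₁ ht₁ with h | h
        · rw [hm] at h; exact absurd h hne
        · rwa [hm] at h
      set X' := insert t₁ (X.erase x₀) with hX'
      set m' := Function.update m x₀ x₀ with hm'
      have hmem : ∀ t, t ∉ X' ↔ (t ∉ X ∨ t = x₀) ∧ t ≠ t₁ := by
        intro t
        simp only [hX', Finset.mem_insert, Finset.mem_erase]
        by_cases h1 : t = x₀ <;> by_cases h2 : t = t₁ <;> simp [h1, h2]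
      have hx₀' : x₀ ∉ X' := (hmem x₀).2 ⟨Or.inr rfl, hne⟩
      have hm'x : m' x₀ = x₀ := by simp [hm']
      have hm't : ∀ t, t ≠ x₀ → m' t = m t := fun t ht => by simp [hm', Function.update_of_ne ht]
      have hnot : ∀ t ∉ X', t ≠ x₀ → t ∉ X := by
        intro t ht hne'
        rcases ((hmem t).1 ht).1 with h | h
        · exact h
        · exact absurd h hne'
      have cinj : ∀ t ∉ X', ∀ t' ∉ X', m' t = m' t' → t = t' := by
        intro t ht t' ht' htt
        by_cases h1 : t = x₀
        · by_cases h2 : t' = x₀
          · rw [h1, h2]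
          · rw [h1, hm'x, hm't t' h2, ← hm] at htt
            exact absurd (hinj _ ht₁ _ (hnot t' ht' h2) htt).symm ((hmem t').1 ht').2
        · by_cases h2 : t' = x₀
          · rw [h2, hm'x, hm't t h1, ← hm] at htt
            exact absurd (hinj _ (hnot t ht h1) _ ht₁ htt) ((hmem t).1 ht).2
          · rw [hm't t h1, hm't t' h2] at htt
            exact hinj _ (hnot t ht h1) _ (hnot t' ht' h2) htt
      have cadj : ∀ t ∉ X', m' t = t ∨ adj (m' t) t := by
        intro t ht
        by_cases h1 : t = x₀
        · left; rw [h1, hm'x]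
        · rw [hm't t h1]
          exact hadj t (hnot t ht h1)
      have ccard : (Finset.univ.filter fun t => t ∉ X' ∧ m' t ≠ t).card = n := by
        have : (Finset.univ.filter fun t => t ∉ X' ∧ m' t ≠ t) =
            (Finset.univ.filter fun t => t ∉ X ∧ m t ≠ t).erase t₁ := by
          ext t
          simp only [Finset.mem_filter, Finset.mem_univ, true_and, Finset.mem_erase, hmem]
          constructor
          · rintro ⟨⟨h1, h2⟩, h3⟩
            have h4 : t ≠ x₀ := by rintro rfl; exact h3 hm'x
            rw [hm't t h4] at h3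
            rcases h1 with h1 | h1
            · exact ⟨h2, h1, h3⟩
            · exact absurd h1 h4
          · rintro ⟨h1, h2, h3⟩
            have h4 : t ≠ x₀ := by rintro rfl; exact h2 hx₀
            rw [hm't t h4]
            exact ⟨⟨Or.inl h2, h1⟩, h3⟩
        rw [this, Finset.card_erase_of_mem (by simp [ht₁, hm, hne]), hn]
        rfl
      obtain ⟨p', hp1, hp2, hp3, hp4⟩ := ih X' m' cinj cadj ccard
      have ht₁' : t₁ ∈ X' := by simp [hX']
      have hx₀p : ∀ x ∈ X', x₀ ∉ p' x := by
        intro x hx hmem'
        rcases hp4 x hx x₀ hmem' with h | h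
        · exact hx₀' h
        · exact h hm'x
      have hXX' : ∀ x ∈ X, x ≠ x₀ → x ∈ X' := by
        intro x hx hne'
        simp [hX', hx, hne']
      refine ⟨fun x => if x = x₀ then x₀ :: p' t₁ else p' x, ?_, ?_, ?_, ?_⟩
      · intro x hx
        by_cases h : x = x₀
        · subst h
          simp only [if_true]
          obtain ⟨h1, h2, h3⟩ := hp1 t₁ ht₁'
          refine ⟨?_, ?_, rfl⟩
          · cases hpt : p' t₁ with
            | nil => simp
            | cons a t =>
              rw [hpt] at h3 h1
              simp only [List.head?_cons, Option.some.injEq] at h3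
              rw [List.isChain_cons_cons]
              exact ⟨by rw [h3]; exact hadj₁, h1⟩
          · rw [List.nodup_cons]
            exact ⟨hx₀p t₁ ht₁', h2⟩
        · simp only [if_neg h]
          exact hp1 x (hXX' x hx h)
      · intro x hx y hy hxy
        by_cases h1 : x = x₀
        · by_cases h2 : y = x₀
          · exact absurd (h1.trans h2.symm) hxy
          · simp only [if_pos h1, if_neg h2]
            rw [List.disjoint_cons_left]
            refine ⟨hx₀p y (hXX' y hy h2), hp2 t₁ ht₁' y (hXX' y hy h2) ?_⟩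
            rintro rfl; exact ht₁ hy
        · by_cases h2 : y = x₀
          · simp only [if_neg h1, if_pos h2]
            rw [List.disjoint_cons_right]
            refine ⟨hx₀p x (hXX' x hx h1), hp2 x (hXX' x hx h1) t₁ ht₁' ?_⟩
            rintro rfl; exact ht₁ hx
          · simp only [if_neg h1, if_neg h2]
            exact hp2 x (hXX' x hx h1) y (hXX' y hy h2) hxy
      · have e1 : {y | ∀ t ∉ X, m t ≠ y} = {y | ∀ t ∉ X', m' t ≠ y} := by
          ext y
          simp only [mem_ofPred_eq]
          constructor
          · intro h t ht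
            by_cases h1 : t = x₀
            · rw [h1, hm'x, ← hm]
              exact h t₁ ht₁
            · rw [hm't t h1]
              exact h t (hnot t ht h1)
          · intro h t ht
            by_cases h1 : t = t₁
            · rw [h1, hm, ← hm'x]
              exact h x₀ hx₀'
            · have h2 : t ≠ x₀ := by rintro rfl; exact ht hx₀
              rw [← hm't t h2]
              exact h t ((hmem t).2 ⟨Or.inl ht, h1⟩)
        rw [e1, hp3]
        ext y
        simp only [mem_ofPred_eq]
        have hlast : (x₀ :: p' t₁).getLast? = (p' t₁).getLast? := by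
          have h3 := (hp1 t₁ ht₁').2.2
          cases hpt : p' t₁ with
          | nil => rw [hpt] at h3; simp at h3
          | cons a t => rw [List.getLast?_cons_cons]
        constructor
        · rintro ⟨x, hx, hl⟩
          by_cases h1 : x = t₁
          · refine ⟨x₀, hx₀, ?_⟩
            simp only [if_true]
            rw [hlast, ← h1]; exact hl
          · have hxX : x ∈ X ∧ x ≠ x₀ := by
              simp only [hX', Finset.mem_insert, Finset.mem_erase] at hx
              rcases hx with h | h
              · exact absurd h h1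
              · exact ⟨h.2, h.1⟩
            refine ⟨x, hxX.1, ?_⟩
            simp only [if_neg hxX.2]
            exact hl
        · rintro ⟨x, hx, hl⟩
          by_cases h1 : x = x₀
          · simp only [if_pos h1] at hl
            rw [hlast] at hl
            exact ⟨t₁, ht₁', hl⟩
          · simp only [if_neg h1] at hl
            exact ⟨x, hXX' x hx h1, hl⟩
      · intro x hx w hw
        have gen : ∀ x' ∈ X', w ∈ p' x' → w ∈ X ∨ m w ≠ w := by
          intro x' hx' hw'
          rcases hp4 x' hx' w hw' with h | h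
          · simp only [hX', Finset.mem_insert, Finset.mem_erase] at h
            rcases h with h | h
            · right; rw [h, hm]; exact hne
            · left; exact h.2
          · right
            have h4 : w ≠ x₀ := by rintro rfl; exact h hm'x
            rwa [hm't w h4] at h
        by_cases h1 : x = x₀
        · simp only [if_pos h1, List.mem_cons] at hw
          rcases hw with h | h
          · left; rw [h]; exact hx₀
          · exact gen t₁ ht₁' h
        · simp only [if_neg h1] at hw
          exact gen x (hXX' x hx h1) hw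
    · push Not at hex
      exact paths_of_disjoint X m hinj hex

end Link

end Pool.MP_9f00ad_co.NotFinGen
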