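import Pool.Agent.H792.MC4

set_option autoImplicit false

namespace Pool.MP_9f00ad_co.NotFinGen

open Set
open scoped Matroid

section Link
variable {T : Type} {adj : T → T → Prop}

lemma exists_linked [Fintype T] [DecidableEq T] {M₀ : Matroid T} (X : Finset T)
    (h : ∀ P R : Set T, Valid adj P R →
      (X.card : ℤ) ≤ (((X : Set T) \ P).ncard : ℤ) + ((P \ R).ncard : ℤ) + rk M₀ R) :
    ∃ Y, M₀.Indep Y ∧ Linked adj (X : Set T) Y := by
  classical
  have hE : M₀.E.Finite := Set.toFinite _
  set k : ℤ := (X.card : ℤ) with hk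
  set rho : Finset T → ℤ := fun S => S.card + min (rk M₀ ((S : Set T)ᶜ)) k - k with hrho
  have hmono : ∀ A B : Finset T, A ⊆ B → rho A ≤ rho B := by
    intro A B hAB
    have h1 : rk M₀ ((A : Set T)ᶜ) ≤ rk M₀ ((B : Set T)ᶜ) + ((B \ A).card : ℤ) := by
      have e : ((A : Set T)ᶜ) = ((B : Set T)ᶜ) ∪ ((B \ A : Finset T) : Set T) := by
        ext t
        simp only [mem_compl_iff, Finset.mem_coe, mem_union, Finset.mem_sdiff]
        have := @hAB t
        tauto
      rw [e]
      refine (rk_union_le hE _ _).trans ?_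
      have h2 := rk_le_ncard hE (A := ((B \ A : Finset T) : Set T)) (Finset.finite_toSet _)
      rw [ncard_coe_finset] at h2
      linarith
    have h2 : (B.card : ℤ) = A.card + (B \ A).card := by
      have := Finset.card_sdiff_add_card_eq_card hAB
      have h3 : ((B \ A).card : ℤ) + A.card = B.card := by exact_mod_cast this
      linarith
    simp only [hrho]
    rcases le_total (rk M₀ ((B : Set T)ᶜ)) k with h3 | h3
    · have := min_le_left (rk M₀ ((A : Set T)ᶜ)) k
      rw [min_eq_left h3]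
      linarith
    · have := min_le_right (rk M₀ ((A : Set T)ᶜ)) k
      rw [min_eq_right h3]
      have : (0 : ℤ) ≤ (B \ A).card := by positivity
      linarith
  have hsub : ∀ A B : Finset T, rho (A ∪ B) + rho (A ∩ B) ≤ rho A + rho B := by
    intro A B
    have h1 : ((A ∪ B).card : ℤ) + (A ∩ B).card = A.card + B.card := by
      exact_mod_cast Finset.card_union_add_card_inter A B
    have h2 := rk_submod hE ((A : Set T)ᶜ) ((B : Set T)ᶜ)
    have e1 : (((A ∪ B : Finset T) : Set T)ᶜ) = (A : Set T)ᶜ ∩ (B : Set T)ᶜ := by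
      push_cast; exact compl_union _ _
    have e2 : (((A ∩ B : Finset T) : Set T)ᶜ) = (A : Set T)ᶜ ∪ (B : Set T)ᶜ := by
      push_cast; exact compl_inter _ _
    have h3 : rk M₀ ((A : Set T)ᶜ) ≤ rk M₀ ((A : Set T)ᶜ ∪ (B : Set T)ᶜ) :=
      rk_mono hE subset_union_left
    have h4 : rk M₀ ((B : Set T)ᶜ) ≤ rk M₀ ((A : Set T)ᶜ ∪ (B : Set T)ᶜ) :=
      rk_mono hE subset_union_right
    have h5 : rk M₀ ((A : Set T)ᶜ ∩ (B : Set T)ᶜ) ≤ rk M₀ ((A : Set T)ᶜ) :=
      rk_mono hE inter_subset_left
    have h6 : rk M₀ ((A : Set T)ᶜ ∩ (B : Set T)ᶜ) ≤ rk M₀ ((B : Set T)ᶜ) :=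
      rk_mono hE inter_subset_right
    simp only [hrho, e1, e2]
    have h7 : min (rk M₀ ((A : Set T)ᶜ ∩ (B : Set T)ᶜ)) k + min (rk M₀ ((A : Set T)ᶜ ∪ (B : Set T)ᶜ)) k
        ≤ min (rk M₀ ((A : Set T)ᶜ)) k + min (rk M₀ ((B : Set T)ᶜ)) k := by
      rcases le_total (rk M₀ ((A : Set T)ᶜ)) k with h8 | h8 <;>
      rcases le_total (rk M₀ ((B : Set T)ᶜ)) k with h9 | h9 <;>
      simp only [min_eq_left, min_eq_right, h8, h9]
      · have := min_le_left (rk M₀ ((A : Set T)ᶜ ∩ (B : Set T)ᶜ)) k
        have := min_le_left (rk M₀ ((A : Set T)ᶜ ∪ (B : Set T)ᶜ)) k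
        linarith
      · have := min_le_left (rk M₀ ((A : Set T)ᶜ ∩ (B : Set T)ᶜ)) k
        have := min_le_right (rk M₀ ((A : Set T)ᶜ ∪ (B : Set T)ᶜ)) k
        linarith
      · have := min_le_left (rk M₀ ((A : Set T)ᶜ ∩ (B : Set T)ᶜ)) k
        have := min_le_right (rk M₀ ((A : Set T)ᶜ ∪ (B : Set T)ᶜ)) k
        linarith
      · have := min_le_right (rk M₀ ((A : Set T)ᶜ ∩ (B : Set T)ᶜ)) k
        have := min_le_right (rk M₀ ((A : Set T)ᶜ ∪ (B : Set T)ᶜ)) k
        linarith
    linarith
  have hle : ∀ A : Finset T, rho A ≤ A.card := by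
    intro A
    simp only [hrho]
    have := min_le_right (rk M₀ ((A : Set T)ᶜ)) k
    linarith
  set G : T → Finset T := fun t => insert t (Finset.univ.filter fun u => adj u t) with hG
  set Q₀ : Finset T := Xᶜ with hQ₀
  have hhall : ∀ Q ⊆ Q₀, (Q.card : ℤ) ≤ rho (Q.biUnion G) := by
    intro Q hQ
    have hQN : Q ⊆ Q.biUnion G := by
      intro t ht
      exact Finset.mem_biUnion.2 ⟨t, ht, by simp [hG]⟩
    simp only [hrho]
    rcases le_total k (rk M₀ (((Q.biUnion G : Finset T) : Set T)ᶜ)) with h1 | h1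
    · rw [min_eq_right h1]
      have : (Q.card : ℤ) ≤ (Q.biUnion G).card := by exact_mod_cast Finset.card_le_card hQN
      linarith
    · rw [min_eq_left h1]
      have hval : Valid adj ((Q : Set T)ᶜ) (((Q.biUnion G : Finset T) : Set T)ᶜ) := by
        constructor
        · exact compl_subset_compl.2 (by exact_mod_cast hQN)
        · intro u hu v huv hv
          apply hu
          rw [Finset.mem_coe, Finset.mem_biUnion]
          exact ⟨v, by simpa using hv, by simp [hG, huv]⟩
      have h2 := h _ _ hval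
      have e1 : ((X : Set T) \ (Q : Set T)ᶜ) = ∅ := by
        ext t
        simp only [mem_sdiff, Finset.mem_coe, mem_compl_iff, not_not, mem_empty_iff_false,
          iff_false, not_and]
        intro hx hq
        have := hQ hq
        rw [hQ₀, Finset.mem_compl] at this
        exact this hx
      have e2 : ((Q : Set T)ᶜ \ ((Q.biUnion G : Finset T) : Set T)ᶜ) =
          ((Q.biUnion G \ Q : Finset T) : Set T) := by
        ext t
        simp only [mem_sdiff, mem_compl_iff, Finset.mem_coe, not_not, Finset.mem_sdiff]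
        tauto
      rw [e1, e2, ncard_empty, ncard_coe_finset] at h2
      have h3 := Finset.card_sdiff_add_card_eq_card hQN
      have h4 : ((Q.biUnion G \ Q).card : ℤ) + Q.card = (Q.biUnion G).card := by exact_mod_cast h3
      rw [Nat.cast_zero, zero_add] at h2
      linarith
  obtain ⟨G', hG', hG'2⟩ := rado rho hmono hsub Q₀ (∑ i ∈ Q₀, (G i).card) G (le_refl _) hhall
  have hone : ∀ t ∈ Q₀, ∃ y, G' t = {y} := by
    intro t ht
    have h1 := hG'2 {t} (by simpa using ht)
    rw [Finset.singleton_biUnion] at h1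
    have h2 := hle (G' t)
    have h3 := (hG' t ht).2
    have h4 : (G' t).card = 1 := by
      have : (1 : ℤ) ≤ (G' t).card := by simpa using h1.trans h2
      have : 1 ≤ (G' t).card := by exact_mod_cast this
      omega
    exact Finset.card_eq_one.1 h4
  choose! m hm using hone
  have himg : Q₀.biUnion G' = Q₀.image m := by
    ext y
    simp only [Finset.mem_biUnion, Finset.mem_image]
    constructor
    · rintro ⟨t, ht, hy⟩
      rw [hm t ht, Finset.mem_singleton] at hy
      exact ⟨t, ht, hy.symm⟩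
    · rintro ⟨t, ht, rfl⟩
      exact ⟨t, ht, by rw [hm t ht]; simp⟩
  have h5 := hG'2 Q₀ (Finset.Subset.refl _)
  rw [himg] at h5
  have hcardle : (Q₀.image m).card ≤ Q₀.card := Finset.card_image_le
  have hcardeq : (Q₀.image m).card = Q₀.card := by
    have : (Q₀.card : ℤ) ≤ (Q₀.image m).card := h5.trans (hle _)
    have : Q₀.card ≤ (Q₀.image m).card := by exact_mod_cast this
    omega
  have hinj : Set.InjOn m Q₀ := Finset.card_image_iff.1 hcardeq
  have hrk : k ≤ rk M₀ (((Q₀.image m : Finset T) : Set T)ᶜ) := by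
    simp only [hrho] at h5
    rw [hcardeq] at h5
    have : k ≤ min (rk M₀ (((Q₀.image m : Finset T) : Set T)ᶜ)) k := by linarith
    exact this.trans (min_le_left _ _)
  have hYcard : (((Q₀.image m : Finset T) : Set T)ᶜ).ncard = X.card := by
    rw [← Finset.coe_compl, ncard_coe_finset, Finset.card_compl, hcardeq, hQ₀, Finset.card_compl]
    have := Finset.card_le_univ X
    omega
  have hYind : M₀.Indep (((Q₀.image m : Finset T) : Set T)ᶜ) := by
    apply indep_of_rk hE (Set.toFinite _)
    rw [hYcard]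
    exact hrk
  obtain ⟨p, hp1, hp2, hp3, -⟩ := exists_paths (adj := adj)
    ((Finset.univ.filter fun t => t ∉ X ∧ m t ≠ t).card) X m
    (fun t ht t' ht' htt => hinj (by simpa [hQ₀] using ht) (by simpa [hQ₀] using ht') htt)
    (fun t ht => by
      have htQ : t ∈ Q₀ := by simpa [hQ₀] using ht
      have h6 : m t ∈ G t := by
        apply (hG' t htQ).1
        rw [hm t htQ]; simp
      simpa [hG] using h6) rfl
  refine ⟨_, hYind, p, ?_, ?_, ?_⟩
  · intro x hx; exact hp1 x hx
  · intro x hx y hy; exact hp2 x hx y hy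
  · have e : ((((Q₀.image m : Finset T) : Set T)ᶜ) : Set T) = {y | ∀ t ∉ X, m t ≠ y} := by
      ext y
      simp [hQ₀]
    rw [e, hp3]
    rfl

lemma Valid.union {P R P' R' : Set T} (h : Valid adj P R) (h' : Valid adj P' R') :
    Valid adj (P ∪ P') (R ∪ R') := by
  refine ⟨union_subset_union h.1 h'.1, fun u hu v huv => ?_⟩
  rcases hu with hu | hu
  · exact Or.inl (h.2 u hu v huv)
  · exact Or.inr (h'.2 u hu v huv)

lemma Valid.inter {P R P' R' : Set T} (h : Valid adj P R) (h' : Valid adj P' R') :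
    Valid adj (P ∩ P') (R ∩ R') :=
  ⟨inter_subset_inter h.1 h'.1, fun u hu v huv => ⟨h.2 u hu.1 v huv, h'.2 u hu.2 v huv⟩⟩

lemma ncard_sdiff_submod [Finite T] (P R P' R' : Set T) :
    (((P ∪ P') \ (R ∪ R')).ncard : ℤ) + (((P ∩ P') \ (R ∩ R')).ncard : ℤ) ≤
      ((P \ R).ncard : ℤ) + ((P' \ R').ncard : ℤ) := by
  classical
  have hT : (univ : Set T).Finite := Set.toFinite _
  have e : ∀ S : Set T, (S.ncard : ℤ) = ∑ v ∈ hT.toFinset, (if v ∈ S then 1 else 0) := by
    intro S
    rw [← ncard_eq_sum hT, inter_univ]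
  rw [e, e, e, e, ← Finset.sum_add_distrib, ← Finset.sum_add_distrib]
  apply Finset.sum_le_sum
  intro v _
  by_cases h1 : v ∈ P <;> by_cases h2 : v ∈ P' <;> by_cases h3 : v ∈ R <;> by_cases h4 : v ∈ R' <;>
    simp [h1, h2, h3, h4]

lemma rk_induced_le [Finite T] {M₀ N : Matroid T} {A : Set T} (hN : IsInduced adj M₀ A N)
    {P R : Set T} (hv : Valid adj P R) (B : Set T) :
    rk N B ≤ (((B ∩ A) \ P).ncard : ℤ) + ((P \ R).ncard : ℤ) + rk M₀ R := by
  have hE : N.E.Finite := Set.toFinite _
  obtain ⟨I, hIB, hI, hc⟩ := exists_indep hE B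
  have hIA : I ⊆ A := by rw [← hN.1]; exact hI.subset_ground
  obtain ⟨Y, hY, hL⟩ := (hN.2 I hIA).1 hI
  have h1 := linked_le hL hY hv
  have h2 : (I \ P).ncard ≤ ((B ∩ A) \ P).ncard :=
    ncard_le_ncard (sdiff_subset_sdiff_left (subset_inter hIB hIA))
  have h3 : ((I \ P).ncard : ℤ) ≤ ((B ∩ A) \ P).ncard := by exact_mod_cast h2
  linarith

lemma exists_rk_induced [Finite T] {M₀ N : Matroid T} {A : Set T} (hN : IsInduced adj M₀ A N)
    (B : Set T) : ∃ P R, Valid adj P R ∧
      (((B ∩ A) \ P).ncard : ℤ) + ((P \ R).ncard : ℤ) + rk M₀ R = rk N B := by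
  classical
  have : Fintype T := Fintype.ofFinite T
  have hE : N.E.Finite := Set.toFinite _
  have hE₀ : M₀.E.Finite := Set.toFinite _
  obtain ⟨I, hIB, hI, hc⟩ := exists_indep hE B
  have hIA : I ⊆ A := by rw [← hN.1]; exact hI.subset_ground
  obtain ⟨Y, hY, hL⟩ := (hN.2 I hIA).1 hI
  have hlow : ∀ P R : Set T, Valid adj P R →
      (I.ncard : ℤ) ≤ ((I \ P).ncard : ℤ) + ((P \ R).ncard : ℤ) + rk M₀ R :=
    fun P R hv => linked_le hL hY hv
  have key : ∀ S : Finset T, (S : Set T) ⊆ (B ∩ A) \ I →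
      ∃ P R, Valid adj P R ∧ (S : Set T) ⊆ P ∧
        ((I \ P).ncard : ℤ) + ((P \ R).ncard : ℤ) + rk M₀ R = I.ncard := by
    intro S
    induction S using Finset.induction_on with
    | empty =>
      intro _
      refine ⟨∅, ∅, ⟨le_refl _, by simp⟩, by simp, by simp [rk_empty]⟩
    | insert b S hb ih =>
      intro hS
      rw [Finset.coe_insert] at hS
      obtain ⟨P, R, hv, hSP, ht⟩ := ih ((subset_insert _ _).trans hS)
      have hbm : b ∈ (B ∩ A) \ I := hS (mem_insert _ _)
      -- `insert b I` is dependent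
      have hdep : ¬ N.Indep (insert b I) := by
        intro hbI
        have h1 := indep_le hE hbI (A := B) (insert_subset hbm.1.1 hIB)
        rw [ncard_insert_of_notMem hbm.2 (Set.toFinite _)] at h1
        push_cast at h1
        linarith
      have hbA : insert b I ⊆ A := insert_subset hbm.1.2 hIA
      have hex : ∃ P R : Set T, Valid adj P R ∧
          (((insert b I) \ P).ncard : ℤ) + ((P \ R).ncard : ℤ) + rk M₀ R < (insert b I).ncard := by
        by_contra hno
        push Not at hno
        apply hdep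
        rw [hN.2 _ hbA]
        have := exists_linked (adj := adj) (M₀ := M₀) (insert b I).toFinset (by
          intro P R hPR
          have := hno P R hPR
          rw [Set.coe_toFinset, ← Set.ncard_eq_toFinset_card']
          exact this)
        rwa [Set.coe_toFinset] at this
      obtain ⟨P', R', hv', hlt⟩ := hex
      rw [ncard_insert_of_notMem hbm.2 (Set.toFinite _)] at hlt
      have hl' := hlow P' R' hv'
      have hmono : (I \ P').ncard ≤ ((insert b I) \ P').ncard :=
        ncard_le_ncard (sdiff_subset_sdiff_left (subset_insert _ _))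
      have hbP : b ∈ P' := by
        by_contra hbP
        have e : (insert b I) \ P' = insert b (I \ P') := by
          rw [insert_sdiff_of_notMem _ hbP]
        rw [e, ncard_insert_of_notMem (by intro h; exact hbm.2 h.1) (Set.toFinite _)] at hlt
        push_cast at hlt
        linarith
      have ht' : ((I \ P').ncard : ℤ) + ((P' \ R').ncard : ℤ) + rk M₀ R' = I.ncard := by
        have hm : ((I \ P').ncard : ℤ) ≤ ((insert b I) \ P').ncard := by exact_mod_cast hmono
        push_cast at hlt
        linarith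
      refine ⟨P ∪ P', R ∪ R', hv.union hv', ?_, ?_⟩
      · rw [Finset.coe_insert]
        exact insert_subset (Or.inr hbP) (hSP.trans subset_union_left)
      · have s1 := hlow _ _ (hv.union hv')
        have s2 := hlow _ _ (hv.inter hv')
        have s3 := ncard_sdiff_submod P R P' R'
        have s4 := rk_submod hE₀ R R'
        have s5 : ((I \ (P ∪ P')).ncard : ℤ) + ((I \ (P ∩ P')).ncard : ℤ) ≤
            ((I \ P).ncard : ℤ) + ((I \ P').ncard : ℤ) := by
          have := ncard_sdiff_submod I P I P'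
          rw [union_self, inter_self] at this
          exact this
        linarith
  obtain ⟨P, R, hv, hSP, ht⟩ := key ((B ∩ A) \ I).toFinset (by rw [Set.coe_toFinset])
  rw [Set.coe_toFinset] at hSP
  refine ⟨P, R, hv, ?_⟩
  have e : (B ∩ A) \ P = I \ P := by
    ext t
    constructor
    · rintro ⟨h1, h2⟩
      refine ⟨?_, h2⟩
      by_contra h3
      exact h2 (hSP ⟨h1, h3⟩)
    · rintro ⟨h1, h2⟩
      exact ⟨⟨hIB h1, hIA h1⟩, h2⟩
  rw [e, ht, hc]

end Link

end Pool.MP_9f00ad_co.NotFinGen
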