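import Pool.Agent.H792.MC5

set_option autoImplicit false

namespace Pool.MP_9f00ad_co.NotFinGen

open Set
open scoped Matroid

lemma Expr.induce {c : ℕ} (hc : 2 ≤ c) {T : Type} [Finite T] {adj : T → T → Prop}
    {M₀ N : Matroid T} {A : Set T} (hN : IsInduced adj M₀ A N) (eM : Expr c M₀) : Expr c N := by
  classical
  have : Fintype T := Fintype.ofFinite T
  obtain ⟨W, f, hf, h1, h2⟩ := eM
  have hNE : N.E.Finite := Set.toFinite _
  have hM₀E : M₀.E.Finite := Set.toFinite _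
  let x : T → T ⊕ ((T ⊕ T) ⊕ W) := fun v => Sum.inr (Sum.inl (Sum.inl v))
  let y : T → T ⊕ ((T ⊕ T) ⊕ W) := fun v => Sum.inr (Sum.inl (Sum.inr v))
  let p : T ⊕ W → T ⊕ ((T ⊕ T) ⊕ W) := Sum.elim y (fun w => Sum.inr (Sum.inr w))
  let K : ℤ := Fintype.card T
  have hK : 0 ≤ K := by positivity
  let f1 : Set (T ⊕ ((T ⊕ T) ⊕ W)) → ℤ := fun X => f (p ⁻¹' X)
  let f2 : Set (T ⊕ ((T ⊕ T) ⊕ W)) → ℤ := fun X =>
    ∑ v ∈ (Finset.univ.filter (· ∈ A)), (if Sum.inl v ∈ X ∧ x v ∉ X then (1 : ℤ) else 0)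
  let f3 : Set (T ⊕ ((T ⊕ T) ⊕ W)) → ℤ := fun X =>
    ∑ v : T, (if x v ∈ X ∧ y v ∉ X then (1 : ℤ) else 0)
  let f4 : Set (T ⊕ ((T ⊕ T) ⊕ W)) → ℤ := fun X =>
    ∑ e ∈ (Finset.univ.filter (fun e : T × T => e.1 = e.2 ∨ adj e.1 e.2)),
      (if y e.1 ∈ X ∧ x e.2 ∉ X then K else 0)
  have f2n : ∀ X, 0 ≤ f2 X := fun X => Finset.sum_nonneg fun v _ => by split_ifs <;> norm_num
  have f3n : ∀ X, 0 ≤ f3 X := fun X => Finset.sum_nonneg fun v _ => by split_ifs <;> norm_num
  have f4n : ∀ X, 0 ≤ f4 X := fun X => Finset.sum_nonneg fun v _ => by split_ifs <;> simp [hK]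
  have f1r : ∀ X, rk M₀ (y ⁻¹' X) ≤ f1 X := fun X => h1 (p ⁻¹' X)
  have hT : (univ : Set T).Finite := Set.toFinite _
  have nc : ∀ S : Set T, (S.ncard : ℤ) = ∑ v : T, (if v ∈ S then 1 else 0) := by
    intro S
    have := ncard_eq_sum hT S
    rw [inter_univ] at this
    rw [this]
    refine Finset.sum_congr ?_ fun _ _ => rfl
    ext; simp
  have f2e : ∀ X, f2 X = (((((Sum.inl ⁻¹' X : Set T)) ∩ A) \ (x ⁻¹' X)).ncard : ℤ) := by
    intro X
    rw [nc]
    simp only [f2]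
    rw [Finset.sum_filter]
    refine Finset.sum_congr rfl fun v _ => ?_
    by_cases ha : v ∈ A <;> simp [ha]
  have f3e : ∀ X, f3 X = (((x ⁻¹' X) \ (y ⁻¹' X)).ncard : ℤ) := by
    intro X
    rw [nc]
    refine Finset.sum_congr rfl fun v _ => ?_
    simp
  refine ⟨(T ⊕ T) ⊕ W, f1 + f2 + f3 + f4, ?_, fun X => ?_, fun B => ?_⟩
  · refine add_mem (add_mem (add_mem ?_ ?_) ?_) ?_
    · refine Dec.comp hf ?_
      refine ⟨Or.inl fun X Y => ⟨rfl, rfl⟩, fun u => ⟨{p u}, by simp, fun X => ?_⟩⟩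
      simp
    · exact Dec.sum _ _ fun v _ => Dec.pair hc _ _ (by norm_num)
    · exact Dec.sum _ _ fun v _ => Dec.pair hc _ _ (by norm_num)
    · exact Dec.sum _ (fun e : T × T => fun X => (if y e.1 ∈ X ∧ x e.2 ∉ X then K else 0))
        fun v _ => Dec.pair hc _ _ hK
  · simp only [Pi.add_apply]
    by_cases hv : Valid adj (x ⁻¹' X) (y ⁻¹' X)
    · have h3 := rk_induced_le hN hv (Sum.inl ⁻¹' X)
      rw [← f2e, ← f3e] at h3
      have := f1r X
      have := f4n X
      linarith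
    · have h5 : K ≤ f4 X := by
        have hex : ∃ e : T × T, (e.1 = e.2 ∨ adj e.1 e.2) ∧ (y e.1 ∈ X ∧ x e.2 ∉ X) := by
          by_contra hno
          push Not at hno
          apply hv
          refine ⟨fun u hu => hno (u, u) (Or.inl rfl) hu, fun u hu v huv => ?_⟩
          exact hno (u, v) (Or.inr huv) hu
        obtain ⟨e, he1, he2⟩ := hex
        have h6 : (if y e.1 ∈ X ∧ x e.2 ∉ X then K else 0) = K := if_pos he2
        rw [← h6]
        exact Finset.single_le_sum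
          (f := fun e : T × T => (if y e.1 ∈ X ∧ x e.2 ∉ X then K else 0))
          (fun i _ => by split_ifs <;> simp [hK]) (by simp [he1])
      have h7 : rk N (Sum.inl ⁻¹' X) ≤ K := by
        have h8 := rk_le_ncard hNE (A := (Sum.inl ⁻¹' X : Set T)) (Set.toFinite _)
        have h9 : (Sum.inl ⁻¹' X : Set T).ncard ≤ Fintype.card T := by
          rw [← Nat.card_eq_fintype_card, ← Set.ncard_univ]
          exact ncard_le_ncard (subset_univ _)
        have h10 : ((Sum.inl ⁻¹' X : Set T).ncard : ℤ) ≤ K := by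
          show _ ≤ ((Fintype.card T : ℕ) : ℤ)
          exact_mod_cast h9
        linarith
      have := f1r X
      have := rk_nonneg M₀ (y ⁻¹' X)
      have := f2n X
      have := f3n X
      linarith
  · obtain ⟨P, R, hv, heq⟩ := exists_rk_induced hN B
    obtain ⟨X, hX, hfX⟩ := h2 R
    set Z : Set (T ⊕ ((T ⊕ T) ⊕ W)) := {u | Sum.elim (· ∈ B) (Sum.elim (Sum.elim (· ∈ P) (· ∈ R))
      (fun w => Sum.inr w ∈ X)) u} with hZ
    have zB : (Sum.inl ⁻¹' Z : Set T) = B := by ext; simp [hZ]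
    have zP : x ⁻¹' Z = P := by ext; simp [hZ, x]
    have zR : y ⁻¹' Z = R := by ext; simp [hZ, y]
    refine ⟨Z, zB, ?_⟩
    simp only [Pi.add_apply]
    rw [f2e, f3e, zB, zP, zR, ← heq]
    have e1 : f1 Z = rk M₀ R := by
      rw [← hfX]
      refine congrArg f ?_
      ext u
      rcases u with a | w
      · have : a ∈ R ↔ Sum.inl a ∈ X := by rw [← hX]; rfl
        rw [← this, ← zR]
        rfl
      · simp [hZ, p]
    have e4 : f4 Z = 0 := by
      refine Finset.sum_eq_zero fun e he => ?_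
      rw [Finset.mem_filter] at he
      rw [if_neg]
      rintro ⟨h5, h6⟩
      have h5' : e.1 ∈ R := by rw [← zR]; exact h5
      have h6' : e.2 ∉ P := by rw [← zP]; exact h6
      rcases he.2 with h7 | h7
      · rw [← h7] at h6'
        exact h6' (hv.1 h5')
      · exact h6' (hv.2 _ h5' _ h7)
    rw [e1, e4]
    ring

lemma isComplete_expr {c : ℕ} (hc : 2 ≤ c) :
    IsComplete (fun _ M => M.E.Finite ∧ Expr c M) where
  finite := fun M h => h.1
  iso := fun M N h hMN => by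
    have hN : N.E.Finite := by
      obtain ⟨e, -⟩ := hMN
      have := h.1.to_subtype
      have : Finite N.E := Finite.of_equiv _ e
      exact Set.toFinite _
    exact ⟨hN, h.2.iso h.1 hN hMN⟩
  restrict := fun M R hR h => ⟨h.1.subset hR, h.2.restrict R⟩
  contract := fun M C hC h => ⟨h.1.subset (by simp), h.2.contract (by omega) h.1 C⟩
  dual := fun M h => ⟨h.1, h.2.dual (by omega) h.1⟩
  sum := fun M N h h' => ⟨sum_ground_finite h.1 h'.1, h.2.sum h.1 h'.1 h'.2⟩
  truncate := fun M N k hk h hN => ⟨by rw [hN.1]; exact h.1, h.2.truncate hc h.1 hk hN⟩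
  induce := fun adj M₀ N A h hN => ⟨Set.toFinite _, h.2.induce hc hN⟩

end Pool.MP_9f00ad_co.NotFinGen
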