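import Pool.Agent.H792.MC6

set_option autoImplicit false

namespace Pool.MP_9f00ad_co.NotFinGen

open Set
open scoped Matroid

section Uncross
variable {U ι : Type}

open Classical in
/-- Uncrossing: the level sets of a finite family have smaller total value than the family. -/
lemma uncross (g : Set U → ℤ) (hg : Submod g) (h0 : g ∅ = 0) (s : Finset ι) (X : ι → Set U) :
    ∀ N, s.card ≤ N →
      ∑ t ∈ Finset.range N, g {x | t < (s.filter (fun i => x ∈ X i)).card} ≤ ∑ i ∈ s, g (X i) := by
  induction s using Finset.induction_on with
  | empty =>
    intro N _
    simp [h0]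
  | insert j s hj ih =>
    intro N hN
    rw [Finset.card_insert_of_notMem hj] at hN
    rw [Finset.sum_insert hj]
    set L : ℕ → Set U := fun t => {x | t < (s.filter (fun i => x ∈ X i)).card} with hL
    set L' : ℕ → Set U := fun t => {x | t < ((insert j s).filter (fun i => x ∈ X i)).card} with hL'
    -- auxiliary sets
    set A : ℕ → Set U := fun t => Nat.casesOn t (X j) (fun t => L t ∩ X j) with hA
    have hcard : ∀ x, ((insert j s).filter (fun i => x ∈ X i)).card =
        (s.filter (fun i => x ∈ X i)).card + (if x ∈ X j then 1 else 0) := by
      intro x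
      rw [Finset.filter_insert]
      by_cases hx : x ∈ X j
      · rw [if_pos hx, if_pos hx, Finset.card_insert_of_notMem (by simp [hj])]
      · rw [if_neg hx, if_neg hx]; rfl
    have e1 : ∀ t, L' t = L t ∪ A t := by
      intro t
      ext x
      cases t with
      | zero =>
        simp only [hL', hL, hA, mem_ofPred_eq, mem_union, hcard]
        by_cases hx : x ∈ X j <;> simp [hx]
      | succ t =>
        simp only [hL', hL, hA, mem_ofPred_eq, mem_union, mem_inter_iff, hcard]
        by_cases hx : x ∈ X j
        · simp only [hx, if_true, and_true]; omega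
        · simp [hx]
    have e2 : ∀ t, L t ∩ A t = A (t + 1) := by
      intro t
      ext x
      cases t with
      | zero => simp [hA, hL]
      | succ t =>
        simp only [hL, hA, mem_inter_iff, mem_ofPred_eq]
        constructor
        · rintro ⟨h1, -, h3⟩; exact ⟨h1, h3⟩
        · rintro ⟨h1, h3⟩; exact ⟨h1, by omega, h3⟩
    have key : ∀ n, ∑ t ∈ Finset.range n, g (L' t) + g (A n) ≤
        ∑ t ∈ Finset.range n, g (L t) + g (X j) := by
      intro n
      induction n with
      | zero => simp [hA]
      | succ n ihn =>
        rw [Finset.sum_range_succ, Finset.sum_range_succ]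
        have := hg (L n) (A n)
        rw [← e1, e2] at this
        linarith
    have h1 := key N
    have h2 : g (A N) = 0 := by
      have : A N = ∅ := by
        obtain ⟨n, rfl⟩ : ∃ n, N = n + 1 := ⟨N - 1, by omega⟩
        ext x
        simp only [hA, hL, mem_inter_iff, mem_ofPred_eq, mem_empty_iff_false, iff_false, not_and]
        intro h3
        have := Finset.card_filter_le s (fun i => x ∈ X i)
        omega
      rw [this, h0]
    have h3 := ih N (by omega)
    linarith

end Uncross

end Pool.MP_9f00ad_co.NotFinGen
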