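import Pool.Agent.H792.MC7

set_option autoImplicit false

namespace Pool.MP_9f00ad_co.NotFinGen

open Set
open scoped Matroid

section Core
variable {U V : Type} [Fintype V] [DecidableEq V]

open Classical in
/-- the prescribed multiplicity -/
noncomputable def mult (c : ℕ) (Λ : Finset (Finset V)) (Dv : V → Set U) (Dl : Finset V → Set U)
    (x : U) : ℕ :=
  if ∃ v, x ∈ Dv v then c else (Λ.filter (fun l => x ∈ Dl l)).card

lemma junta_ineq {c : ℕ} {Λ : Finset (Finset V)} {Dv : V → Set U} {Dl : Finset V → Set U}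
    (h1 : ∀ v w, v ≠ w → ∀ x, x ∈ Dv v → x ∉ Dv w)
    (h2 : ∀ l ∈ Λ, ∀ v ∈ l, Dv v ⊆ Dl l)
    (h3 : ∀ l ∈ Λ, ∀ v, v ∉ l → ∀ x, x ∈ Dv v → x ∉ Dl l)
    (h4 : ∀ l ∈ Λ, ∀ l' ∈ Λ, l ≠ l' → ∀ v ∈ l, v ∈ l' → Dl l ∩ Dl l' ⊆ Dv v)
    (g : Set U → ℤ) (hg : Submod g) (h0 : g ∅ = 0) (S : Finset U) (hSc : S.card ≤ c)
    (hS : ∀ X, g (X ∩ S) = g X) :
    ∑ l ∈ Λ, ∑ v ∈ l, g (Dv v) +
      ∑ t ∈ Finset.range (Λ.card + Fintype.card V * c), g {x | t < mult c Λ Dv Dl x} ≤
    ∑ l ∈ Λ, g (Dl l) + c * ∑ v, g (Dv v) := by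
  classical
  set pure : Finset V → Prop := fun l => ∃ v ∈ l, Dl l ∩ S ⊆ Dv v with hpure
  set Λn := Λ.filter (fun l => ¬ pure l) with hΛn
  set nv : V → ℕ := fun v => (Λn.filter (fun l => v ∈ l)).card with hnv
  have gp : ∀ l ∈ Λ, pure l → g (Dl l) = ∑ v ∈ l, g (Dv v) := by
    intro l hl hp
    obtain ⟨v₀, hv₀, hsub⟩ := hp
    rw [Finset.sum_eq_single v₀]
    · rw [← hS (Dl l), ← hS (Dv v₀)]
      congr 1
      ext x
      constructor
      · rintro ⟨h5, h6⟩; exact ⟨hsub ⟨h5, h6⟩, h6⟩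
      · rintro ⟨h5, h6⟩; exact ⟨h2 l hl v₀ hv₀ h5, h6⟩
    · intro w hw hne
      rw [← hS (Dv w), ← h0]
      congr 1
      ext x
      simp only [mem_inter_iff, mem_empty_iff_false, iff_false, not_and]
      intro h5 h6
      exact h1 v₀ w (Ne.symm hne) x (hsub ⟨h2 l hl w hw h5, h6⟩) h5
    · intro h; exact absurd hv₀ h
  have nvc : ∀ v, nv v ≤ c := by
    intro v
    have hex : ∀ l ∈ Λn.filter (fun l => v ∈ l), ∃ x ∈ S, x ∈ Dl l ∧ x ∉ Dv v := by
      intro l hl
      rw [Finset.mem_filter, hΛn, Finset.mem_filter] at hl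
      by_contra hno
      push Not at hno
      exact hl.1.2 ⟨v, hl.2, fun x hx => hno x (by simpa using hx.2) hx.1⟩
    rcases isEmpty_or_nonempty U with hU | hU
    · have : nv v = 0 := by
        simp only [hnv]
        rw [Finset.card_eq_zero, Finset.eq_empty_iff_forall_notMem]
        intro l hl
        obtain ⟨x, -⟩ := hex l hl
        exact hU.elim x
      omega
    choose! x hx1 hx2 using hex
    refine le_trans ?_ hSc
    apply Finset.card_le_card_of_injOn x (fun l hl => hx1 l hl)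
    intro l hl l' hl' hxx
    by_contra hne
    have hl0 := hl
    have hl0' := hl'
    rw [Finset.mem_coe, Finset.mem_filter, hΛn, Finset.mem_filter] at hl hl'
    have h5 := hx2 l hl0
    have h6 := hx2 l' hl0'
    rw [← hxx] at h6
    exact h5.2 (h4 l hl.1.1 l' hl'.1.1 hne v hl.2 hl'.2 ⟨h5.1, h6.1⟩)
  -- the family to be uncrossed
  set s : Finset (Finset V ⊕ (Σ _ : V, ℕ)) :=
    Λn.disjSum (Finset.univ.sigma fun v => Finset.range (c - nv v)) with hs
  set X : Finset V ⊕ (Σ _ : V, ℕ) → Set U := Sum.elim Dl (fun p => Dv p.1) with hX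
  have hscard : s.card ≤ Λ.card + Fintype.card V * c := by
    rw [hs, Finset.card_disjSum, Finset.card_sigma]
    apply add_le_add
    · exact Finset.card_filter_le _ _
    · calc ∑ v : V, (Finset.range (c - nv v)).card ≤ ∑ v : V, c :=
            Finset.sum_le_sum fun v _ => by rw [Finset.card_range]; omega
        _ = Fintype.card V * c := by simp
  have hun := uncross g hg h0 s X _ hscard
  have hmul : ∀ x ∈ S, (s.filter (fun i => x ∈ X i)).card = mult c Λ Dv Dl x := by
    intro x hxS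
    rw [Finset.card_filter, hs, Finset.sum_disjSum, Finset.sum_sigma]
    simp only [hX, Sum.elim_inl, Sum.elim_inr, Finset.sum_const, Finset.card_range, smul_eq_mul]
    unfold mult
    by_cases hex : ∃ v, x ∈ Dv v
    · obtain ⟨v, hv⟩ := hex
      rw [if_pos ⟨v, hv⟩]
      rw [Finset.sum_eq_single v]
      · have e1 : ∑ l ∈ Λn, (if x ∈ Dl l then 1 else 0) = nv v := by
          rw [← Finset.card_filter]
          simp only [hnv]
          congr 1
          apply Finset.filter_congr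
          intro l hl
          have hlΛ : l ∈ Λ := (Finset.mem_filter.1 hl).1
          constructor
          · intro h5
            by_contra h6
            exact h3 l hlΛ v h6 x hv h5
          · intro h5
            exact h2 l hlΛ v h5 hv
        rw [e1, if_pos hv]
        have := nvc v
        omega
      · intro w _ hne
        rw [if_neg (h1 v w (Ne.symm hne) x hv)]
        simp
      · intro h; exact absurd (Finset.mem_univ v) h
    · rw [if_neg hex]
      push Not at hex
      have e2 : ∑ v : V, (c - nv v) * (if x ∈ Dv v then 1 else 0) = 0 := by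
        apply Finset.sum_eq_zero
        intro v _
        rw [if_neg (hex v)]
        simp
      rw [e2, ← Finset.card_filter]
      simp only [add_zero]
      congr 1
      ext l
      simp only [Finset.mem_filter, hΛn]
      constructor
      · rintro ⟨⟨h5, -⟩, h6⟩; exact ⟨h5, h6⟩
      · rintro ⟨h5, h6⟩
        refine ⟨⟨h5, ?_⟩, h6⟩
        rintro ⟨v, hv, hsub⟩
        exact hex v (hsub ⟨h6, by simpa using hxS⟩)
  have hlev : ∀ t, g {x | t < (s.filter (fun i => x ∈ X i)).card} =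
      g {x | t < mult c Λ Dv Dl x} := by
    intro t
    rw [← hS {x | t < (s.filter (fun i => x ∈ X i)).card}, ← hS {x | t < mult c Λ Dv Dl x}]
    congr 1
    ext x
    simp only [mem_inter_iff, mem_ofPred_eq, Finset.mem_coe]
    refine and_congr_left fun hx => ?_
    rw [hmul x hx]
  have hsum1 : ∑ i ∈ s, g (X i) = ∑ l ∈ Λn, g (Dl l) + ∑ v, ((c : ℤ) - nv v) * g (Dv v) := by
    rw [hs, Finset.sum_disjSum, Finset.sum_sigma]
    congr 1
    refine Finset.sum_congr rfl fun v _ => ?_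
    simp only [hX, Sum.elim_inr, Finset.sum_const, Finset.card_range, nsmul_eq_mul]
    rw [Nat.cast_sub (nvc v)]
  have hsum2 : ∑ v, (nv v : ℤ) * g (Dv v) = ∑ l ∈ Λn, ∑ v ∈ l, g (Dv v) := by
    have e1 : ∀ v, (nv v : ℤ) * g (Dv v) = ∑ l ∈ Λn, (if v ∈ l then g (Dv v) else 0) := by
      intro v
      rw [← Finset.sum_filter, Finset.sum_const, nsmul_eq_mul]
    simp only [e1]
    rw [Finset.sum_comm]
    refine Finset.sum_congr rfl fun l _ => ?_
    rw [← Finset.sum_filter]
    congr 1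
    ext v; simp
  have hsplit : ∀ F : Finset V → ℤ, ∑ l ∈ Λ, F l = ∑ l ∈ Λn, F l + ∑ l ∈ Λ.filter pure, F l := by
    intro F
    rw [hΛn, add_comm]
    exact (Finset.sum_filter_add_sum_filter_not Λ pure F).symm
  have hpures : ∑ l ∈ Λ.filter pure, g (Dl l) = ∑ l ∈ Λ.filter pure, ∑ v ∈ l, g (Dv v) := by
    refine Finset.sum_congr rfl fun l hl => ?_
    rw [Finset.mem_filter] at hl
    exact gp l hl.1 hl.2
  have hc : (c : ℤ) * ∑ v, g (Dv v) =
      ∑ v, ((c : ℤ) - nv v) * g (Dv v) + ∑ v, (nv v : ℤ) * g (Dv v) := by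
    rw [Finset.mul_sum, ← Finset.sum_add_distrib]
    refine Finset.sum_congr rfl fun v _ => ?_
    ring
  simp only [hlev] at hun
  rw [hsplit (fun l => ∑ v ∈ l, g (Dv v)), hsplit (fun l => g (Dl l)), hc, hsum2, hpures]
  rw [hsum1] at hun
  linarith

end Core

end Pool.MP_9f00ad_co.NotFinGen
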