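import Pool.Agent.H792.MC8

set_option autoImplicit false

namespace Pool.MP_9f00ad_co.NotFinGen

open Set
open scoped Matroid

/-- In an expressible rank-3 matroid the number of three-point lines is at most linear. -/
theorem lines_le {c : ℕ} {V : Type} [Fintype V] [DecidableEq V] {M : Matroid V}
    (hM : Expr c M) (Λ : Finset (Finset V)) (r1 : ∀ v, rk M {v} = 1)
    (r2 : ∀ v w, v ≠ w → rk M {v, w} = 2) (rl : ∀ l ∈ Λ, rk M (l : Set V) = 2)
    (hcard : ∀ l ∈ Λ, l.card = 3)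
    (r3 : ∀ l ∈ Λ, ∀ v ∉ l, rk M ((l : Set V) ∪ {v}) = 3)
    (r4 : ∀ l ∈ Λ, ∀ l' ∈ Λ, l ≠ l' → rk M ((l : Set V) ∪ (l' : Set V)) = 3)
    (hint : ∀ l ∈ Λ, ∀ l' ∈ Λ, l ≠ l' → ∀ v ∈ l, v ∈ l' → (l : Set V) ∩ (l' : Set V) = {v}) :
    Λ.card ≤ c * Fintype.card V := by
  classical
  obtain ⟨W, f, hf, h1, h2⟩ := hM
  obtain ⟨S, hS⟩ := Dec.supp hf
  have hsub := Dec.submod hf
  set S' : Set (V ⊕ W) := range Sum.inl ∪ S with hS'
  have hS'fin : S'.Finite := (Set.finite_range _).union (Finset.finite_toSet _)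
  have hfS' : ∀ X, f (X ∩ S') = f X := by
    intro X
    rw [← hS (X ∩ S'), ← hS X]
    congr 1
    ext u
    simp only [hS', mem_inter_iff, mem_union]
    tauto
  have hinl : ∀ X : Set (V ⊕ W), (Sum.inl ⁻¹' (X ∩ S') : Set V) = Sum.inl ⁻¹' X := by
    intro X; ext v; simp [hS']
  -- largest minimisers
  have hex : ∀ A : Set V, ∃ X : Set (V ⊕ W), (X ⊆ S' ∧ Sum.inl ⁻¹' X = A ∧ f X = rk M A) ∧
      ∀ Y : Set (V ⊕ W), Y ⊆ S' → Sum.inl ⁻¹' Y = A → f Y = rk M A → Y ⊆ X := by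
    intro A
    set 𝒳 : Set (Set (V ⊕ W)) := {X | X ⊆ S' ∧ Sum.inl ⁻¹' X = A ∧ f X = rk M A} with h𝒳
    have hfin : 𝒳.Finite := by
      apply hS'fin.finite_subsets.subset
      intro X hX
      exact hX.1
    have hne : 𝒳.Nonempty := by
      obtain ⟨X, hX, hfX⟩ := h2 A
      exact ⟨X ∩ S', inter_subset_right, by rw [hinl, hX], by rw [hfS', hfX]⟩
    obtain ⟨X, hX⟩ := hfin.exists_maximal hne
    refine ⟨X, hX.1, fun Y hY1 hY2 hY3 => ?_⟩
    have hXm : X ⊆ S' ∧ Sum.inl ⁻¹' X = A ∧ f X = rk M A := hX.1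
    have e1 : (Sum.inl ⁻¹' (X ∪ Y) : Set V) = A := by rw [preimage_union, hXm.2.1, hY2, union_self]
    have e2 : (Sum.inl ⁻¹' (X ∩ Y) : Set V) = A := by rw [preimage_inter, hXm.2.1, hY2, inter_self]
    have k1 := h1 (X ∪ Y)
    have k2 := h1 (X ∩ Y)
    rw [e1] at k1
    rw [e2] at k2
    have k3 := hsub X Y
    have hmem : X ∪ Y ∈ 𝒳 := ⟨union_subset hXm.1 hY1, e1, by
      have := hXm.2.2
      linarith⟩
    exact subset_union_right.trans (hX.2 hmem subset_union_left)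
  choose Xf hXf hXf2 using hex
  have hmono : ∀ A B : Set V, A ⊆ B → Xf A ⊆ Xf B := by
    intro A B hAB
    have e1 : (Sum.inl ⁻¹' (Xf A ∪ Xf B) : Set V) = B := by
      rw [preimage_union, (hXf A).2.1, (hXf B).2.1, union_eq_self_of_subset_left hAB]
    have e2 : (Sum.inl ⁻¹' (Xf A ∩ Xf B) : Set V) = A := by
      rw [preimage_inter, (hXf A).2.1, (hXf B).2.1, inter_eq_self_of_subset_left hAB]
    have k1 := h1 (Xf A ∪ Xf B)
    have k2 := h1 (Xf A ∩ Xf B)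
    rw [e1] at k1
    rw [e2] at k2
    have k3 := hsub (Xf A) (Xf B)
    have k4 := (hXf A).2.2
    have k5 := (hXf B).2.2
    exact subset_union_left.trans
      (hXf2 B _ (union_subset (hXf A).1 (hXf B).1) e1 (by linarith))
  have hinter : ∀ A B : Set V, rk M A + rk M B = rk M (A ∪ B) + rk M (A ∩ B) →
      Xf A ∩ Xf B ⊆ Xf (A ∩ B) := by
    intro A B hAB
    have e1 : (Sum.inl ⁻¹' (Xf A ∪ Xf B) : Set V) = A ∪ B := by
      rw [preimage_union, (hXf A).2.1, (hXf B).2.1]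
    have e2 : (Sum.inl ⁻¹' (Xf A ∩ Xf B) : Set V) = A ∩ B := by
      rw [preimage_inter, (hXf A).2.1, (hXf B).2.1]
    have k1 := h1 (Xf A ∪ Xf B)
    have k2 := h1 (Xf A ∩ Xf B)
    rw [e1] at k1
    rw [e2] at k2
    have k3 := hsub (Xf A) (Xf B)
    have k4 := (hXf A).2.2
    have k5 := (hXf B).2.2
    exact hXf2 (A ∩ B) _ (inter_subset_left.trans (hXf A).1) e2 (by linarith)
  set T₀ := Xf ∅ with hT₀
  have hT₀sub : ∀ A, T₀ ⊆ Xf A := fun A => hmono ∅ A (empty_subset _)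
  have hfT₀ : f T₀ = 0 := by rw [hT₀, (hXf ∅).2.2, rk_empty]
  set Dv : V → Set (V ⊕ W) := fun v => Xf {v} \ T₀ with hDv
  set Dl : Finset V → Set (V ⊕ W) := fun l => Xf (l : Set V) \ T₀ with hDl
  have hback : ∀ A, (Xf A \ T₀) ∪ T₀ = Xf A := fun A => sdiff_union_of_subset (hT₀sub A)
  have c1 : ∀ v w, v ≠ w → ∀ x, x ∈ Dv v → x ∉ Dv w := by
    intro v w hne x hx hx'
    have e : ({v} : Set V) ∩ {w} = ∅ := by
      rw [← disjoint_iff_inter_eq_empty]; simpa using hne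
    have e' : ({v} : Set V) ∪ {w} = {v, w} := by rw [insert_eq]
    have := hinter {v} {w} (by rw [r1, r1, e, e', r2 v w hne, rk_empty]; norm_num)
    rw [e] at this
    exact hx.2 (this ⟨hx.1, hx'.1⟩)
  have c2 : ∀ l ∈ Λ, ∀ v ∈ l, Dv v ⊆ Dl l := by
    intro l hl v hv
    exact sdiff_subset_sdiff_left (hmono _ _ (by simpa using hv))
  have c3 : ∀ l ∈ Λ, ∀ v, v ∉ l → ∀ x, x ∈ Dv v → x ∉ Dl l := by
    intro l hl v hv x hx hx'
    have e : (l : Set V) ∩ {v} = ∅ := by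
      rw [← disjoint_iff_inter_eq_empty]; simpa using hv
    have := hinter (l : Set V) {v} (by rw [r1, rl l hl, e, r3 l hl v hv, rk_empty]; norm_num)
    rw [e] at this
    exact hx.2 (this ⟨hx'.1, hx.1⟩)
  have c4 : ∀ l ∈ Λ, ∀ l' ∈ Λ, l ≠ l' → ∀ v ∈ l, v ∈ l' → Dl l ∩ Dl l' ⊆ Dv v := by
    intro l hl l' hl' hne v hv hv' x hx
    have e := hint l hl l' hl' hne v hv hv'
    have := hinter (l : Set V) (l' : Set V) (by
      rw [rl l hl, rl l' hl', e, r4 l hl l' hl' hne, r1]; norm_num)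
    rw [e] at this
    exact ⟨this ⟨hx.1.1, hx.2.1⟩, hx.1.2⟩
  set L : ℕ → Set (V ⊕ W) := fun t => {x | t < mult c Λ Dv Dl x} with hL
  set n₀ := Λ.card + Fintype.card V * c with hn₀
  have hΦ : ∀ h ∈ Dec c (V ⊕ W),
      ∑ l ∈ Λ, ∑ v ∈ l, (h (Dv v ∪ T₀) - h T₀) + ∑ t ∈ Finset.range n₀, (h (L t ∪ T₀) - h T₀) ≤
      ∑ l ∈ Λ, (h (Dl l ∪ T₀) - h T₀) + c * ∑ v, (h (Dv v ∪ T₀) - h T₀) := by
    intro h hh
    induction hh using AddSubmonoid.closure_induction with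
    | mem x hx =>
      obtain ⟨hx1, K, hKc, hK⟩ := hx
      refine junta_ineq c1 c2 c3 c4 (fun X => x (X ∪ T₀) - x T₀) ?_ (by simp) K hKc ?_
      · intro X Y
        have := hx1 (X ∪ T₀) (Y ∪ T₀)
        have e1 : (X ∪ T₀) ∪ (Y ∪ T₀) = (X ∪ Y) ∪ T₀ := by ext; simp; tauto
        have e2 : (X ∪ T₀) ∩ (Y ∪ T₀) = (X ∩ Y) ∪ T₀ := by ext; simp; tauto
        rw [e1, e2] at this
        linarith
      · intro X
        refine congrArg (fun z => z - x T₀) ?_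
        rw [← hK (X ∩ K ∪ T₀), ← hK (X ∪ T₀)]
        congr 1
        ext u; simp; tauto
    | zero => simp
    | add x y hx hy ihx ihy =>
      have e : ∀ A, (x + y) A = x A + y A := fun A => rfl
      simp only [e]
      have e2 : ∀ A, x A + y A - (x T₀ + y T₀) = (x A - x T₀) + (y A - y T₀) := fun A => by ring
      simp only [e2, Finset.sum_add_distrib, mul_add]
      linarith
  have hfin := hΦ f hf
  have e1 : ∀ v, f (Dv v ∪ T₀) = 1 := by
    intro v; rw [hDv]; simp only; rw [hback, (hXf {v}).2.2, r1]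
  have e2 : ∀ l ∈ Λ, f (Dl l ∪ T₀) = 2 := by
    intro l hl; rw [hDl]; simp only; rw [hback, (hXf (l : Set V)).2.2, rl l hl]
  have e3 : ∑ l ∈ Λ, ∑ v ∈ l, (f (Dv v ∪ T₀) - f T₀) = 3 * Λ.card := by
    have : ∀ l ∈ Λ, ∑ v ∈ l, (f (Dv v ∪ T₀) - f T₀) = 3 := by
      intro l hl
      simp only [e1, hfT₀, sub_zero, Finset.sum_const, hcard l hl]
      norm_num
    rw [Finset.sum_congr rfl this]
    simp [mul_comm]
  have e4 : ∑ l ∈ Λ, (f (Dl l ∪ T₀) - f T₀) = 2 * Λ.card := by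
    have : ∀ l ∈ Λ, (f (Dl l ∪ T₀) - f T₀) = 2 := by
      intro l hl
      rw [e2 l hl, hfT₀, sub_zero]
    rw [Finset.sum_congr rfl this]
    simp [mul_comm]
  have e5 : ∑ v : V, (f (Dv v ∪ T₀) - f T₀) = Fintype.card V := by
    simp [e1, hfT₀]
  have e6 : 0 ≤ ∑ t ∈ Finset.range n₀, (f (L t ∪ T₀) - f T₀) := by
    apply Finset.sum_nonneg
    intro t _
    rw [hfT₀, sub_zero]
    exact (rk_nonneg M _).trans (h1 _)
  rw [e3, e4, e5] at hfin
  have : (Λ.card : ℤ) ≤ c * Fintype.card V := by linarith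
  exact_mod_cast this

end Pool.MP_9f00ad_co.NotFinGen
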