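import Mathlib

set_option autoImplicit false

/-!
# Complete classes of matroids: the definitions used in the hand-in for `MP_9f00ad_co`
-/

namespace Pool.MP_9f00ad_co.NotFinGen

open Set
open scoped Matroid

/-- A class of matroids: a property of matroids on all types. (The classes considered below are
closed under isomorphism and contain only finite matroids.) -/
abbrev MatroidClass := (α : Type) → Matroid α → Prop

/-- Isomorphism of matroids: a bijection between the ground sets that preserves and reflects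
independence. -/
def IsIsoTo {α β : Type} (M : Matroid α) (N : Matroid β) : Prop :=
  ∃ e : M.E ≃ N.E, ∀ I : Set M.E,
    (M.Indep (Subtype.val '' I) ↔ N.Indep (Subtype.val '' (e '' I)))

/-- `N` is the truncation of `M` to rank `k`: its independent sets are the independent sets of `M`
of size at most `k`. -/
def IsTruncation {α : Type} (M : Matroid α) (k : ℕ) (N : Matroid α) : Prop :=
  N.E = M.E ∧ ∀ I, (N.Indep I ↔ M.Indep I ∧ I.encard ≤ k)

/-- `X` is linked to `Y` in the digraph `adj`: there are pairwise vertex-disjoint directed paths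
`p x` (`x ∈ X`; `p x` starts at `x`, a path may consist of a single vertex) whose end points form
the set `Y`. -/
def Linked {T : Type} (adj : T → T → Prop) (X Y : Set T) : Prop :=
  ∃ p : T → List T,
    (∀ x ∈ X, (p x).IsChain adj ∧ (p x).Nodup ∧ (p x).head? = some x) ∧
    (∀ x ∈ X, ∀ y ∈ X, x ≠ y → (p x).Disjoint (p y)) ∧
    Y = {y | ∃ x ∈ X, (p x).getLast? = some y}

/-- `N` is the matroid induced on `A` from `M₀` by the digraph `adj` with vertex set `T` (`M₀` is a
matroid on a subset of `T`): its independent sets are the subsets of `A` which are linked to an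
independent set of `M₀`. -/
def IsInduced {T : Type} (adj : T → T → Prop) (M₀ : Matroid T) (A : Set T) (N : Matroid T) :
    Prop :=
  N.E = A ∧ ∀ X ⊆ A, (N.Indep X ↔ ∃ Y, M₀.Indep Y ∧ Linked adj X Y)

/-- A class of finite matroids is *complete* if it is closed under isomorphism, restriction,
contraction, duality, direct sums, truncation and induction by finite digraphs. -/
structure IsComplete (𝒞 : MatroidClass) : Prop where
  finite : ∀ {α : Type} (M : Matroid α), 𝒞 α M → M.E.Finite
  iso : ∀ {α β : Type} (M : Matroid α) (N : Matroid β), 𝒞 α M → IsIsoTo M N → 𝒞 β N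
  restrict : ∀ {α : Type} (M : Matroid α) (R : Set α), R ⊆ M.E → 𝒞 α M → 𝒞 α (M ↾ R)
  contract : ∀ {α : Type} (M : Matroid α) (C : Set α), C ⊆ M.E → 𝒞 α M → 𝒞 α (M ／ C)
  dual : ∀ {α : Type} (M : Matroid α), 𝒞 α M → 𝒞 α M✶
  sum : ∀ {α β : Type} (M : Matroid α) (N : Matroid β), 𝒞 α M → 𝒞 β N → 𝒞 (α ⊕ β) (M.sum N)
  truncate : ∀ {α : Type} (M N : Matroid α) (k : ℕ), (k : ℕ∞) ≤ M.eRank → 𝒞 α M →
    IsTruncation M k N → 𝒞 α N
  induce : ∀ {T : Type} [Finite T] (adj : T → T → Prop) (M₀ N : Matroid T) (A : Set T),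
    𝒞 T M₀ → IsInduced adj M₀ A N → 𝒞 T N

/-- `Generated α M` is the class `𝒞(M₁, …, M_k)`: the smallest complete class that contains every
member of the family `M`, i.e. the intersection of all complete classes that contain them. -/
def Generated {k : ℕ} (α : Fin k → Type) (M : ∀ i, Matroid (α i)) : MatroidClass :=
  fun β N => ∀ 𝒟 : MatroidClass, IsComplete 𝒟 → (∀ i, 𝒟 (α i) (M i)) → 𝒟 β N

/-- The class `𝒞` is generated, as a complete class, by a finite family of finite matroids. -/
def FinitelyGenerated (𝒞 : MatroidClass) : Prop :=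
  ∃ (k : ℕ) (α : Fin k → Type) (M : ∀ i, Matroid (α i)), (∀ i, (M i).E.Finite) ∧
    ∀ (β : Type) (N : Matroid β), 𝒞 β N ↔ Generated α M β N

/-- The class of strongly base-orderable (finite) matroids. -/
def SBO : MatroidClass := fun _ M => M.E.Finite ∧
  ∀ B₁ B₂ : Set _, M.IsBase B₁ → M.IsBase B₂ →
    ∃ φ : _ → _, BijOn φ B₁ B₂ ∧ ∀ X ⊆ B₁, M.IsBase ((B₁ \ X) ∪ φ '' X)

/-- The class of base-orderable (finite) matroids: the exchange condition is required only for
`|X| = 1` and `|X| = r - 1`, where `r` is the rank. -/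
def BO : MatroidClass := fun _ M => M.E.Finite ∧
  ∀ B₁ B₂ : Set _, M.IsBase B₁ → M.IsBase B₂ →
    ∃ φ : _ → _, BijOn φ B₁ B₂ ∧
      ∀ X ⊆ B₁, (X.encard = 1 ∨ X.encard + 1 = M.eRank) → M.IsBase ((B₁ \ X) ∪ φ '' X)

end Pool.MP_9f00ad_co.NotFinGen
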