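import Mathlib

/-! Real numbers with prescribed uniform exponent of approximation by numbers of degree at most 2
(same proof as in `Pool/Agent/S09959.lean`, stated without the frozen statement). -/

set_option autoImplicit false

namespace Pool.Agent.H792.W2Star

section Helpers
open Filter Topology Polynomial

lemma irrational_of_quad {b c : ℤ} {α : ℝ} (h : α ^ 2 + b * α + c = 0) (h0 : 0 < α) (h1 : α < 1) :
    Irrational α := by
  rintro ⟨r, rfl⟩
  have hr : r ^ 2 + b * r + c = 0 := by exact_mod_cast h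
  have hm : (X ^ 2 + C b * X + C c : ℤ[X]).Monic := by monicity!
  have hroot : aeval r (X ^ 2 + C b * X + C c : ℤ[X]) = 0 := by
    simp only [map_add, map_mul, map_pow, aeval_X, aeval_C]
    simpa using hr
  obtain ⟨k, hk⟩ := isInteger_of_is_root_of_monic hm hroot
  have hk' : (k : ℚ) = r := by simpa using hk
  have h0' : (0 : ℚ) < r := by exact_mod_cast h0
  have h1' : r < 1 := by exact_mod_cast h1
  rw [← hk'] at h0' h1'
  have h2 : 0 < k := by exact_mod_cast h0'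
  have h3 : k < 1 := by exact_mod_cast h1'
  omega

lemma irreducible_quad {b c : ℤ} {α : ℝ} (h : α ^ 2 + b * α + c = 0) (hα : Irrational α) :
    Irreducible (X ^ 2 + C b * X + C c : ℤ[X]) := by
  have hm : (X ^ 2 + C b * X + C c : ℤ[X]).Monic := by monicity!
  have hd : (X ^ 2 + C b * X + C c : ℤ[X]).natDegree = 2 := by compute_degree!
  rw [hm.irreducible_iff_roots_eq_zero_of_degree_le_three (by omega) (by omega)]
  by_contra hne
  obtain ⟨r, hr⟩ := Multiset.exists_mem_of_ne_zero hne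
  rw [mem_roots hm.ne_zero] at hr
  have hr' : r ^ 2 + b * r + c = 0 := by
    have := hr
    simp only [IsRoot.def, eval_add, eval_mul, eval_pow, eval_X, eval_C] at this
    exact this
  have hrR : (r : ℝ) ^ 2 + b * r + c = 0 := by exact_mod_cast hr'
  have hprod : (α - r) * (α + r + b) = 0 := by linear_combination h - hrR
  rcases mul_eq_zero.mp hprod with h1 | h1
  · exact hα ⟨r, by push_cast; linarith⟩
  · exact hα ⟨-r - b, by push_cast; linarith⟩

lemma exists_approx {α : ℝ} (hα : Irrational α) (h0 : 0 < α) (h1 : α < 1) (N : ℕ) :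
    ∃ p q : ℕ, N ≤ q ∧ 0 < p ∧ p < q ∧ Nat.Coprime p q ∧ |α - p / q| < 1 / (q : ℝ) ^ 2 := by
  -- enlarge N
  obtain ⟨N₁, hN₁⟩ := exists_nat_gt (max (N : ℝ) (max (1 / α) (1 / (1 - α))))
  have hNN : (N : ℝ) < N₁ := lt_of_le_of_lt (le_max_left _ _) hN₁
  have hNa : 1 / α < N₁ := lt_of_le_of_lt (le_trans (le_max_left _ _) (le_max_right _ _)) hN₁
  have hNb : 1 / (1 - α) < N₁ := lt_of_le_of_lt (le_trans (le_max_right _ _) (le_max_right _ _)) hN₁
  set F : ℝ := (N₁.factorial : ℝ) with hF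
  have hFpos : 0 < F := Nat.cast_pos.mpr (Nat.factorial_pos N₁)
  have hirr : Irrational (F * α) := by
    have := hα.natCast_mul (Nat.factorial_ne_zero N₁)
    simpa [hF] using this
  set δ := |F * α - round (F * α)| with hδ
  have hδpos : 0 < δ := by
    rw [hδ, abs_pos, sub_ne_zero]
    exact hirr.ne_int _
  obtain ⟨n, hn⟩ := exists_nat_gt (F / δ)
  have hnpos : 0 < n := by
    rcases Nat.eq_zero_or_pos n with h | h
    · subst h
      have : 0 < F / δ := by positivity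
      simp at hn; linarith
    · exact h
  obtain ⟨r, hr1, hr2⟩ := Real.exists_rat_abs_sub_le_and_den_le α hnpos
  have hden : N₁ < r.den := by
    by_contra hcon
    push Not at hcon
    have hdvd : r.den ∣ N₁.factorial := Nat.dvd_factorial r.pos hcon
    obtain ⟨k, hk⟩ := hdvd
    have hint : F * r = ((k * r.num : ℤ) : ℝ) := by
      have h2 : (r : ℝ) = r.num / r.den := by exact_mod_cast (Rat.num_div_den r).symm
      rw [h2, hF, hk]
      have : (r.den : ℝ) ≠ 0 := by exact_mod_cast r.den_nz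
      push_cast
      field_simp
    have h3 : δ ≤ |F * α - F * r| := by
      rw [hint, hδ]; exact round_le _ _
    have h4 : |F * α - F * r| = F * |α - r| := by
      rw [← mul_sub, abs_mul, abs_of_pos hFpos]
    have h5 : |α - r| ≤ 1 / (n + 1) := by
      refine hr1.trans ?_
      have hd1 : (1 : ℝ) ≤ r.den := by exact_mod_cast r.pos
      apply one_div_le_one_div_of_le (by positivity)
      nlinarith [(by positivity : (0 : ℝ) ≤ (n : ℝ) + 1)]
    have h6 : F * |α - r| < δ := by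
      have h7 : F < n * δ := by rwa [div_lt_iff₀ hδpos] at hn
      have hn1 : (0 : ℝ) < n + 1 := by positivity
      calc F * |α - r| ≤ F * (1 / (n + 1)) := mul_le_mul_of_nonneg_left h5 hFpos.le
        _ = F / (n + 1) := by ring
        _ < δ := by rw [div_lt_iff₀ hn1]; nlinarith
    linarith
  have hq0 : (0 : ℝ) < r.den := by exact_mod_cast r.pos
  have hlt : |α - r| < 1 / (r.den : ℝ) ^ 2 := by
    refine lt_of_le_of_lt hr1 ?_
    apply one_div_lt_one_div_of_lt (by positivity)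
    have : (r.den : ℝ) ≤ n := by exact_mod_cast hr2
    nlinarith
  have hNden : (N₁ : ℝ) < r.den := by exact_mod_cast hden
  have hsq : 1 / (r.den : ℝ) ^ 2 ≤ 1 / r.den := by
    apply one_div_le_one_div_of_le hq0
    have : (1 : ℝ) ≤ r.den := by exact_mod_cast r.pos
    nlinarith
  have hinv1 : 1 / (r.den : ℝ) < α := by
    rw [div_lt_iff₀ hq0]
    rw [div_lt_iff₀ h0] at hNa
    nlinarith
  have hinv2 : 1 / (r.den : ℝ) < 1 - α := by
    have h1a : 0 < 1 - α := by linarith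
    rw [div_lt_iff₀ hq0]
    rw [div_lt_iff₀ h1a] at hNb
    nlinarith
  have habs := abs_lt.mp hlt
  have hrpos : (0 : ℝ) < r := by linarith [habs.1, habs.2]
  have hrlt : (r : ℝ) < 1 := by linarith [habs.1, habs.2]
  have hrposQ : (0 : ℚ) < r := by exact_mod_cast hrpos
  have hrltQ : r < 1 := by exact_mod_cast hrlt
  have hnum : 0 < r.num := Rat.num_pos.mpr hrposQ
  have hnumlt : r.num < r.den := by
    have := Rat.num_div_den r
    rw [← this, div_lt_one (by exact_mod_cast r.pos)] at hrltQ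
    exact_mod_cast hrltQ
  obtain ⟨p, hp⟩ := Int.eq_ofNat_of_zero_le hnum.le
  refine ⟨p, r.den, ?_, ?_, ?_, ?_, ?_⟩
  · have : N < N₁ := by exact_mod_cast hNN
    omega
  · omega
  · omega
  · have := r.reduced
    rw [hp] at this
    simpa using this
  · have h2 : (r : ℝ) = p / r.den := by
      have h3 : (r : ℝ) = r.num / r.den := by exact_mod_cast (Rat.num_div_den r).symm
      rw [h3, hp]; simp
    rwa [h2] at hlt


lemma step {b c : ℤ} {α ρ : ℝ} (hroot : α ^ 2 + b * α + c = 0) (hρ : 0 < ρ) (h0 : 0 < α - ρ)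
    (h1 : α + ρ < 1) {w ε : ℝ} (hw : 2 ≤ w) (hε : 0 < ε) (N : ℕ) :
    ∃ (b' c' : ℤ) (α' ρ' : ℝ) (p q : ℕ), α' ^ 2 + b' * α' + c' = 0 ∧ 0 < ρ' ∧
      α - ρ ≤ α' - ρ' ∧ α' + ρ' ≤ α + ρ ∧ N ≤ q ∧ 0 < p ∧ p < q ∧ Nat.Coprime p q ∧
      9 ≤ (q : ℝ) ^ ε ∧
      (∀ x : ℝ, |x - α'| ≤ ρ' → (q : ℝ) ^ (-(w + 1) - ε) ≤ |x - p / q| ∧
        |x - p / q| ≤ (q : ℝ) ^ (-(w + 1) + ε) ∧ 0 < |x - α| ∧ |x - α| ≤ (q : ℝ) ^ (-2 + ε)) ∧
      (|b| : ℝ) ≤ (q : ℝ) ^ ε ∧ (|c| : ℝ) ≤ (q : ℝ) ^ ε ∧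
      (|b'| : ℝ) ≤ (q : ℝ) ^ (w - 1 + ε) ∧ (|c'| : ℝ) ≤ (q : ℝ) ^ (w - 1 + ε) := by
  have hα0 : 0 < α := by linarith
  have hα1 : α < 1 := by linarith
  have hirr := irrational_of_quad hroot hα0 hα1
  set K : ℝ := 2 + |(b : ℝ)| with hK
  have hbn : 0 ≤ |(b : ℝ)| := abs_nonneg _
  have hcn : 0 ≤ |(c : ℝ)| := abs_nonneg _
  have hK2 : 2 ≤ K := by rw [hK]; linarith
  set M : ℝ := 9 + 3 * (K + |(c : ℝ)|) with hM
  have hM1 : 9 ≤ M := by rw [hM]; linarith
  have hMpos : 0 < M := by linarith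
  obtain ⟨N₁, hN₁⟩ := exists_nat_gt (max (max (N : ℝ) (M ^ (1 / ε))) (max (2 * K) (4 / ρ)))
  have hN1a : (N : ℝ) < N₁ := lt_of_le_of_lt ((le_max_left _ _).trans (le_max_left _ _)) hN₁
  have hN1b : M ^ (1 / ε) < N₁ := lt_of_le_of_lt ((le_max_right _ _).trans (le_max_left _ _)) hN₁
  have hN1c : 2 * K < N₁ := lt_of_le_of_lt ((le_max_left _ _).trans (le_max_right _ _)) hN₁
  have hN1d : 4 / ρ < N₁ := lt_of_le_of_lt ((le_max_right _ _).trans (le_max_right _ _)) hN₁
  obtain ⟨p, q, hNq, hp, hpq, hco, happ⟩ := exists_approx hirr hα0 hα1 N₁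
  have hNqR : (N₁ : ℝ) ≤ q := by exact_mod_cast hNq
  have hqK : 2 * K ≤ q := by linarith
  have hq4 : (4 : ℝ) ≤ q := by linarith
  have hq0 : (0 : ℝ) < q := by linarith
  have hq1 : (1 : ℝ) ≤ q := by linarith
  have hp0 : (0 : ℝ) < p := by exact_mod_cast hp
  have hpqR : (p : ℝ) < q := by exact_mod_cast hpq
  have hqM : M ≤ (q : ℝ) ^ ε := by
    have h2 : (M ^ (1 / ε)) ^ ε = M := by
      rw [← Real.rpow_mul hMpos.le, one_div, inv_mul_cancel₀ hε.ne', Real.rpow_one]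
    rw [← h2]
    exact Real.rpow_le_rpow (by positivity) (by linarith) hε.le
  -- the numerator m
  set t : ℝ := (p : ℝ) / q with ht
  have ht0 : 0 < t := by positivity
  have ht1 : t < 1 := by rw [ht, div_lt_one hq0]; exact hpqR
  set m : ℤ := (p : ℤ) ^ 2 + b * p * q + c * q ^ 2 with hm
  have hmt : (m : ℝ) = q ^ 2 * (t ^ 2 + b * t + c) := by
    rw [hm, ht]; push_cast; field_simp
  have hm0 : m ≠ 0 := by
    intro h
    have h2 : t ^ 2 + b * t + c = 0 := by
      rw [h] at hmt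
      have : (q : ℝ) ^ 2 ≠ 0 := by positivity
      have h3 := hmt.symm
      push_cast at h3
      exact (mul_eq_zero.mp h3).resolve_left this
    have := irrational_of_quad h2 ht0 ht1
    apply this
    exact ⟨(p : ℚ) / q, by rw [ht]; push_cast; rfl⟩
  set μ : ℝ := |(m : ℝ)| with hμ
  have hμ1 : 1 ≤ μ := by
    rw [hμ]
    have : (1 : ℤ) ≤ |m| := Int.one_le_abs hm0
    exact_mod_cast this
  have hμval : |t ^ 2 + b * t + c| = μ / q ^ 2 := by
    rw [hμ, hmt, abs_mul, abs_of_pos (by positivity : (0 : ℝ) < q ^ 2)]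
    field_simp
  have hbabs := abs_le.mp (le_refl |(b : ℝ)|)
  have hμK : μ ≤ K := by
    have h2 : t ^ 2 + b * t + c = (t - α) * (t + α + b) := by linear_combination hroot
    have h3 : |t + α + b| ≤ K := by
      rw [abs_le, hK]; constructor <;> linarith [hbabs.1, hbabs.2]
    have h4 : |t - α| ≤ 1 / q ^ 2 := by rw [abs_sub_comm]; exact happ.le
    have h5 : μ / q ^ 2 ≤ 1 / q ^ 2 * K := by
      rw [← hμval, h2, abs_mul]
      exact mul_le_mul h4 h3 (abs_nonneg _) (by positivity)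
    rw [div_le_iff₀ (by positivity)] at h5
    have h6 : 1 / (q : ℝ) ^ 2 * K * q ^ 2 = K := by field_simp
    linarith
  -- the multiplier l
  set T : ℝ := μ * (q : ℝ) ^ (w - 2) with hT
  have hqw2 : (1 : ℝ) ≤ (q : ℝ) ^ (w - 2) := Real.one_le_rpow hq1 (by linarith)
  have hT1 : 1 ≤ T := one_le_mul_of_one_le_of_one_le hμ1 hqw2
  set l : ℕ := ⌈T⌉₊ with hl
  have hlT : T ≤ l := Nat.le_ceil T
  have hlT2 : (l : ℝ) ≤ 2 * T := by
    have := Nat.ceil_lt_add_one (show 0 ≤ T by linarith)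
    rw [← hl] at this
    linarith
  have hl1 : (1 : ℝ) ≤ l := hT1.trans hlT
  have hlq : (q : ℝ) ≤ l * q := le_mul_of_one_le_left hq0.le hl1
  have hlqK : 2 * K ≤ l * q := hqK.trans hlq
  set b' : ℤ := b + l * q with hb'
  set c' : ℤ := c - l * p with hc'
  have hb'R : (b' : ℝ) = b + l * q := by rw [hb']; push_cast; ring
  have hc'R : (c' : ℝ) = c - l * p := by rw [hc']; push_cast; ring
  set F : ℝ → ℝ := fun x => x ^ 2 + b' * x + c' with hF
  have hFt : F t = t ^ 2 + b * t + c := by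
    simp only [hF]; rw [hb'R, hc'R, ht]; field_simp; ring
  have hFdiff : ∀ x y, F x - F y = (x - y) * (x + y + b') := by
    intro x y; simp only [hF]; ring
  have hslope : ∀ x y : ℝ, 0 ≤ x → x ≤ 1 → 0 ≤ y → y ≤ 1 →
      l * q / 2 ≤ x + y + b' ∧ x + y + b' ≤ 2 * (l * q) := by
    intro x y hx0 hx1 hy0 hy1
    rw [hb'R]
    constructor
    · have : -K ≤ x + y + b := by rw [hK]; linarith [hbabs.1]
      linarith
    · have : x + y + b ≤ K := by rw [hK]; linarith [hbabs.2]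
      linarith
  set D : ℝ := (q : ℝ) ^ (-(w + 1)) with hD
  have hDpos : 0 < D := by positivity
  have hDq : D * (q : ℝ) ^ (w + 1) = 1 := by
    rw [hD, ← Real.rpow_add hq0]; simp
  have hDle : D ≤ 1 / (q : ℝ) ^ 2 := by
    have h2 : (1 : ℝ) / (q : ℝ) ^ 2 = (q : ℝ) ^ (-2 : ℝ) := by
      rw [Real.rpow_neg hq0.le, one_div]; norm_cast
    rw [h2, hD]
    exact Real.rpow_le_rpow_of_exponent_le hq1 (by linarith)
  have hw3 : (q : ℝ) ^ (w - 2) * q ^ 3 = (q : ℝ) ^ (w + 1) := by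
    have : (q : ℝ) ^ 3 = (q : ℝ) ^ (3 : ℝ) := by norm_cast
    rw [this, ← Real.rpow_add hq0]; congr 1; ring
  set r₁ : ℝ := 2 * μ / (l * q ^ 3) with hr₁
  have hlq3 : (0 : ℝ) < l * q ^ 3 := by positivity
  have hr₁pos : 0 < r₁ := by positivity
  have hlow : μ * (q : ℝ) ^ (w + 1) ≤ l * q ^ 3 := by
    calc μ * (q : ℝ) ^ (w + 1) = T * q ^ 3 := by rw [← hw3, hT]; ring
      _ ≤ l * q ^ 3 := mul_le_mul_of_nonneg_right hlT (by positivity)
  have hupp : (l : ℝ) * q ^ 3 ≤ 2 * μ * (q : ℝ) ^ (w + 1) := by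
    calc (l : ℝ) * q ^ 3 ≤ 2 * T * q ^ 3 := mul_le_mul_of_nonneg_right hlT2 (by positivity)
      _ = 2 * μ * (q : ℝ) ^ (w + 1) := by rw [← hw3, hT]; ring
  have hr₁D : r₁ ≤ 2 * D := by
    rw [hr₁, div_le_iff₀ hlq3]
    have : D * (μ * (q : ℝ) ^ (w + 1)) ≤ D * (l * q ^ 3) := mul_le_mul_of_nonneg_left hlow hDpos.le
    have h2 : D * (μ * (q : ℝ) ^ (w + 1)) = μ := by
      calc D * (μ * (q : ℝ) ^ (w + 1)) = μ * (D * (q : ℝ) ^ (w + 1)) := by ring
        _ = μ := by rw [hDq, mul_one]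
    rw [h2] at this
    linarith
  have happ' := abs_lt.mp happ
  have hq2ρ : 4 / (q : ℝ) ^ 2 ≤ ρ := by
    have h2 : 4 / ρ ≤ q := by linarith
    rw [div_le_iff₀ hρ] at h2
    rw [div_le_iff₀ (by positivity)]
    have h3 : (q : ℝ) * ρ * 1 ≤ q * ρ * q := mul_le_mul_of_nonneg_left hq1 (by positivity)
    linarith
  have hq2eq : 4 / (q : ℝ) ^ 2 = 4 * (1 / (q : ℝ) ^ 2) := by ring
  set s : ℝ := 1 / (q : ℝ) ^ 2 with hs
  have hspos : 0 < s := by positivity
  have hta : t - r₁ ≥ α - ρ := by linarith [happ'.1, happ'.2]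
  have htb : t + r₁ ≤ α + ρ := by linarith [happ'.1, happ'.2]
  have hmid : r₁ * (l * q / 2) = μ / q ^ 2 := by
    rw [hr₁]; field_simp
  have hFabs : |F t| = μ / q ^ 2 := by rw [hFt]; exact hμval
  have hFt' := abs_le.mp hFabs.le
  have hF1 : F (t - r₁) ≤ 0 := by
    have h2 := hFdiff t (t - r₁)
    have h3 := (hslope t (t - r₁) ht0.le ht1.le (by linarith) (by linarith)).1
    have h4 : r₁ * (l * q / 2) ≤ r₁ * (t + (t - r₁) + b') := mul_le_mul_of_nonneg_left h3 hr₁pos.le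
    have h5 : t - (t - r₁) = r₁ := by ring
    rw [h5] at h2
    linarith [hFt'.2]
  have hF2 : 0 ≤ F (t + r₁) := by
    have h2 := hFdiff (t + r₁) t
    have h3 := (hslope (t + r₁) t (by linarith) (by linarith) ht0.le ht1.le).1
    have h4 : r₁ * (l * q / 2) ≤ r₁ * (t + r₁ + t + b') := mul_le_mul_of_nonneg_left h3 hr₁pos.le
    have h5 : t + r₁ - t = r₁ := by ring
    rw [h5] at h2
    linarith [hFt'.1]
  have hFcont : ContinuousOn F (Set.Icc (t - r₁) (t + r₁)) := by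
    apply Continuous.continuousOn; fun_prop
  obtain ⟨α', hα'mem, hα'0⟩ := intermediate_value_Icc (by linarith) hFcont ⟨hF1, hF2⟩
  obtain ⟨hα'a, hα'b⟩ := hα'mem
  have hα'D : |α' - t| ≤ 2 * D := by
    rw [abs_le]; constructor <;> linarith
  have hα'low : D / 4 ≤ |α' - t| := by
    have h2 := hFdiff t α'
    rw [hα'0, sub_zero] at h2
    have h3 := hslope t α' ht0.le ht1.le (by linarith) (by linarith)
    have h4 : |F t| = |α' - t| * (t + α' + b') := by
      rw [h2, abs_mul, abs_sub_comm, abs_of_nonneg (le_trans (by positivity) h3.1)]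
    have h5 : μ / q ^ 2 ≤ |α' - t| * (2 * (l * q)) := by
      rw [← hFabs, h4]; exact mul_le_mul_of_nonneg_left h3.2 (abs_nonneg _)
    have h6 : μ ≤ |α' - t| * (2 * (l * q ^ 3)) := by
      rw [div_le_iff₀ (by positivity)] at h5
      calc μ ≤ |α' - t| * (2 * (l * q)) * q ^ 2 := h5
        _ = |α' - t| * (2 * (l * q ^ 3)) := by ring
    have h7 : μ ≤ |α' - t| * (4 * μ * (q : ℝ) ^ (w + 1)) := by
      refine h6.trans (mul_le_mul_of_nonneg_left ?_ (abs_nonneg _))
      linarith [hupp]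
    have h8 : 1 ≤ |α' - t| * (4 * (q : ℝ) ^ (w + 1)) := by
      have hμpos : 0 < μ := by linarith
      have h9 : μ * 1 ≤ μ * (|α' - t| * (4 * (q : ℝ) ^ (w + 1))) := by
        calc μ * 1 = μ := mul_one _
          _ ≤ |α' - t| * (4 * μ * (q : ℝ) ^ (w + 1)) := h7
          _ = μ * (|α' - t| * (4 * (q : ℝ) ^ (w + 1))) := by ring
      exact le_of_mul_le_mul_left h9 hμpos
    have h10 : D * 1 ≤ D * (|α' - t| * (4 * (q : ℝ) ^ (w + 1))) :=
      mul_le_mul_of_nonneg_left h8 hDpos.le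
    have h11 : D * (|α' - t| * (4 * (q : ℝ) ^ (w + 1))) = 4 * |α' - t| := by
      calc D * (|α' - t| * (4 * (q : ℝ) ^ (w + 1))) = 4 * |α' - t| * (D * (q : ℝ) ^ (w + 1)) := by
            ring
        _ = 4 * |α' - t| := by rw [hDq, mul_one]
    linarith
  have hne : α' ≠ α := by
    intro h
    rw [h] at hα'0
    have h2 : (l : ℝ) * (q * α - p) = 0 := by
      have h3 : F α = α ^ 2 + b * α + c + l * (q * α - p) := by
        simp only [hF]; rw [hb'R, hc'R]; ring
      rw [h3, hroot, zero_add] at hα'0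
      exact hα'0
    have h3 : (q : ℝ) * α - p = 0 := (mul_eq_zero.mp h2).resolve_left (by positivity)
    apply hirr
    refine ⟨(p : ℚ) / q, ?_⟩
    push_cast
    rw [div_eq_iff (by positivity)]
    linarith
  have hnepos : 0 < |α' - α| := abs_pos.mpr (sub_ne_zero.mpr hne)
  set ρ' : ℝ := min (D / 8) (|α' - α| / 2) with hρ'
  have hρ'pos : 0 < ρ' := lt_min (by positivity) (by positivity)
  have hρ'1 : ρ' ≤ D / 8 := min_le_left _ _
  have hρ'2 : ρ' ≤ |α' - α| / 2 := min_le_right _ _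
  have hqε9 : 9 ≤ (q : ℝ) ^ ε := hM1.trans hqM
  have hqεinv : (q : ℝ) ^ (-ε) ≤ 1 / 9 := by
    rw [Real.rpow_neg hq0.le, inv_eq_one_div]
    exact one_div_le_one_div_of_le (by norm_num) hqε9
  have hqw1 : (1 : ℝ) ≤ (q : ℝ) ^ (w - 1) := Real.one_le_rpow hq1 (by linarith)
  have hlqw : (l : ℝ) * q ≤ 2 * K * (q : ℝ) ^ (w - 1) := by
    have h2 : (q : ℝ) ^ (w - 2) * q = (q : ℝ) ^ (w - 1) := by
      nth_rewrite 2 [← Real.rpow_one (q : ℝ)]
      rw [← Real.rpow_add hq0]; congr 1; ring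
    calc (l : ℝ) * q ≤ 2 * T * q := mul_le_mul_of_nonneg_right hlT2 hq0.le
      _ = 2 * μ * (q : ℝ) ^ (w - 1) := by rw [← h2, hT]; ring
      _ ≤ 2 * K * (q : ℝ) ^ (w - 1) := by
        apply mul_le_mul_of_nonneg_right _ (by positivity)
        linarith
  have hheight : (3 * K + |(c : ℝ)|) * (q : ℝ) ^ (w - 1) ≤ (q : ℝ) ^ (w - 1 + ε) := by
    rw [Real.rpow_add hq0, mul_comm]
    apply mul_le_mul_of_nonneg_left _ (by positivity)
    refine le_trans ?_ hqM
    rw [hM]; linarith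
  have hnear : ∀ x : ℝ, |x - α'| ≤ ρ' → |x - t| ≤ 3 * D ∧ |x - α| ≤ 4 * s := by
    intro x hx
    have h2 : |x - t| ≤ |x - α'| + |α' - t| := abs_sub_le _ _ _
    have h3 : |x - α| ≤ |x - t| + |t - α| := abs_sub_le _ _ _
    have h4 : |t - α| < s := by rw [abs_sub_comm]; exact happ
    constructor
    · linarith
    · linarith
  refine ⟨b', c', α', ρ', p, q, hα'0, hρ'pos, ?_, ?_, ?_, hp, hpq, hco, hqε9, ?_, ?_, ?_, ?_, ?_⟩
  · have := (hnear (α' - ρ') (by rw [sub_sub_cancel_left, abs_neg, abs_of_pos hρ'pos])).2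
    have := (abs_le.mp this).1
    linarith
  · have := (hnear (α' + ρ') (by rw [add_sub_cancel_left, abs_of_pos hρ'pos])).2
    have := (abs_le.mp this).2
    linarith
  · have : (N : ℝ) < q := by linarith
    exact_mod_cast this.le
  · intro x hx
    obtain ⟨h2, h3⟩ := hnear x hx
    refine ⟨?_, ?_, ?_, ?_⟩
    · rw [sub_eq_add_neg, Real.rpow_add hq0, ← hD]
      have h4 : |α' - t| ≤ |α' - x| + |x - t| := abs_sub_le _ _ _
      rw [abs_sub_comm α' x] at h4
      have h5 : D * (q : ℝ) ^ (-ε) ≤ D * (1 / 9) := mul_le_mul_of_nonneg_left hqεinv hDpos.le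
      linarith
    · rw [Real.rpow_add hq0, ← hD]
      have h5 : D * 9 ≤ D * (q : ℝ) ^ ε := mul_le_mul_of_nonneg_left hqε9 hDpos.le
      linarith
    · have h4 : |α' - α| ≤ |α' - x| + |x - α| := abs_sub_le _ _ _
      rw [abs_sub_comm α' x] at h4
      linarith
    · rw [Real.rpow_add hq0]
      have h6 : (q : ℝ) ^ (-2 : ℝ) = s := by
        rw [hs, Real.rpow_neg hq0.le, one_div]; norm_cast
      rw [h6]
      have h5 : s * 9 ≤ s * (q : ℝ) ^ ε := mul_le_mul_of_nonneg_left hqε9 hspos.le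
      linarith
  · refine le_trans ?_ hqM
    rw [hM, hK]; linarith
  · refine le_trans ?_ hqM
    rw [hM, hK]; linarith
  · have h2 : |(b' : ℝ)| ≤ |(b : ℝ)| + l * q := by
      rw [hb'R]
      refine (abs_add_le _ _).trans ?_
      rw [abs_of_nonneg (show (0 : ℝ) ≤ l * q by positivity)]
    refine h2.trans ?_
    refine le_trans ?_ hheight
    have h3 : |(b : ℝ)| ≤ K * (q : ℝ) ^ (w - 1) := by
      have : K * 1 ≤ K * (q : ℝ) ^ (w - 1) := mul_le_mul_of_nonneg_left hqw1 (by linarith)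
      linarith
    have h4 : 0 ≤ |(c : ℝ)| * (q : ℝ) ^ (w - 1) := by positivity
    linarith
  · have h2 : |(c' : ℝ)| ≤ |(c : ℝ)| + l * q := by
      rw [hc'R]
      refine (abs_sub _ _).trans ?_
      rw [abs_of_nonneg (show (0 : ℝ) ≤ l * p by positivity)]
      have : (l : ℝ) * p ≤ l * q := mul_le_mul_of_nonneg_left hpqR.le (by positivity)
      linarith
    refine h2.trans ?_
    refine le_trans ?_ hheight
    have h3 : |(c : ℝ)| ≤ |(c : ℝ)| * (q : ℝ) ^ (w - 1) := le_mul_of_one_le_right hcn hqw1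
    have h4 : 0 ≤ K * (q : ℝ) ^ (w - 1) := by positivity
    linarith

/-- The state of the construction: a monic quadratic with a root in `(0,1)` and an interval. -/
structure St where
  b : ℤ
  c : ℤ
  α : ℝ
  ρ : ℝ
  p : ℕ
  q : ℕ
  root : α ^ 2 + b * α + c = 0
  hρ : 0 < ρ
  h0 : 0 < α - ρ
  h1 : α + ρ < 1

/-- One step of the construction. -/
structure Rel (w ε : ℝ) (s s' : St) : Prop where
  incl1 : s.α - s.ρ ≤ s'.α - s'.ρ
  incl2 : s'.α + s'.ρ ≤ s.α + s.ρ
  grow : s.q + 1 ≤ s'.q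
  hp : 0 < s'.p
  hpq : s'.p < s'.q
  hco : Nat.Coprime s'.p s'.q
  nine : 9 ≤ (s'.q : ℝ) ^ ε
  near : ∀ x : ℝ, |x - s'.α| ≤ s'.ρ → (s'.q : ℝ) ^ (-(w + 1) - ε) ≤ |x - s'.p / s'.q| ∧
        |x - s'.p / s'.q| ≤ (s'.q : ℝ) ^ (-(w + 1) + ε) ∧ 0 < |x - s.α| ∧
        |x - s.α| ≤ (s'.q : ℝ) ^ (-2 + ε)
  hb : (|s.b| : ℝ) ≤ (s'.q : ℝ) ^ ε
  hc : (|s.c| : ℝ) ≤ (s'.q : ℝ) ^ ε
  hb' : (|s'.b| : ℝ) ≤ (s'.q : ℝ) ^ (w - 1 + ε)
  hc' : (|s'.c| : ℝ) ≤ (s'.q : ℝ) ^ (w - 1 + ε)

lemma exists_next {w ε : ℝ} (hw : 2 ≤ w) (hε : 0 < ε) (s : St) : ∃ s' : St, Rel w ε s s' := by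
  obtain ⟨b', c', α', ρ', p, q, h1, h2, h3, h4, h5, h6, h7, h8, h9, h10, h11, h12, h13, h14⟩ :=
    step s.root s.hρ s.h0 s.h1 hw hε (s.q + 1)
  refine ⟨⟨b', c', α', ρ', p, q, h1, h2, by linarith [s.h0], by linarith [s.h1]⟩, ?_⟩
  exact ⟨h3, h4, h5, h6, h7, h8, h9, h10, h11, h12, h13, h14⟩

lemma exists_start : Nonempty St := by
  have h2 : Real.sqrt 2 ^ 2 = 2 := Real.sq_sqrt (by norm_num)
  have h3 : (1.4 : ℝ) < Real.sqrt 2 := by
    rw [Real.lt_sqrt (by norm_num)]; norm_num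
  have h4 : Real.sqrt 2 < 1.5 := by
    rw [Real.sqrt_lt' (by norm_num)]; norm_num
  exact ⟨⟨2, -1, Real.sqrt 2 - 1, 0.1, 1, 1, by push_cast; linarith, by norm_num, by linarith,
    by linarith⟩⟩

lemma construction (w ε : ℕ → ℝ) (hw : ∀ n, 2 ≤ w n) (hε : ∀ n, 0 < ε n) :
    ∃ (ξ : ℝ) (S : ℕ → St), (∀ n, Rel (w n) (ε n) (S n) (S (n + 1))) ∧
      ∀ n, |ξ - (S n).α| ≤ (S n).ρ := by
  obtain ⟨s₀⟩ := exists_start
  let S : ℕ → St := fun n => Nat.rec s₀ (fun n s => Classical.choose (exists_next (hw n) (hε n) s)) n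
  have hS : ∀ n, Rel (w n) (ε n) (S n) (S (n + 1)) := fun n =>
    Classical.choose_spec (exists_next (hw n) (hε n) (S n))
  have hne : (⋂ n, Set.Icc ((S n).α - (S n).ρ) ((S n).α + (S n).ρ)).Nonempty := by
    apply IsCompact.nonempty_iInter_of_sequence_nonempty_isCompact_isClosed
    · intro n
      exact Set.Icc_subset_Icc (hS n).incl1 (hS n).incl2
    · intro n
      exact ⟨(S n).α, by constructor <;> linarith [(S n).hρ]⟩
    · exact isCompact_Icc
    · intro n; exact isClosed_Icc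
  obtain ⟨ξ, hξ⟩ := hne
  refine ⟨ξ, S, hS, fun n => ?_⟩
  have := Set.mem_iInter.mp hξ n
  rw [abs_le]; constructor <;> linarith [this.1, this.2]

lemma aeval_quad {P : ℤ[X]} (hP : P.natDegree ≤ 2) (y : ℝ) :
    aeval y P = P.coeff 2 * y ^ 2 + P.coeff 1 * y + P.coeff 0 := by
  rw [aeval_eq_sum_range' (n := 3) (by omega)]
  simp [Finset.sum_range_succ]
  ring

lemma aeval_ofReal (x : ℝ) (P : ℤ[X]) : aeval (x : ℂ) P = ((aeval x P : ℝ) : ℂ) := by
  have := Polynomial.aeval_algebraMap_apply ℂ x P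
  simpa using this

lemma dvd_of_root {Q P : ℤ[X]} (hQ : Irreducible Q) (hd : Q.natDegree ≠ 0) {α : ℝ}
    (h1 : aeval α Q = 0) (h2 : aeval α P = 0) : Q ∣ P := by
  have hprim : Q.IsPrimitive := hQ.isPrimitive hd
  have hirr : Irreducible (Q.map (Int.castRingHom ℚ)) :=
    (IsPrimitive.Int.irreducible_iff_irreducible_map_cast hprim).mp hQ
  rw [IsPrimitive.Int.dvd_iff_map_cast_dvd_map_cast Q P hprim]
  have e1 : aeval α (Q.map (Int.castRingHom ℚ)) = 0 := by
    have := Polynomial.aeval_map_algebraMap ℚ α Q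
    rw [show (algebraMap ℤ ℚ) = Int.castRingHom ℚ from rfl] at this
    rw [this]; exact h1
  have e2 : aeval α (P.map (Int.castRingHom ℚ)) = 0 := by
    have := Polynomial.aeval_map_algebraMap ℚ α P
    rw [show (algebraMap ℤ ℚ) = Int.castRingHom ℚ from rfl] at this
    rw [this]; exact h2
  have d1 : minpoly ℚ α ∣ Q.map (Int.castRingHom ℚ) := minpoly.dvd ℚ α e1
  have d2 : minpoly ℚ α ∣ P.map (Int.castRingHom ℚ) := minpoly.dvd ℚ α e2
  have hnu : ¬ IsUnit (minpoly ℚ α) := minpoly.not_isUnit ℚ α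
  exact ((hirr.dvd_iff.mp d1).resolve_left hnu).dvd.trans d2

noncomputable def lin (u v : ℕ) : ℤ[X] := C (u : ℤ) * X - C (v : ℤ)

lemma coeff_lin (u v i : ℕ) :
    (lin u v).coeff i = if i = 1 then (u : ℤ) else if i = 0 then -(v : ℤ) else 0 := by
  unfold lin
  rw [coeff_sub, coeff_C_mul, coeff_X, coeff_C]
  rcases eq_or_ne i 1 with h | h
  · subst h; simp
  · by_cases h0 : i = 0
    · subst h0; simp
    · simp [h, h0, Ne.symm h]

lemma natDegree_lin {u v : ℕ} (hu : 0 < u) : (lin u v).natDegree = 1 := by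
  unfold lin
  rw [natDegree_sub_C]
  exact natDegree_C_mul_X _ (by exact_mod_cast hu.ne')

lemma aeval_lin (u v : ℕ) (x : ℝ) : aeval x (lin u v) = u * x - v := by
  simp [lin]

lemma irreducible_lin {u v : ℕ} (hu : 0 < u) (hco : Nat.Coprime u v) : Irreducible (lin u v) := by
  have hprim : (lin u v).IsPrimitive := by
    intro r hr
    rw [C_dvd_iff_dvd_coeff] at hr
    have h1 := hr 1
    have h2 := hr 0
    rw [coeff_lin] at h1 h2
    simp only [if_true] at h1
    rw [if_neg (by norm_num), if_pos rfl, dvd_neg] at h2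
    have h3 : r ∣ ((Nat.gcd u v : ℕ) : ℤ) := by
      rw [← Int.gcd_natCast_natCast]; exact Int.dvd_coe_gcd h1 h2
    rw [hco] at h3
    exact isUnit_of_dvd_one (by simpa using h3)
  rw [IsPrimitive.Int.irreducible_iff_irreducible_map_cast hprim]
  apply irreducible_of_degree_eq_one
  rw [degree_map_eq_of_injective (Int.castRingHom ℚ).injective_int,
    degree_eq_natDegree, natDegree_lin hu]
  · rfl
  · intro h
    have := natDegree_lin (v := v) hu
    rw [h] at this; simp at this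

/-- An irreducible polynomial vanishing at `p/q` is `± (q X - p)`. -/
lemma rat_root {P : ℤ[X]} (hP : Irreducible P) {p q : ℕ} (hq : 0 < q) (hco : Nat.Coprime p q)
    (hx : aeval ((p : ℝ) / q) P = 0) {α : ℝ} (hα : aeval α P = 0) :
    α = p / q ∧ |P.coeff 1| = q := by
  have hqR : (q : ℝ) ≠ 0 := by exact_mod_cast hq.ne'
  have hdvd : lin q p ∣ P := by
    refine dvd_of_root (irreducible_lin hq hco.symm) (by rw [natDegree_lin hq]; norm_num) ?_ hx
    rw [aeval_lin]; field_simp; ring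
  obtain ⟨R, hR⟩ := hdvd
  have hnu : ¬ IsUnit (lin q p) := (irreducible_lin hq hco.symm).not_isUnit
  have hRu : IsUnit R := (hP.isUnit_or_isUnit hR).resolve_left hnu
  obtain ⟨r, hr, hrR⟩ := Polynomial.isUnit_iff.mp hRu
  have hr1 : |r| = 1 := Int.isUnit_iff_abs_eq.mp hr
  rw [← hrR] at hR
  constructor
  · rw [hR, map_mul, aeval_C, aeval_lin] at hα
    have hr0 : ((algebraMap ℤ ℝ) r) ≠ 0 := by
      intro h
      have : r = 0 := by simpa using h
      rw [this] at hr1; simp at hr1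
    have h2 := (mul_eq_zero.mp hα).resolve_right hr0
    rw [eq_div_iff hqR]; linarith
  · rw [hR, coeff_mul_C, coeff_lin, if_pos rfl, abs_mul, hr1, mul_one]
    exact abs_of_nonneg (by positivity)

/-- Lower bound at a rational point. -/
lemma rat_lower {P : ℤ[X]} (hP : P.natDegree ≤ 2) {p q : ℕ} (hq : 0 < q)
    (hx : aeval ((p : ℝ) / q) P ≠ 0) : 1 / (q : ℝ) ^ 2 ≤ |aeval ((p : ℝ) / q) P| := by
  have hqR : (q : ℝ) ≠ 0 := by exact_mod_cast hq.ne'
  set m : ℤ := P.coeff 2 * p ^ 2 + P.coeff 1 * p * q + P.coeff 0 * q ^ 2 with hm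
  have hmv : aeval ((p : ℝ) / q) P = m / (q : ℝ) ^ 2 := by
    rw [aeval_quad hP, hm]; push_cast; field_simp
  have hm0 : m ≠ 0 := by
    intro h; apply hx; rw [hmv, h]; simp
  have h1 : (1 : ℝ) ≤ |(m : ℝ)| := by
    have : (1 : ℤ) ≤ |m| := Int.one_le_abs hm0
    exact_mod_cast this
  rw [hmv, abs_div, abs_of_pos (by positivity : (0 : ℝ) < (q : ℝ) ^ 2)]
  exact div_le_div_of_nonneg_right h1 (by positivity)

lemma lipschitz {P : ℤ[X]} (hP : P.natDegree ≤ 2) {h : ℝ} (hh : ∀ i, |(P.coeff i : ℝ)| ≤ h)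
    {x y B : ℝ} (hB : |x + y| ≤ B) : |aeval x P - aeval y P| ≤ |x - y| * (h * (B + 1)) := by
  have hh0 : 0 ≤ h := (abs_nonneg _).trans (hh 0)
  rw [aeval_quad hP, aeval_quad hP]
  have : (P.coeff 2 : ℝ) * x ^ 2 + P.coeff 1 * x + P.coeff 0 -
      (P.coeff 2 * y ^ 2 + P.coeff 1 * y + P.coeff 0) =
      (x - y) * (P.coeff 2 * (x + y) + P.coeff 1) := by ring
  rw [this, abs_mul]
  refine mul_le_mul_of_nonneg_left ?_ (abs_nonneg _)
  refine (abs_add_le _ _).trans ?_
  rw [abs_mul]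
  have h1 : |(P.coeff 2 : ℝ)| * |x + y| ≤ h * B :=
    mul_le_mul (hh 2) hB (abs_nonneg _) hh0
  have h2 := hh 1
  linarith

/-- The auxiliary exponents. -/
noncomputable def rr (v : ℝ) (n : ℕ) : ℝ := max v (1 + 1 / ((n : ℝ) + 1))
noncomputable def ee (n : ℕ) : ℝ := 1 / ((n : ℝ) + 1)
noncomputable def ww (v : ℝ) (n : ℕ) : ℝ := 1 + 1 / (rr v n - 1)

lemma ee_pos (n : ℕ) : 0 < ee n := by unfold ee; positivity

lemma ee_tendsto : Tendsto ee atTop (𝓝 0) := tendsto_one_div_add_atTop_nhds_zero_nat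

lemma one_lt_rr (v : ℝ) (n : ℕ) : 1 < rr v n := by
  have : (0 : ℝ) < 1 / ((n : ℝ) + 1) := by positivity
  exact lt_of_lt_of_le (by linarith) (le_max_right _ _)

lemma rr_le {v : ℝ} (hv : v ≤ 2) (n : ℕ) : rr v n ≤ 2 := by
  apply max_le hv
  have : 1 / ((n : ℝ) + 1) ≤ 1 := by
    rw [div_le_one (by positivity)]
    have : (0 : ℝ) ≤ n := Nat.cast_nonneg n
    linarith
  linarith

lemma le_rr (v : ℝ) (n : ℕ) : v ≤ rr v n := le_max_left _ _

lemma rr_tendsto {v : ℝ} (hv : 1 ≤ v) : Tendsto (rr v) atTop (𝓝 v) := by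
  have h1 : Tendsto (fun n : ℕ => 1 + 1 / ((n : ℝ) + 1)) atTop (𝓝 (1 + 0)) :=
    tendsto_const_nhds.add tendsto_one_div_add_atTop_nhds_zero_nat
  have h2 : Tendsto (rr v) atTop (𝓝 (max v (1 + 0))) := tendsto_const_nhds.max h1
  rwa [add_zero, max_eq_left hv] at h2

lemma one_le_u {v : ℝ} (hv : v ≤ 2) (n : ℕ) : 1 ≤ 1 / (rr v n - 1) := by
  rw [le_div_iff₀ (by linarith [one_lt_rr v n])]
  linarith [rr_le hv n]

lemma two_le_ww {v : ℝ} (hv : v ≤ 2) (n : ℕ) : 2 ≤ ww v n := by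
  have := one_le_u hv n
  unfold ww; linarith

lemma ww_eq (v : ℝ) (n : ℕ) : ww v n = (ww v n - 1) * rr v n := by
  have : rr v n - 1 ≠ 0 := by linarith [one_lt_rr v n]
  unfold ww; field_simp; ring

lemma low_cond {v w' : ℝ} (hv : v ≤ 2) (hw : w' < v) :
    ∀ᶠ n in atTop, (ww v n - 1 + ee n) * w' ≤ ww v n - ee n ∧ w' ≤ 2 - 2 * ee n := by
  have h1 : ∀ᶠ n in atTop, ee n < (v - w') / 4 := by
    apply (tendsto_order.mp ee_tendsto).2
    linarith
  filter_upwards [h1] with n hn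
  have hu : 1 ≤ ww v n - 1 := by linarith [two_le_ww hv n]
  have hr := le_rr v n
  have he := ee_pos n
  have hwn := ww_eq v n
  constructor
  · have h2 : (ww v n - 1) * w' = ww v n - (ww v n - 1) * (rr v n - w') := by
      nth_rewrite 2 [hwn]; ring
    have h3 : v - w' ≤ (ww v n - 1) * (rr v n - w') := by
      have : 1 * (v - w') ≤ (ww v n - 1) * (rr v n - w') :=
        mul_le_mul hu (by linarith) (by linarith) (by linarith)
      linarith
    have h4 : ee n * w' ≤ ee n * 2 := mul_le_mul_of_nonneg_left (by linarith) he.le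
    rw [add_mul, h2]
    linarith
  · linarith

lemma up_cond {v w' : ℝ} (hv1 : 1 ≤ v) (hv : v ≤ 2) (hw : v < w') :
    ∀ᶠ n in atTop, ww v n + 2 * ee n ≤ (ww v n - 1 - 2 * ee n) * w' := by
  have h1 : ∀ᶠ n in atTop, ee n < (w' - v) / (8 * (w' + 1)) := by
    apply (tendsto_order.mp ee_tendsto).2
    apply div_pos <;> linarith
  have h2 : ∀ᶠ n in atTop, rr v n < (v + w') / 2 := by
    apply (tendsto_order.mp (rr_tendsto hv1)).2
    linarith
  filter_upwards [h1, h2] with n hn1 hn2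
  have hu : 1 ≤ ww v n - 1 := by linarith [two_le_ww hv n]
  have he := ee_pos n
  have hwn := ww_eq v n
  have h3 : (ww v n - 1) * w' = ww v n + (ww v n - 1) * (w' - rr v n) := by
    nth_rewrite 2 [hwn]; ring
  have h4 : (w' - v) / 2 ≤ (ww v n - 1) * (w' - rr v n) := by
    have : 1 * ((w' - v) / 2) ≤ (ww v n - 1) * (w' - rr v n) :=
      mul_le_mul hu (by linarith) (by linarith) (by linarith)
    linarith
  have h5 : ee n * (8 * (w' + 1)) < w' - v := by
    rwa [lt_div_iff₀ (by linarith)] at hn1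
  rw [sub_mul, h3]
  nlinarith

lemma ne_zero_at {Q : ℤ[X]} (hQ0 : Q ≠ 0) (hQ : Q.natDegree ≤ 2) {p q : ℕ} (hq : 0 < q)
    (hco : Nat.Coprime p q) (hh : ∀ i, |Q.coeff i| < q) : aeval ((p : ℝ) / q) Q ≠ 0 := by
  intro h
  have hqR : (q : ℝ) ≠ 0 := by exact_mod_cast hq.ne'
  rw [aeval_quad hQ] at h
  have h1 : Q.coeff 2 * p ^ 2 + Q.coeff 1 * p * q + Q.coeff 0 * q ^ 2 = 0 := by
    have : (Q.coeff 2 : ℝ) * p ^ 2 + Q.coeff 1 * p * q + Q.coeff 0 * q ^ 2 = 0 := by
      have h2 := congrArg (fun z => z * (q : ℝ) ^ 2) h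
      simp only [zero_mul] at h2
      rw [← h2]; field_simp
    exact_mod_cast this
  have hcoZ : IsCoprime (q : ℤ) (p : ℤ) := by
    rw [Nat.isCoprime_iff_coprime]; exact hco.symm
  have h2 : (q : ℤ) ∣ Q.coeff 2 := by
    have : (q : ℤ) ∣ Q.coeff 2 * p ^ 2 :=
      ⟨-(Q.coeff 1 * p) - Q.coeff 0 * q, by linear_combination h1⟩
    exact (hcoZ.pow_right (n := 2)).dvd_of_dvd_mul_right this
  have h3 : Q.coeff 2 = 0 := Int.eq_zero_of_abs_lt_dvd h2 (hh 2)
  rw [h3] at h1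
  have h4 : Q.coeff 1 * p + Q.coeff 0 * q = 0 := by
    have : (q : ℤ) * (Q.coeff 1 * p + Q.coeff 0 * q) = 0 := by linear_combination h1
    exact (mul_eq_zero.mp this).resolve_left (by exact_mod_cast hq.ne')
  have h5 : (q : ℤ) ∣ Q.coeff 1 := by
    have : (q : ℤ) ∣ Q.coeff 1 * p := ⟨-Q.coeff 0, by linear_combination h4⟩
    exact hcoZ.dvd_of_dvd_mul_right this
  have h6 : Q.coeff 1 = 0 := Int.eq_zero_of_abs_lt_dvd h5 (hh 1)
  rw [h6] at h4
  have h7 : Q.coeff 0 = 0 := by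
    have : Q.coeff 0 * (q : ℤ) = 0 := by linear_combination h4
    exact (mul_eq_zero.mp this).resolve_right (by exact_mod_cast hq.ne')
  apply hQ0
  ext i
  rw [coeff_zero]
  rcases Nat.lt_or_ge i 3 with hi | hi
  · interval_cases i
    · exact h7
    · exact h6
    · exact h3
  · exact coeff_eq_zero_of_natDegree_lt (by omega)

lemma key_lower {ξ η h : ℝ} {P : ℤ[X]} (hP : P.natDegree ≤ 2)
    (hh : ∀ i, |(P.coeff i : ℝ)| ≤ h) {p q : ℕ} (hq : 0 < q) (hpq : p < q) (h0 : 0 < ξ)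
    (h1 : ξ < 1) (hη : |ξ - p / q| ≤ η) (hx : aeval ((p : ℝ) / q) P ≠ 0) :
    1 / (q : ℝ) ^ 2 - η * (h * 3) ≤ |aeval ξ P| := by
  have hh0 : 0 ≤ h := (abs_nonneg _).trans (hh 0)
  have hqR : (0 : ℝ) < q := by exact_mod_cast hq
  have ht0 : (0 : ℝ) ≤ p / q := by positivity
  have ht1 : (p : ℝ) / q ≤ 1 := by
    rw [div_le_one hqR]; exact_mod_cast hpq.le
  have h2 := rat_lower hP hq hx
  have h3 : |ξ + (p : ℝ) / q| ≤ 2 := by rw [abs_le]; constructor <;> linarith
  have h4 := lipschitz hP hh h3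
  have h5 : |ξ - p / q| * (h * (2 + 1)) ≤ η * (h * 3) := by
    have : h * (2 + 1) = h * 3 := by ring
    rw [this]
    exact mul_le_mul_of_nonneg_right hη (by positivity)
  have h6 : |aeval ((p : ℝ) / q) P| ≤ |aeval ξ P| + |aeval ξ P - aeval ((p : ℝ) / q) P| := by
    have := abs_sub_abs_le_abs_sub (aeval ((p : ℝ) / q) P) (aeval ξ P)
    rw [abs_sub_comm] at this
    linarith
  linarith

theorem main (v : ℝ) (hv1 : 1 ≤ v) (hv2 : v ≤ 2) : ∃ ξ : ℝ,
      (∀ Q : Polynomial ℤ, Q ≠ 0 → Q.natDegree ≤ 2 → Polynomial.aeval ξ Q ≠ 0) ∧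
      (∀ w : ℝ, w < v →
        ∃ H₀ : ℝ, ∀ H : ℝ, H₀ ≤ H →
          ∃ P : Polynomial ℤ, ∃ α : ℝ, ∃ h : ℤ,
            Irreducible P ∧ P.natDegree ≤ 2 ∧ Polynomial.aeval α P = 0 ∧
            (∀ i : ℕ, |P.coeff i| ≤ h) ∧ (∃ i : ℕ, |P.coeff i| = h) ∧
            (h : ℝ) ≤ H ∧ 0 < |ξ - α| ∧ |ξ - α| ≤ (h : ℝ)⁻¹ * H ^ (-w)) ∧
      (∀ w : ℝ, v < w →
        ¬ ∃ H₀ : ℝ, ∀ H : ℝ, H₀ ≤ H →
          ∃ P : Polynomial ℤ, ∃ α : ℝ, ∃ h : ℤ,
            Irreducible P ∧ P.natDegree ≤ 2 ∧ Polynomial.aeval α P = 0 ∧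
            (∀ i : ℕ, |P.coeff i| ≤ h) ∧ (∃ i : ℕ, |P.coeff i| = h) ∧
            (h : ℝ) ≤ H ∧ 0 < |ξ - α| ∧ |ξ - α| ≤ (h : ℝ)⁻¹ * H ^ (-w)) := by
  obtain ⟨ξ, S, hS, hξ⟩ := construction (ww v) ee (two_le_ww hv2) ee_pos
  have hqgrow : ∀ n, n ≤ (S n).q := by
    intro n
    induction n with
    | zero => exact Nat.zero_le _
    | succ n ih => exact le_trans (by omega) (hS n).grow
  have hqgrowR : ∀ n : ℕ, (n : ℝ) + 1 ≤ (S (n + 1)).q := by
    intro n
    have := hqgrow (n + 1)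
    exact_mod_cast this
  have hξ0 : 0 < ξ := by
    have := (abs_le.mp (hξ 0)).1
    linarith [(S 0).h0]
  have hξ1 : ξ < 1 := by
    have := (abs_le.mp (hξ 0)).2
    linarith [(S 0).h1]
  have near := fun n => (hS n).near ξ (hξ (n + 1))
  have hqpos : ∀ n, 0 < (S (n + 1)).q := fun n => lt_of_lt_of_le (Nat.succ_pos n) (hqgrow (n + 1))
  refine ⟨ξ, ?_, ?_, ?_⟩
  · intro Q hQ0 hQ hroot
    set k : ℕ := (Q.coeff 0).natAbs + (Q.coeff 1).natAbs + (Q.coeff 2).natAbs with hk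
    have hkall : ∀ i, (Q.coeff i).natAbs ≤ k := by
      intro i
      rcases Nat.lt_or_ge i 3 with hi | hi
      · interval_cases i <;> omega
      · rw [coeff_eq_zero_of_natDegree_lt (by omega)]; simp
    set n : ℕ := 9 * k ^ 2 + k + 1 with hn
    have hqn := hqgrow (n + 1)
    set q := (S (n + 1)).q with hq
    set p := (S (n + 1)).p with hp
    have hkq : k < q := by omega
    have hx : aeval ((p : ℝ) / q) Q ≠ 0 := by
      refine ne_zero_at hQ0 hQ (hqpos n) (hS n).hco fun i => ?_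
      have := hkall i
      rw [Int.abs_eq_natAbs]
      exact_mod_cast lt_of_le_of_lt this hkq
    have hkR : ∀ i, |(Q.coeff i : ℝ)| ≤ k := by
      intro i
      have h1 : ((|Q.coeff i| : ℤ) : ℝ) ≤ k := by
        rw [Int.abs_eq_natAbs]; exact_mod_cast hkall i
      simpa using h1
    have h1 := key_lower hQ hkR (hqpos n) (hS n).hpq hξ0 hξ1 (near n).2.1 hx
    rw [hroot, abs_zero] at h1
    have hq0 : (0 : ℝ) < q := by exact_mod_cast hqpos n
    have hq1 : (1 : ℝ) ≤ q := by exact_mod_cast hqpos n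
    have hε : ee n ≤ 1 / 2 := by
      unfold ee
      apply one_div_le_one_div_of_le (by norm_num)
      have : (1 : ℝ) ≤ n := by rw [hn]; push_cast; nlinarith [(Nat.cast_nonneg k : (0 : ℝ) ≤ k)]
      linarith
    have h2 : (q : ℝ) ^ (-(ww v n + 1) + ee n) ≤ (q : ℝ) ^ (-(5 / 2) : ℝ) := by
      apply Real.rpow_le_rpow_of_exponent_le hq1
      linarith [two_le_ww hv2 n]
    have h3 : (q : ℝ) ^ (-(5 / 2) : ℝ) = 1 / (q : ℝ) ^ 2 * (1 / Real.sqrt q) := by
      have : (-(5 / 2) : ℝ) = -2 + -(1 / 2) := by norm_num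
      rw [this, Real.rpow_add hq0, Real.rpow_neg hq0.le, Real.rpow_neg hq0.le, Real.sqrt_eq_rpow]
      norm_num
    have hsq : 3 * (k : ℝ) < Real.sqrt q := by
      apply Real.lt_sqrt_of_sq_lt
      have : 9 * k ^ 2 < q := by omega
      have h4 : (9 * k ^ 2 : ℝ) < q := by exact_mod_cast this
      nlinarith
    have hsq0 : 0 < Real.sqrt q := Real.sqrt_pos.mpr hq0
    have h5 : (q : ℝ) ^ (-(ww v n + 1) + ee n) * (k * 3) ≤ 1 / (q : ℝ) ^ 2 * (1 / Real.sqrt q) * (k * 3) := by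
      rw [← h3]
      exact mul_le_mul_of_nonneg_right h2 (by positivity)
    have h6 : 1 / Real.sqrt q * (k * 3) < 1 := by
      rw [div_mul_eq_mul_div, one_mul, div_lt_one hsq0]; linarith
    have h7 : 1 / (q : ℝ) ^ 2 * (1 / Real.sqrt q) * (k * 3) < 1 / (q : ℝ) ^ 2 := by
      have h8 : (0 : ℝ) < 1 / (q : ℝ) ^ 2 := by positivity
      calc 1 / (q : ℝ) ^ 2 * (1 / Real.sqrt q) * (k * 3)
          = 1 / (q : ℝ) ^ 2 * (1 / Real.sqrt q * (k * 3)) := by ring
        _ < 1 / (q : ℝ) ^ 2 * 1 := mul_lt_mul_of_pos_left h6 h8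
        _ = 1 / (q : ℝ) ^ 2 := mul_one _
    linarith
  · intro w hw
    set w₁ : ℝ := max w 0 with hw₁
    have hw₁v : w₁ < v := max_lt hw (by linarith)
    have hw₁0 : 0 ≤ w₁ := le_max_right _ _
    have hww₁ : w ≤ w₁ := le_max_left _ _
    obtain ⟨n₀, hn₀⟩ := eventually_atTop.mp (low_cond hv2 hw₁v)
    refine ⟨(S (n₀ + 1)).q, fun H hH => ?_⟩
    have hex : ∃ m : ℕ, H < (S (m + 1)).q := by
      obtain ⟨m, hm⟩ := exists_nat_gt H
      exact ⟨m, by linarith [hqgrowR m]⟩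
    classical
    set m := Nat.find hex with hm
    have hm1 : H < (S (m + 1)).q := Nat.find_spec hex
    have hmn : n₀ < m := by
      by_contra hcon
      push Not at hcon
      have hmono : ∀ i j : ℕ, i ≤ j → (S (i + 1)).q ≤ (S (j + 1)).q := by
        intro i j hij
        induction j, hij using Nat.le_induction with
        | base => exact le_refl _
        | succ j hj ih => exact ih.trans (by have := (hS (j + 1)).grow; omega)
      have h1 : ((S (m + 1)).q : ℝ) ≤ (S (n₀ + 1)).q := by exact_mod_cast hmono m n₀ hcon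
      linarith
    obtain ⟨n, hnm⟩ : ∃ n, m = n + 1 := ⟨m - 1, by omega⟩
    have hn1 : (S (n + 1)).q ≤ H := by
      have := Nat.find_min hex (m := n) (by omega)
      push Not at this
      exact this
    rw [hnm] at hm1
    have hnn₀ : n₀ ≤ n := by omega
    obtain ⟨hc1, -⟩ := hn₀ n hnn₀
    obtain ⟨-, hc2⟩ := hn₀ (n + 1) (by omega)
    set q := (S (n + 1)).q with hq
    set p := (S (n + 1)).p with hp
    have hq0 : (0 : ℝ) < q := by exact_mod_cast hqpos n
    have hq1 : (1 : ℝ) ≤ q := by exact_mod_cast hqpos n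
    have hH1 : 1 ≤ H := hq1.trans hn1
    have hH0 : 0 < H := by linarith
    have hHw : H ^ (-w₁) ≤ H ^ (-w) := Real.rpow_le_rpow_of_exponent_le hH1 (by linarith)
    set b := (S (n + 1)).b with hb
    set c := (S (n + 1)).c with hc
    set h : ℤ := max 1 (max |b| |c|) with hh
    have hh1 : 1 ≤ h := le_max_left _ _
    have hhb : |b| ≤ h := (le_max_left _ _).trans (le_max_right _ _)
    have hhc : |c| ≤ h := (le_max_right _ _).trans (le_max_right _ _)
    have hhcases : h = 1 ∨ h = |b| ∨ h = |c| := by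
      rcases max_choice 1 (max |b| |c|) with h1 | h1
      · left; exact h1
      · right
        rcases max_choice |b| |c| with h2 | h2
        · left; rw [hh, h1, h2]
        · right; rw [hh, h1, h2]
    have hhle : ∀ Y : ℝ, 1 ≤ Y → |(b : ℝ)| ≤ Y → |(c : ℝ)| ≤ Y → (h : ℝ) ≤ Y := by
      intro Y h1 h2 h3
      rcases hhcases with h4 | h4 | h4
      · rw [h4]; simpa using h1
      · rw [h4]; simpa using h2
      · rw [h4]; simpa using h3
    rcases lt_or_ge H (h : ℝ) with hcase | hcase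
    · -- use the rational number
      refine ⟨lin q p, p / q, q, irreducible_lin (hqpos n) (hS n).hco.symm,
        by rw [natDegree_lin (hqpos n)]; norm_num, ?_, ?_, ?_, ?_, ?_, ?_⟩
      · rw [aeval_lin]; field_simp; ring
      · intro i
        rw [coeff_lin]
        have hpq := (hS n).hpq
        split_ifs
        · simp
        · rw [abs_neg, Nat.abs_cast]; exact_mod_cast hpq.le
        · simp
      · exact ⟨1, by rw [coeff_lin]; simp⟩
      · exact_mod_cast hn1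
      · exact lt_of_lt_of_le (Real.rpow_pos_of_pos hq0 _) (near n).1
      · refine (near n).2.1.trans ?_
        have hexp : 0 ≤ ww v n - 1 + ee n := by linarith [two_le_ww hv2 n, ee_pos n]
        have hG : (h : ℝ) ≤ (q : ℝ) ^ (ww v n - 1 + ee n) :=
          hhle _ (Real.one_le_rpow hq1 hexp) (hS n).hb' (hS n).hc'
        have hHG : H ≤ (q : ℝ) ^ (ww v n - 1 + ee n) := hcase.le.trans hG
        have h1 : ((q : ℝ) ^ (ww v n - 1 + ee n)) ^ (-w₁) ≤ H ^ (-w₁) :=
          Real.rpow_le_rpow_of_nonpos hH0 hHG (by linarith)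
        rw [← Real.rpow_mul hq0.le] at h1
        have h2 : (q : ℝ) ^ (-(ww v n + 1) + ee n) ≤
            (q : ℝ) ^ (-1 + (ww v n - 1 + ee n) * -w₁) := by
          apply Real.rpow_le_rpow_of_exponent_le hq1
          linarith
        rw [Real.rpow_add hq0 (-1), Real.rpow_neg_one] at h2
        refine h2.trans ?_
        exact mul_le_mul_of_nonneg_left (h1.trans hHw) (by positivity)
    · -- use the quadratic number
      set q' := (S (n + 1 + 1)).q with hq'
      have hq'0 : (0 : ℝ) < q' := by exact_mod_cast hqpos (n + 1)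
      have hq'1 : (1 : ℝ) ≤ q' := by exact_mod_cast hqpos (n + 1)
      have hroot := (S (n + 1)).root
      have hα0 : 0 < (S (n + 1)).α := by linarith [(S (n + 1)).h0, (S (n + 1)).hρ]
      have hα1 : (S (n + 1)).α < 1 := by linarith [(S (n + 1)).h1, (S (n + 1)).hρ]
      have hcoeff : ∀ i : ℕ, (X ^ 2 + C b * X + C c : ℤ[X]).coeff i =
          if i = 2 then 1 else if i = 1 then b else if i = 0 then c else 0 := by
        intro i
        rw [coeff_add, coeff_add, coeff_X_pow, coeff_C_mul, coeff_X, coeff_C]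
        rcases Nat.lt_or_ge i 3 with hi | hi
        · interval_cases i <;> simp
        · have h0 : i ≠ 0 := by omega
          have h1 : i ≠ 1 := by omega
          have h2 : i ≠ 2 := by omega
          simp [h0, h1, h2, Ne.symm h1]
      refine ⟨X ^ 2 + C b * X + C c, (S (n + 1)).α, h,
        irreducible_quad hroot (irrational_of_quad hroot hα0 hα1), ?_, ?_, ?_, ?_, hcase, ?_, ?_⟩
      · have : (X ^ 2 + C b * X + C c : ℤ[X]).natDegree = 2 := by compute_degree!
        rw [this]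
      · simp only [map_add, map_mul, map_pow, aeval_X, aeval_C]
        simpa using hroot
      · intro i
        rw [hcoeff]
        split_ifs
        · simpa using hh1
        · exact hhb
        · exact hhc
        · simpa using (by linarith : (0 : ℤ) ≤ h)
      · rcases hhcases with h4 | h4 | h4
        · exact ⟨2, by rw [hcoeff, if_pos rfl, h4]; simp⟩
        · exact ⟨1, by rw [hcoeff]; simp [h4]⟩
        · exact ⟨0, by rw [hcoeff]; simp [h4]⟩
      · exact (near (n + 1)).2.2.1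
      · refine (near (n + 1)).2.2.2.trans ?_
        have hhq : (h : ℝ) ≤ (q' : ℝ) ^ (ee (n + 1)) :=
          hhle _ (Real.one_le_rpow hq'1 (ee_pos _).le) (hS (n + 1)).hb (hS (n + 1)).hc
        have hh0 : (0 : ℝ) < h := by
          have : (0 : ℤ) < h := by linarith
          exact_mod_cast this
        have h1 : (q' : ℝ) ^ (-w₁) ≤ H ^ (-w₁) :=
          Real.rpow_le_rpow_of_nonpos hH0 hm1.le (by linarith)
        have h2 : (q' : ℝ) ^ (-(ee (n + 1))) ≤ (h : ℝ)⁻¹ := by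
          rw [Real.rpow_neg hq'0.le]
          exact inv_anti₀ hh0 hhq
        have h3 : (q' : ℝ) ^ (-2 + ee (n + 1)) ≤ (q' : ℝ) ^ (-(ee (n + 1)) + -w₁) := by
          apply Real.rpow_le_rpow_of_exponent_le hq'1
          linarith
        rw [Real.rpow_add hq'0 (-(ee (n + 1))) (-w₁)] at h3
        refine h3.trans ?_
        exact mul_le_mul h2 (h1.trans hHw) (by positivity) (by positivity)
  · intro w hw
    rintro ⟨H₀, hH₀⟩
    have hev : ∀ᶠ n : ℕ in atTop, (|H₀| + 1) ^ 3 ≤ (n : ℝ) + 1 := by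
      obtain ⟨k, hk⟩ := exists_nat_gt ((|H₀| + 1) ^ 3)
      filter_upwards [eventually_ge_atTop k] with n hn
      have : (k : ℝ) ≤ n := by exact_mod_cast hn
      linarith
    obtain ⟨n, hn1, hn2, hn3⟩ := ((up_cond hv1 hv2 hw).and (hev.and (eventually_ge_atTop 2))).exists
    set q := (S (n + 1)).q with hq
    set p := (S (n + 1)).p with hp
    have hq0 : (0 : ℝ) < q := by exact_mod_cast hqpos n
    have hq1 : (1 : ℝ) ≤ q := by exact_mod_cast hqpos n
    have he := ee_pos n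
    have he3 : ee n ≤ 1 / 3 := by
      unfold ee
      apply one_div_le_one_div_of_le (by norm_num)
      have : (2 : ℝ) ≤ n := by exact_mod_cast hn3
      linarith
    have hww2 := two_le_ww hv2 n
    set H : ℝ := (q : ℝ) ^ (ww v n - 1 - 2 * ee n) with hHdef
    have hHH₀ : H₀ ≤ H := by
      have h1 : (q : ℝ) ^ ((1 : ℝ) / 3) ≤ H := by
        apply Real.rpow_le_rpow_of_exponent_le hq1; linarith
      have h2 : ((|H₀| + 1) ^ 3) ^ ((1 : ℝ) / 3) ≤ (q : ℝ) ^ ((1 : ℝ) / 3) := by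
        apply Real.rpow_le_rpow (by positivity) _ (by norm_num)
        exact hn2.trans (hqgrowR n)
      have h3 : ((|H₀| + 1) ^ 3) ^ ((1 : ℝ) / 3) = |H₀| + 1 := by
        have h4 : (0 : ℝ) ≤ |H₀| + 1 := by positivity
        rw [← Real.rpow_natCast, ← Real.rpow_mul h4]; norm_num
      linarith [le_abs_self H₀]
    have hH1 : 1 ≤ H := Real.one_le_rpow hq1 (by linarith)
    obtain ⟨P, α, h, hPirr, hPdeg, hPα, hcoeff, ⟨i₀, hi₀⟩, hhH, hpos, hclose⟩ := hH₀ H hHH₀
    have hh1 : 1 ≤ h := by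
      have h0 : 0 ≤ h := (abs_nonneg _).trans (hcoeff 0)
      rcases eq_or_lt_of_le h0 with h2 | h2
      · exfalso
        apply hPirr.ne_zero
        ext i
        have := hcoeff i
        rw [← h2] at this
        simpa using abs_nonpos_iff.mp this
      · omega
    have hhR1 : (1 : ℝ) ≤ h := by exact_mod_cast hh1
    have hhR0 : (0 : ℝ) < h := by linarith
    have hcoeffR : ∀ i, |(P.coeff i : ℝ)| ≤ h := fun i => by exact_mod_cast hcoeff i
    have hHw : H ^ (-w) ≤ (q : ℝ) ^ (-(ww v n + 2 * ee n)) := by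
      rw [hHdef, ← Real.rpow_mul hq0.le]
      apply Real.rpow_le_rpow_of_exponent_le hq1
      linarith
    have hqe : 9 ≤ (q : ℝ) ^ (ee n) := (hS n).nine
    have hqe' : (q : ℝ) ^ (-(ee n)) ≤ 1 / 9 := by
      rw [Real.rpow_neg hq0.le, inv_eq_one_div]
      exact one_div_le_one_div_of_le (by norm_num) hqe
    have hHw0 : 0 ≤ H ^ (-w) := by positivity
    by_cases hx : aeval ((p : ℝ) / q) P = 0
    · obtain ⟨hαx, hcq⟩ := rat_root hPirr (hqpos n) (hS n).hco hx hPα
      rw [hαx] at hclose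
      have hqh : (q : ℝ) ≤ h := by
        have h1 := hcoeff 1
        rw [hcq] at h1
        exact_mod_cast h1
      have h1 : (h : ℝ)⁻¹ ≤ (q : ℝ) ^ (-1 : ℝ) := by
        rw [Real.rpow_neg_one]; exact inv_anti₀ hq0 hqh
      have h2 : (h : ℝ)⁻¹ * H ^ (-w) ≤ (q : ℝ) ^ (-1 + -(ww v n + 2 * ee n)) := by
        rw [Real.rpow_add hq0]
        exact mul_le_mul h1 hHw hHw0 (by positivity)
      have h3 : (q : ℝ) ^ (-(ww v n + 1) - ee n) ≤ (q : ℝ) ^ (-1 + -(ww v n + 2 * ee n)) :=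
        (near n).1.trans (hclose.trans h2)
      have h4 : (-1 + -(ww v n + 2 * ee n) : ℝ) = (-(ww v n + 1) - ee n) + -(ee n) := by ring
      rw [h4, Real.rpow_add hq0] at h3
      have h5 : 0 < (q : ℝ) ^ (-(ww v n + 1) - ee n) := by positivity
      have h6 := mul_le_mul_of_nonneg_left hqe' h5.le
      linarith
    · have h1 := key_lower hPdeg hcoeffR (hqpos n) (hS n).hpq hξ0 hξ1 (near n).2.1 hx
      set s : ℝ := (q : ℝ) ^ (-2 : ℝ) with hs
      have hs0 : 0 < s := by positivity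
      have hs2 : 1 / (q : ℝ) ^ 2 = s := by
        rw [hs, Real.rpow_neg hq0.le, one_div]; norm_cast
      have h2 : (q : ℝ) ^ (-(ww v n + 1) + ee n) * (h * 3) ≤ s * (1 / 9) * 3 := by
        have h3 : (q : ℝ) ^ (-(ww v n + 1) + ee n) * h ≤ s * (1 / 9) := by
          calc (q : ℝ) ^ (-(ww v n + 1) + ee n) * h
              ≤ (q : ℝ) ^ (-(ww v n + 1) + ee n) * H :=
                mul_le_mul_of_nonneg_left hhH (by positivity)
            _ = (q : ℝ) ^ (-2 + -(ee n)) := by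
                rw [hHdef, ← Real.rpow_add hq0]; congr 1; ring
            _ = s * (q : ℝ) ^ (-(ee n)) := by rw [Real.rpow_add hq0]
            _ ≤ s * (1 / 9) := mul_le_mul_of_nonneg_left hqe' hs0.le
        linarith
      rw [hs2] at h1
      -- upper bound
      have h4 : (h : ℝ)⁻¹ ≤ 1 := inv_le_one_of_one_le₀ hhR1
      have h5 : H ^ (-w) ≤ 1 := by
        apply Real.rpow_le_one_of_one_le_of_nonpos hH1
        linarith
      have h6 : |ξ - α| ≤ 1 := by
        refine hclose.trans ?_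
        calc (h : ℝ)⁻¹ * H ^ (-w) ≤ 1 * 1 := mul_le_mul h4 h5 hHw0 (by norm_num)
          _ = 1 := by norm_num
      have h7 : |ξ + α| ≤ 3 := by
        have := abs_le.mp h6
        rw [abs_le]; constructor <;> linarith
      have h8 := lipschitz hPdeg hcoeffR h7
      rw [hPα, sub_zero] at h8
      have h9 : |ξ - α| * (h * (3 + 1)) ≤ 4 * H ^ (-w) := by
        calc |ξ - α| * (h * (3 + 1)) ≤ ((h : ℝ)⁻¹ * H ^ (-w)) * (h * (3 + 1)) :=
              mul_le_mul_of_nonneg_right hclose (by positivity)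
          _ = 4 * H ^ (-w) := by field_simp; ring
      have h10 : H ^ (-w) ≤ s * (1 / 9) := by
        refine hHw.trans ?_
        calc (q : ℝ) ^ (-(ww v n + 2 * ee n)) ≤ (q : ℝ) ^ (-2 + -(ee n)) := by
              apply Real.rpow_le_rpow_of_exponent_le hq1; linarith
          _ = s * (q : ℝ) ^ (-(ee n)) := by rw [Real.rpow_add hq0]
          _ ≤ s * (1 / 9) := mul_le_mul_of_nonneg_left hqe' hs0.le
      linarith

end Helpers

end Pool.Agent.H792.W2Star
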